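import Pool.Agent.Lib.MP_b2f51a_al.Embed

/-! Extension of scalars from `U_ℤ` to `U_F`. -/

open scoped TensorProduct

noncomputable section

namespace Pool.Agent.Lib.MP_b2f51a_al

universe u

variable (F : Type u) [Field F] {M N P : Type} [AddCommGroup M] [Module UZ M] [AddCommGroup N]
  [Module UZ N] [AddCommGroup P] [Module UZ P]

/-- Pure tensors. -/
def tm (a : F) (m : M) : BaseExt F M := a ⊗ₜ[ℤ] m

omit [Module UZ M] in
variable {F} in
lemma be_ind {p : BaseExt F M → Prop} (h0 : p 0) (ht : ∀ a m, p (tm F a m))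
    (hadd : ∀ x y, p x → p y → p (x + y)) (x : BaseExt F M) : p x :=
  TensorProduct.induction_on (motive := p) x h0 ht hadd

lemma smul_tm (a b : F) (u : UZ) (m : M) :
    tens a u • tm F b m = tm F (a * b) (u • m) := by
  change actF F M (a ⊗ₜ[ℤ] u) (b ⊗ₜ[ℤ] m) = (a * b) ⊗ₜ[ℤ] (u • m)
  simp [actF, actZ, TensorProduct.smul_tmul']

variable {F} in
lemma uf_ind {p : UF F → Prop} (h0 : p 0) (ht : ∀ a u, p (tens a u))
    (hadd : ∀ x y, p x → p y → p (x + y)) (x : UF F) : p x :=
  TensorProduct.induction_on (motive := p) x h0 ht hadd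

lemma tens_mul (a b : F) (u v : UZ) : tens a u * tens b v = tens (a * b) (u * v) :=
  Algebra.TensorProduct.tmul_mul_tmul a b u v

lemma one_smul_tm (b : F) (u : UZ) (m : M) :
    tens (1 : F) u • tm F b m = tm F b (u • m) := by rw [smul_tm, one_mul]

omit [Module UZ M] in
lemma tm_zero (a : F) : tm F a (0 : M) = 0 := TensorProduct.tmul_zero _ _

omit [Module UZ M] in
lemma tm_add (a : F) (m m' : M) : tm F a (m + m') = tm F a m + tm F a m' :=
  TensorProduct.tmul_add _ _ _

omit [Module UZ M] in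
lemma tm_neg (a : F) (m : M) : tm F a (-m) = -tm F a m := TensorProduct.tmul_neg _ _

omit [Module UZ M] in
lemma tm_zsmul (a : F) (n : ℤ) (m : M) : tm F a (n • m) = n • tm F a m :=
  TensorProduct.tmul_smul _ _ _

/-- The underlying map of abelian groups. -/
def toZ (g : M →ₗ[UZ] N) : M →ₗ[ℤ] N := g.toAddMonoidHom.toIntLinearMap

/-- Base change on the underlying groups. -/
def bfun (g : M →ₗ[UZ] N) (x : BaseExt F M) : BaseExt F N := (toZ g).lTensor F x

lemma bfun_tm (g : M →ₗ[UZ] N) (a : F) (m : M) : bfun F g (tm F a m) = tm F a (g m) := rfl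

lemma bfun_add (g : M →ₗ[UZ] N) (x y : BaseExt F M) :
    bfun F g (x + y) = bfun F g x + bfun F g y := map_add ((toZ g).lTensor F) x y

lemma bfun_zero (g : M →ₗ[UZ] N) : bfun F g 0 = 0 := map_zero ((toZ g).lTensor F)

/-- Base change of a `U_ℤ`-linear map. -/
def bmap (g : M →ₗ[UZ] N) : BaseExt F M →ₗ[UF F] BaseExt F N where
  toFun := bfun F g
  map_add' := bfun_add F g
  map_smul' c x := by
    simp only [RingHom.id_apply]
    induction c using uf_ind with
    | h0 => rw [zero_smul, zero_smul, bfun_zero]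
    | hadd c c' h h' => rw [add_smul, add_smul, bfun_add, h, h']
    | ht a u =>
      induction x using be_ind with
      | h0 => rw [smul_zero, bfun_zero, smul_zero]
      | hadd x y h h' => rw [smul_add, bfun_add, bfun_add, h, h', smul_add]
      | ht b m => rw [smul_tm, bfun_tm, bfun_tm, smul_tm, map_smul]

lemma bmap_tm (g : M →ₗ[UZ] N) (a : F) (m : M) : bmap F g (tm F a m) = tm F a (g m) := rfl

lemma bmap_surj {g : M →ₗ[UZ] N} (hg : Function.Surjective g) :
    Function.Surjective (bmap F g) :=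
  LinearMap.lTensor_surjective F (g := toZ g) hg

lemma bmap_exact {f : M →ₗ[UZ] N} {g : N →ₗ[UZ] P} (h : Function.Exact f g)
    (hg : Function.Surjective g) : Function.Exact (bmap F f) (bmap F g) :=
  lTensor_exact F (f := toZ f) (g := toZ g) h hg

lemma bmap_inj {f : M →ₗ[UZ] N} {g : N →ₗ[UZ] P} (h : Function.Exact f g)
    (hf : Function.Injective f) (hg : Function.Surjective g) [Module.IsTorsionFree ℤ P] :
    Function.Injective (bmap F f) :=
  LinearMap.lTensor_injective_of_exact_of_flat (toZ g) hg (toZ f) hf h F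

lemma prod_tmul (w : List (Fin 2 × ℕ)) :
    (w.map fun p => tens (1 : F) (eZ p.1 p.2)).prod =
      tens (1 : F) (w.map fun p => eZ p.1 p.2).prod := by
  induction w with
  | nil => rfl
  | cons p w ih => simp [ih, tens_mul]

lemma isInt (l : ℤ)
    (hw : AddSubgroup.closure {m : M | ∃ mu : Fin 2 → ℤ, mu 0 + mu 1 = l ∧
      ∀ i k, hZ i k • m = (Ring.choose (mu i) k : ℤ) • m} = ⊤)
    (hf : ∀ (m : M) i, ∃ n : ℕ, ∀ k, n ≤ k → fZ i k • m = 0)
    (hb : ∀ m : M, ∃ n : ℕ, ∀ w : List (Fin 2 × ℕ), n ≤ (w.map Prod.snd).sum →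
      (w.map fun p => eZ p.1 p.2).prod • m = 0) :
    IsIntegrableOfLevel F l (BaseExt F M) := by
  have hb' : ∀ x : BaseExt F M, ∃ n : ℕ, ∀ w : List (Fin 2 × ℕ), n ≤ (w.map Prod.snd).sum →
      ((w.map fun p => tens (1 : F) (eZ p.1 p.2)).prod) • x = 0 := by
    intro x
    induction x using be_ind with
    | h0 => exact ⟨0, fun _ _ => smul_zero _⟩
    | ht a m =>
      obtain ⟨n, hn⟩ := hb m
      exact ⟨n, fun w hw => by rw [prod_tmul, one_smul_tm, hn w hw, tm_zero]⟩
    | hadd x y hx hy =>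
      obtain ⟨n, hn⟩ := hx
      obtain ⟨n', hn'⟩ := hy
      exact ⟨n + n', fun w hw => by rw [smul_add, hn w (by omega), hn' w (by omega), add_zero]⟩
  have hf' : ∀ (x : BaseExt F M) i, ∃ n : ℕ, ∀ k, n ≤ k →
      tens (1 : F) (fZ i k) • x = 0 := by
    intro x i
    induction x using be_ind with
    | h0 => exact ⟨0, fun _ _ => smul_zero _⟩
    | ht a m =>
      obtain ⟨n, hn⟩ := hf m i
      exact ⟨n, fun k hk => by rw [one_smul_tm, hn k hk, tm_zero]⟩
    | hadd x y hx hy =>
      obtain ⟨n, hn⟩ := hx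
      obtain ⟨n', hn'⟩ := hy
      exact ⟨n + n', fun k hk => by rw [smul_add, hn k (by omega), hn' k (by omega), add_zero]⟩
  refine ⟨?_, fun x i => ?_, hb'⟩
  · rw [eq_top_iff]
    rintro x -
    induction x using be_ind with
    | h0 => exact zero_mem _
    | hadd x y hx hy => exact add_mem hx hy
    | ht a m =>
      have hm : m ∈ (⊤ : AddSubgroup M) := trivial
      rw [← hw] at hm
      induction hm using AddSubgroup.closure_induction with
      | mem m hm =>
        obtain ⟨mu, h1, h2⟩ := hm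
        exact AddSubgroup.subset_closure
          ⟨mu, h1, fun i k => by rw [one_smul_tm, h2, tm_zsmul]⟩
      | zero => rw [tm_zero]; exact zero_mem _
      | add x y _ _ hx hy => rw [tm_add]; exact add_mem hx hy
      | neg x _ hx => rw [tm_neg]; exact neg_mem hx
  · obtain ⟨n, hn⟩ := hb' x
    obtain ⟨n', hn'⟩ := hf' x i
    refine ⟨n + n', fun k hk => ⟨?_, hn' k (by omega)⟩⟩
    simpa using hn [(i, k)] (by simp; omega)

/-- Base change of a subgroup. -/
def bsub (A : Submodule ℤ M) : AddSubgroup (BaseExt F M) := (A.baseChange F).toAddSubgroup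

omit [Module UZ M] in
lemma tm_mem_bsub {A : Submodule ℤ M} (a : F) {m : M} (hm : m ∈ A) : tm F a m ∈ bsub F A :=
  Submodule.tmul_mem_baseChange_of_mem a hm

lemma bsub_stab {A B : Submodule ℤ M} (a : F) (u : UZ) (h : ∀ m ∈ A, u • m ∈ B) :
    ∀ x ∈ bsub F A, tens a u • x ∈ bsub F B := by
  rintro _ ⟨y, rfl⟩
  induction y using TensorProduct.induction_on with
  | zero =>
    have : (show BaseExt F M from A.subtype.baseChange F 0) = (0 : BaseExt F M) := map_zero _
    change tens a u • (show BaseExt F M from A.subtype.baseChange F 0) ∈ _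
    rw [this, smul_zero]; exact zero_mem _
  | add y y' hy hy' =>
    have : (A.subtype.baseChange F (y + y') : BaseExt F M) =
      (show BaseExt F M from A.subtype.baseChange F y) +
        (show BaseExt F M from A.subtype.baseChange F y') := map_add _ _ _
    rw [this, smul_add]; exact add_mem hy hy'
  | tmul b m =>
    change tens a u • tm F b (m : M) ∈ _
    rw [smul_tm]; exact tm_mem_bsub F _ (h _ m.2)

lemma isGrading (A : ℤ → Submodule ℤ M) (h0 : DirectSum.IsInternal A)
    (h1 : ∀ n i (k : ℕ), ∀ x ∈ A n, eZ i k • x ∈ A (n + if i = 0 then (k : ℤ) else 0))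
    (h2 : ∀ n i (k : ℕ), ∀ x ∈ A n, fZ i k • x ∈ A (n - if i = 0 then (k : ℤ) else 0))
    (h3 : ∀ n i k, ∀ x ∈ A n, hZ i k • x ∈ A n) :
    IsDegreeGrading F (fun n => bsub F (A n)) where
  internal := h0.baseChange (S := F)
  scalar n a := bsub_stab F a 1 fun m hm => by rwa [one_smul]
  raise n i k := bsub_stab F 1 _ (h1 n i k)
  lower n i k := bsub_stab F 1 _ (h2 n i k)
  torus n i k := bsub_stab F 1 _ (h3 n i k)

lemma closure_top {M : Type} [AddCommGroup M] [Module ℂ M] [Module U M] [IsScalarTower ℂ U M]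
    (s : Set M) (Q : M → Prop) (hs : ∀ x ∈ s, Q x)
    (he : ∀ i k x, Q x → Q (dpow (e i) k • x)) (hf : ∀ i k x, Q x → Q (dpow (f i) k • x))
    (hh : ∀ i k x, Q x → Q (binom (h i) k • x)) :
    AddSubgroup.closure {x : Submodule.span UZ s | Q x} = ⊤ := by
  let W : AddSubgroup M := AddSubgroup.closure {x | x ∈ Submodule.span UZ s ∧ Q x}
  have st : ∀ u : UZ, (∀ x, Q x → Q (u.1 • x)) → Stab W (act M u.1) := by
    intro u hu
    have : W ≤ W.comap (act M u.1).toAddMonoidHom := by
      rw [AddSubgroup.closure_le]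
      rintro x ⟨h1, h2⟩
      exact AddSubgroup.subset_closure ⟨Submodule.smul_mem _ u h1, hu x h2⟩
    exact fun x hx => this hx
  have hW : ∀ x ∈ Submodule.span UZ s, x ∈ W := by
    intro x hx
    induction hx using Submodule.span_induction with
    | mem x hx => exact AddSubgroup.subset_closure ⟨Submodule.subset_span hx, hs x hx⟩
    | zero => exact zero_mem _
    | add x y _ _ hx hy => exact add_mem hx hy
    | smul u x _ hx =>
      refine UZ_stab (act M) (fun i k => ?_) (fun i k => ?_) (fun i k => ?_) u.2 x hx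
      · rw [← map_dpow]; exact st (eZ i k) (he i k)
      · rw [← map_dpow]; exact st (fZ i k) (hf i k)
      · rw [← map_binom]; exact st (hZ i k) (hh i k)
  have : W ≤ (AddSubgroup.closure {x : Submodule.span UZ s | Q x}).map
      (Submodule.span UZ s).subtype.toAddMonoidHom := by
    rw [AddSubgroup.closure_le]
    rintro x ⟨h1, h2⟩
    exact ⟨⟨x, h1⟩, AddSubgroup.subset_closure h2, rfl⟩
  rw [eq_top_iff]
  rintro x -
  obtain ⟨y, hy, h⟩ := this (hW x x.2)
  rwa [← Subtype.ext h]

lemma exists_int_hom {A : Type*} [AddCommGroup A] (g : A →+ ℂ) (h : ∀ a, ∃ n : ℤ, g a = n) :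
    ∃ ψ : A →ₗ[ℤ] ℤ, ∀ a, (ψ a : ℂ) = g a := by
  choose ψ hψ using h
  refine ⟨(AddMonoidHom.mk' ψ fun a b => ?_).toIntLinearMap, fun a => (hψ a).symm⟩
  have : ((ψ (a + b) : ℤ) : ℂ) = ((ψ a + ψ b : ℤ) : ℂ) := by
    rw [← hψ, map_add, hψ, hψ]; simp
  exact_mod_cast this

/-- Extension of an integral functional. -/
def bfl (ψ : M →ₗ[ℤ] ℤ) : BaseExt F M →+ F :=
  ((TensorProduct.rid ℤ F).toLinearMap ∘ₗ ψ.lTensor F).toAddMonoidHom

omit [Module UZ M] in
lemma bfl_tm (ψ : M →ₗ[ℤ] ℤ) (a : F) (m : M) : bfl F ψ (tm F a m) = (ψ m : F) * a := by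
  change TensorProduct.rid ℤ F (a ⊗ₜ ψ m) = _
  rw [TensorProduct.rid_tmul, zsmul_eq_mul]

end Pool.Agent.Lib.MP_b2f51a_al
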