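import Pool.Agent.Lib.MP_b2f51a_al.Exp

/-! Abstract integrable representations of the loop algebra, given by the currents. -/

noncomputable section

namespace Pool.Agent.Lib.MP_b2f51a_al

/-- Commutator. -/
def cm {A : Type*} [Ring A] (x y : A) : A := x * y - y * x

section cm

variable {A : Type*} [Ring A]

lemma cm_cm_left (a b c : A) : cm (cm a b) c = cm a (cm b c) - cm b (cm a c) := by
  unfold cm; noncomm_ring

lemma cm_mul_right (a b c : A) : cm a (b * c) = cm a b * c + b * cm a c := by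
  unfold cm; noncomm_ring

lemma cm_mul_left (a b c : A) : cm (a * b) c = a * cm b c + cm a c * b := by
  unfold cm; noncomm_ring

@[simp] lemma cm_zero_right (a : A) : cm a 0 = 0 := by simp [cm]
@[simp] lemma cm_zero_left (a : A) : cm 0 a = 0 := by simp [cm]
@[simp] lemma cm_self (a : A) : cm a a = 0 := by simp [cm]
@[simp] lemma cm_neg_right (a b : A) : cm a (-b) = -cm a b := by unfold cm; noncomm_ring
@[simp] lemma cm_neg_left (a b : A) : cm (-a) b = -cm a b := by unfold cm; noncomm_ring
lemma cm_add_left (a b c : A) : cm (a + b) c = cm a c + cm b c := by unfold cm; noncomm_ring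
lemma cm_sub_left (a b c : A) : cm (a - b) c = cm a c - cm b c := by unfold cm; noncomm_ring
lemma cm_add_right (a b c : A) : cm a (b + c) = cm a b + cm a c := by unfold cm; noncomm_ring
lemma cm_sub_right (a b c : A) : cm a (b - c) = cm a b - cm a c := by unfold cm; noncomm_ring
lemma cm_skew (a b : A) : cm a b = -cm b a := by unfold cm; noncomm_ring

variable [Algebra ℂ A]

lemma cm_smul_left (c : ℂ) (a b : A) : cm (c • a) b = c • cm a b := by
  unfold cm; rw [smul_mul_assoc, mul_smul_comm, smul_sub]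

lemma cm_smul_right (c : ℂ) (a b : A) : cm a (c • b) = c • cm a b := by
  unfold cm; rw [smul_mul_assoc, mul_smul_comm, smul_sub]

lemma map_cm {B : Type*} [Ring B] [Algebra ℂ B] (φ : A →ₐ[ℂ] B) (a b : A) :
    φ (cm a b) = cm (φ a) (φ b) := by simp [cm]

end cm

/-- Currents `J true n = e ⊗ t^n`, `J false n = f ⊗ t^n` acting locally nilpotently. -/
structure LoopRep (M : Type*) [AddCommGroup M] [Module ℂ M] where
  J : Bool → ℤ → Module.End ℂ M
  comm : ∀ s a b, cm (J s a) (J s b) = 0
  cubic : ∀ s a b c, cm (J s a) (cm (J s b) (J (!s) c)) = (-2 : ℂ) • J s (a + b + c)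
  shift : ∀ s a b a' b', a + b = a' + b' → a + b ≠ 0 →
    cm (J s a) (J (!s) b) = cm (J s a') (J (!s) b')
  nil : ∀ s n, LocNil (J s n)

namespace LoopRep

variable {M : Type*} [AddCommGroup M] [Module ℂ M] (T : LoopRep M)

/-- Chevalley generator `e_i`. -/
def eg : Fin 2 → Module.End ℂ M := ![T.J false 1, T.J true 0]

/-- Chevalley generator `f_i`. -/
def fg : Fin 2 → Module.End ℂ M := ![T.J true (-1), T.J false 0]

/-- Coroot `h_i`. -/
def hg (i : Fin 2) : Module.End ℂ M := cm (T.eg i) (T.fg i)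

lemma cubic_t (a b c : ℤ) :
    cm (T.J true a) (cm (T.J true b) (T.J false c)) = (-2 : ℂ) • T.J true (a + b + c) :=
  T.cubic true a b c

lemma cubic_f (a b c : ℤ) :
    cm (T.J false a) (cm (T.J false b) (T.J true c)) = (-2 : ℂ) • T.J false (a + b + c) :=
  T.cubic false a b c

lemma cubic_t' (a b c : ℤ) :
    cm (T.J true a) (cm (T.J false b) (T.J true c)) = (2 : ℂ) • T.J true (a + b + c) := by
  rw [cm_skew (T.J false b), cm_neg_right, cubic_t, add_right_comm]; module

lemma cubic_f' (a b c : ℤ) :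
    cm (T.J false a) (cm (T.J true b) (T.J false c)) = (2 : ℂ) • T.J false (a + b + c) := by
  rw [cm_skew (T.J true b), cm_neg_right, cubic_f, add_right_comm]; module

lemma nil_e (i : Fin 2) : LocNil (T.eg i) := by
  fin_cases i <;> exact T.nil _ _

lemma nil_f (i : Fin 2) : LocNil (T.fg i) := by
  fin_cases i <;> exact T.nil _ _

lemma he (i j : Fin 2) : cm (T.hg i) (T.eg j) = ((cartan i j : ℤ) : ℂ) • T.eg j := by
  rw [cm_skew]
  fin_cases i <;> fin_cases j <;>
    simp [hg, eg, fg, cartan, cubic_t, cubic_f, cubic_t', cubic_f']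

lemma hf (i j : Fin 2) : cm (T.hg i) (T.fg j) = -(((cartan i j : ℤ) : ℂ) • T.fg j) := by
  rw [cm_skew]
  fin_cases i <;> fin_cases j <;>
    simp [hg, eg, fg, cartan, cubic_t, cubic_f, cubic_t', cubic_f']

lemma ef {i j : Fin 2} (h : i ≠ j) : cm (T.eg i) (T.fg j) = 0 := by
  fin_cases i <;> fin_cases j <;> simp_all [eg, fg, T.comm]

lemma hh (i j : Fin 2) : cm (T.hg i) (T.hg j) = 0 := by
  have : cm (T.hg i) (cm (T.eg j) (T.fg j)) =
      cm (cm (T.hg i) (T.eg j)) (T.fg j) + cm (T.eg j) (cm (T.hg i) (T.fg j)) := by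
    unfold cm; noncomm_ring
  change cm (T.hg i) (cm (T.eg j) (T.fg j)) = 0
  rw [this, he, hf, cm_smul_left, cm_neg_right, cm_smul_right, add_neg_cancel]

lemma serre_e {i j : Fin 2} (h : i ≠ j) :
    cm (T.eg i) (cm (T.eg i) (cm (T.eg i) (T.eg j))) = 0 := by
  fin_cases i <;> fin_cases j <;>
    simp_all [eg, cubic_t, cubic_f, cm_smul_right, T.comm]

lemma serre_f {i j : Fin 2} (h : i ≠ j) :
    cm (T.fg i) (cm (T.fg i) (cm (T.fg i) (T.fg j))) = 0 := by
  fin_cases i <;> fin_cases j <;>
    simp_all [fg, cubic_t, cubic_f, cm_smul_right, T.comm]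

/-- The reflection operators. -/
def n (i : Fin 2) : Module.End ℂ M := refl (T.eg i) (T.fg i)

/-- The inverse reflection operators. -/
def n' (i : Fin 2) : Module.End ℂ M := refl' (T.eg i) (T.fg i)

lemma n_mul_n' (i : Fin 2) : T.n i * T.n' i = 1 := refl_mul_refl' (T.nil_e i) (T.nil_f i)

lemma n'_mul_n (i : Fin 2) : T.n' i * T.n i = 1 := refl'_mul_refl (T.nil_e i) (T.nil_f i)

lemma n_one (k : ℤ) : T.n 1 * T.J false k = (-T.J true k) * T.n 1 ∧
    T.n 1 * T.J true k = (-T.J false k) * T.n 1 := by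
  refine refl_triple (Y := cm (T.J true 0) (T.J false k)) (T.nil_e 1) (T.nil_f 1) rfl ?_ ?_ ?_ ?_ ?_
  · have := T.cubic_t 0 0 k
    rwa [show (0 : ℤ) + 0 + k = k by ring] at this
  · exact T.comm true 0 k
  · exact T.comm false 0 k
  · have := T.cubic_f' 0 0 k
    rwa [show (0 : ℤ) + 0 + k = k by ring] at this
  · change cm (T.J false 0) (T.J true k) = _
    rw [cm_skew]
    by_cases hk : k = 0
    · subst hk; rfl
    · exact congrArg Neg.neg (T.shift true k 0 0 k (by ring) (by simpa using hk))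

lemma n_zero (k : ℤ) : T.n 0 * T.J true k = (-T.J false (k + 2)) * T.n 0 ∧
    T.n 0 * T.J false (k + 2) = (-T.J true k) * T.n 0 := by
  refine refl_triple (Y := cm (T.J false 1) (T.J true k)) (T.nil_e 0) (T.nil_f 0) rfl ?_ ?_ ?_ ?_ ?_
  · have := T.cubic_f 1 1 k
    rwa [show (1 : ℤ) + 1 + k = k + 2 by ring] at this
  · exact T.comm false 1 _
  · exact T.comm true (-1) k
  · have := T.cubic_t' (-1) 1 k
    rwa [show (-1 : ℤ) + 1 + k = k by ring] at this
  · change cm (T.J true (-1)) (T.J false (k + 2)) = _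
    rw [cm_skew (T.J false 1), neg_neg]
    by_cases hk : k = -1
    · subst hk; rfl
    · exact T.shift true (-1) (k + 2) k 1 (by ring) (by omega)

/-- A subgroup stable under the divided powers of the Chevalley generators. -/
def Good (R : AddSubgroup M) : Prop := ∀ i, DStab R (T.eg i) ∧ DStab R (T.fg i)

variable {T}

lemma Good.n {R : AddSubgroup M} (h : T.Good R) (i : Fin 2) : Stab R (T.n i) :=
  stab_refl (T.nil_e i) (T.nil_f i) (h i).1 (h i).2

lemma Good.n' {R : AddSubgroup M} (h : T.Good R) (i : Fin 2) : Stab R (T.n' i) :=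
  stab_refl' (T.nil_e i) (T.nil_f i) (h i).1 (h i).2

lemma Good.J {R : AddSubgroup M} (h : T.Good R) (k : ℤ) : DStab R (T.J true k) := by
  have s1 : ∀ k, DStab R (T.J true k) → DStab R (T.J true (k + 2)) := by
    intro k hk
    have a := hk.conj (T.n_zero k).1 (T.n_mul_n' 0) (h.n 0) (h.n' 0)
    have b := a.neg
    rw [neg_neg] at b
    have c := (b.conj (T.n_one (k + 2)).1 (T.n_mul_n' 1) (h.n 1) (h.n' 1)).neg
    rwa [neg_neg] at c
  have s2 : ∀ k, DStab R (T.J true (k + 2)) → DStab R (T.J true k) := by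
    intro k hk
    have a := (hk.conj (T.n_one (k + 2)).2 (T.n_mul_n' 1) (h.n 1) (h.n' 1)).neg
    rw [neg_neg] at a
    have c := (a.conj (T.n_zero k).2 (T.n_mul_n' 0) (h.n 0) (h.n' 0)).neg
    rwa [neg_neg] at c
  have key : ∀ k : ℤ, DStab R (T.J true k) ∧ DStab R (T.J true (k - 1)) := by
    intro k
    induction k using Int.induction_on with
    | zero => exact ⟨(h 1).1, (h 0).2⟩
    | succ k ih =>
      refine ⟨?_, by simpa using ih.1⟩
      have := s1 _ ih.2
      rwa [show (k : ℤ) - 1 + 2 = k + 1 by ring] at this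
    | pred k ih =>
      refine ⟨ih.2, s2 _ ?_⟩
      rw [show -(k : ℤ) - 1 - 1 + 2 = -k by ring]; exact ih.1
  exact (key k).1

end LoopRep

/-- The product of two loop representations. -/
def LoopRep.prod {M N : Type*} [AddCommGroup M] [Module ℂ M] [AddCommGroup N] [Module ℂ N]
    (S : LoopRep M) (T : LoopRep N) : LoopRep (M × N) where
  J s n := (S.J s n).prodMap (T.J s n)
  comm s a b := by
    have h1 := S.comm s a b
    have h2 := T.comm s a b
    ext x <;> simp [cm] <;>
      first
        | exact LinearMap.congr_fun h1 x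
        | exact LinearMap.congr_fun h2 x
  cubic s a b c := by
    have h1 := S.cubic s a b c
    have h2 := T.cubic s a b c
    refine LinearMap.ext fun x => Prod.ext ?_ ?_
    · exact LinearMap.congr_fun h1 x.1
    · exact LinearMap.congr_fun h2 x.2
  shift s a b a' b' h h' := by
    have h1 := S.shift s a b a' b' h h'
    have h2 := T.shift s a b a' b' h h'
    refine LinearMap.ext fun x => Prod.ext ?_ ?_
    · exact LinearMap.congr_fun h1 x.1
    · exact LinearMap.congr_fun h2 x.2
  nil s n := by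
    intro x
    obtain ⟨N1, h1⟩ := S.nil s n x.1
    obtain ⟨N2, h2⟩ := T.nil s n x.2
    refine ⟨N1 + N2, ?_⟩
    have : ∀ k : ℕ, ∀ x : M × N, (((S.J s n).prodMap (T.J s n)) ^ k) x =
        ((S.J s n ^ k) x.1, (T.J s n ^ k) x.2) := by
      intro k
      induction k with
      | zero => intro x; rfl
      | succ k ih => intro x; simp [pow_succ, ih]
    rw [this, pow_apply_eq_zero_of_le h1 (by omega), pow_apply_eq_zero_of_le h2 (by omega)]
    rfl

end Pool.Agent.Lib.MP_b2f51a_al
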