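import Mathlib

/-!
Definitions for the modular representation theory of affine `sl_2`:
the Kac-Moody algebra (Chevalley-Serre presentation), its enveloping algebra, the Kostant
`ℤ`-form, the irreducible highest weight modules, Weyl modules and integrable weight modules.
-/

open scoped TensorProduct

noncomputable section

namespace Pool.Agent.Lib.MP_b2f51a_al

universe u

/-- The generalized Cartan matrix of type `A_1^{(1)}`. -/
def cartan : Matrix (Fin 2) (Fin 2) ℤ := !![2, -2; -2, 2]

/-- The universal enveloping algebra of affine `sl_2` over `ℂ` (generators `e_i, f_i, h_i`,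
`i = 0, 1`, and the Chevalley-Serre relations of the matrix `cartan`). -/
def U : Type := UniversalEnvelopingAlgebra ℂ (Matrix.ToLieAlgebra ℂ cartan)

instance ringU : Ring U := instRingUniversalEnvelopingAlgebra ℂ (Matrix.ToLieAlgebra ℂ cartan)

instance algebraU : Algebra ℂ U :=
  instAlgebraUniversalEnvelopingAlgebra ℂ (Matrix.ToLieAlgebra ℂ cartan)

/-- The image in `U` of a Chevalley generator. -/
def gen (x : CartanMatrix.Generators (Fin 2)) : U :=
  UniversalEnvelopingAlgebra.ι ℂ (L := Matrix.ToLieAlgebra ℂ cartan)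
    (LieSubmodule.Quotient.mk (N := CartanMatrix.Relations.toIdeal ℂ cartan)
      (FreeLieAlgebra.of ℂ x))

/-- The Chevalley generator `e_i`. -/
def e (i : Fin 2) : U := gen (.E i)

/-- The Chevalley generator `f_i`. -/
def f (i : Fin 2) : U := gen (.F i)

/-- The simple coroot `h_i`. -/
def h (i : Fin 2) : U := gen (.H i)

/-- The divided power `x^k / k!`. -/
def dpow {A : Type*} [Ring A] [Algebra ℂ A] (x : A) (k : ℕ) : A :=
  ((k.factorial : ℂ)⁻¹) • x ^ k

/-- The binomial element `x (x - 1) ⋯ (x - k + 1) / k!`. -/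
def binom {A : Type*} [Ring A] [Algebra ℂ A] (x : A) (k : ℕ) : A :=
  ((k.factorial : ℂ)⁻¹) • Polynomial.aeval x (descPochhammer ℂ k)

/-- The Kostant `ℤ`-form: the subring generated by the divided powers of the `e_i`, `f_i` and the
binomial elements of the `h_i`. -/
def kostantForm : Subring U :=
  Subring.closure {u | ∃ i k, u = dpow (e i) k ∨ u = dpow (f i) k ∨ u = binom (h i) k}

/-- The Kostant form as a ring. -/
def UZ : Type := kostantForm

instance ringUZ : Ring UZ := Subring.toRing kostantForm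

/-- A `U`-module is a `U_ℤ`-module by restriction. -/
instance moduleUZ (M : Type) [AddCommGroup M] [Module U M] : Module UZ M :=
  Module.compHom M kostantForm.subtype

/-- `e_i^{(k)}` as an element of the Kostant form. -/
def eZ (i : Fin 2) (k : ℕ) : UZ := ⟨dpow (e i) k, Subring.subset_closure ⟨i, k, Or.inl rfl⟩⟩

/-- `f_i^{(k)}` as an element of the Kostant form. -/
def fZ (i : Fin 2) (k : ℕ) : UZ :=
  ⟨dpow (f i) k, Subring.subset_closure ⟨i, k, Or.inr (Or.inl rfl)⟩⟩

/-- `binom(h_i, k)` as an element of the Kostant form. -/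
def hZ (i : Fin 2) (k : ℕ) : UZ :=
  ⟨binom (h i) k, Subring.subset_closure ⟨i, k, Or.inr (Or.inr rfl)⟩⟩

/-- The weight `(l - n) ω_0 + n ω_1`, recorded by its values on `h_0`, `h_1`. -/
def wt (l n : ℕ) : Fin 2 → ℤ := ![(l : ℤ) - n, n]

/-- The left ideal of `U` generated by the `e_i` and the `h_i - lam_i`. -/
def vermaIdeal (lam : Fin 2 → ℤ) : Submodule U U :=
  Submodule.span U {u | ∃ i, u = e i ∨ u = h i - (lam i : U)}

/-- The Verma module of highest weight `lam`. -/
def Verma (lam : Fin 2 → ℤ) : Type := U ⧸ vermaIdeal lam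

instance addCommGroupVerma (lam : Fin 2 → ℤ) : AddCommGroup (Verma lam) :=
  (inferInstance : AddCommGroup (U ⧸ vermaIdeal lam))

instance moduleVerma (lam : Fin 2 → ℤ) : Module U (Verma lam) :=
  (inferInstance : Module U (U ⧸ vermaIdeal lam))

/-- The class of `1` in the quotient of a ring by a left ideal. -/
def oneMod {A : Type} [Ring A] (I : Submodule A A) : A ⧸ I := Submodule.Quotient.mk 1

/-- The part `n^- M = f_0 M + f_1 M` of a module. -/
def lowerPart (M : Type) [AddCommGroup M] [Module U M] : AddSubgroup M :=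
  AddSubgroup.closure {x | ∃ (i : Fin 2) (m : M), x = f i • m}

/-- The largest submodule of `M` contained in `n^- M`. -/
def maxSub (M : Type) [AddCommGroup M] [Module U M] : Submodule U M :=
  sSup {N | ∀ x ∈ N, x ∈ lowerPart M}

/-- The irreducible highest weight module `L_ℂ(lam)`. -/
def L (lam : Fin 2 → ℤ) : Type := Verma lam ⧸ maxSub (Verma lam)

instance addCommGroupL (lam : Fin 2 → ℤ) : AddCommGroup (L lam) :=
  Submodule.Quotient.addCommGroup (maxSub (Verma lam))

instance moduleL (lam : Fin 2 → ℤ) : Module U (L lam) :=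
  Submodule.Quotient.module (maxSub (Verma lam))

/-- The highest weight vector `v_lam` of `L_ℂ(lam)`. -/
def hwv (lam : Fin 2 → ℤ) : L lam :=
  Submodule.Quotient.mk (p := maxSub (Verma lam)) (oneMod (vermaIdeal lam))

/-- The lattice `U_ℤ v_lam`. -/
def VZ (lam : Fin 2 → ℤ) : Submodule UZ (L lam) := Submodule.span UZ {hwv lam}

/-- The hyperalgebra `U_F = F ⊗_ℤ U_ℤ`. -/
def UF (F : Type u) [Field F] : Type u := F ⊗[ℤ] UZ

instance ringUF (F : Type u) [Field F] : Ring (UF F) :=
  Algebra.TensorProduct.instRing (R := ℤ) (A := F) (B := UZ)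

/-- The element `a ⊗ u` of the hyperalgebra. -/
def tens {F : Type u} [Field F] (a : F) (u : UZ) : UF F := a ⊗ₜ[ℤ] u

/-- Extension of scalars `F ⊗_ℤ M` of an abelian group `M`. -/
def BaseExt (F : Type u) [Field F] (M : Type) [AddCommGroup M] : Type u := F ⊗[ℤ] M

section

variable (F : Type u) [Field F] (M : Type) [AddCommGroup M]

instance addCommGroupBaseExt : AddCommGroup (BaseExt F M) :=
  TensorProduct.addCommGroup (R := ℤ) (M := F) (N := M)

variable [Module UZ M]

/-- The action of `U_ℤ` on `F ⊗_ℤ M` through the second factor. -/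
def actZ : UZ →+* Module.End F (F ⊗[ℤ] M) where
  toFun u := LinearMap.baseChange F (DistribSMul.toLinearMap ℤ M u)
  map_one' := by ext; simp
  map_mul' u v := by ext; simp [mul_smul]
  map_zero' := by ext; simp
  map_add' u v := by ext; simp [add_smul, TensorProduct.tmul_add]

/-- The action of `U_F` on `F ⊗_ℤ M`: `(a ⊗ u) (b ⊗ m) = a b ⊗ u m`. -/
def actF : F ⊗[ℤ] UZ →ₐ[F] Module.End F (F ⊗[ℤ] M) :=
  Algebra.TensorProduct.lift (Algebra.ofId F _) (actZ F M).toIntAlgHom
    (fun a _ => Algebra.commutes a _)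

instance moduleBaseExt : Module (UF F) (BaseExt F M) :=
  Module.compHom (F ⊗[ℤ] M) (actF F M).toRingHom

end

/-- The Weyl module `V(lam) = F ⊗_ℤ U_ℤ v_lam`, a `U_F`-module. -/
def Weyl (F : Type u) [Field F] (lam : Fin 2 → ℤ) : Type u := BaseExt F (VZ lam)

instance addCommGroupWeyl (F : Type u) [Field F] (lam : Fin 2 → ℤ) : AddCommGroup (Weyl F lam) :=
  addCommGroupBaseExt F (VZ lam)

instance moduleWeyl (F : Type u) [Field F] (lam : Fin 2 → ℤ) : Module (UF F) (Weyl F lam) :=
  moduleBaseExt F (VZ lam)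

/-- The image `1 ⊗ v_lam` of the highest weight vector in the Weyl module. -/
def weylGen (F : Type u) [Field F] (lam : Fin 2 → ℤ) : Weyl F lam :=
  (1 : F) ⊗ₜ[ℤ] (⟨hwv lam, Submodule.mem_span_singleton_self _⟩ : VZ lam)

/-- `x` is a weight vector of weight `mu`: every `binom(h_i, k)` acts on it by the integer
`binom(mu_i, k)`. -/
def IsWeightVector (F : Type u) [Field F] {E : Type u} [AddCommGroup E] [Module (UF F) E]
    (mu : Fin 2 → ℤ) (x : E) : Prop :=
  ∀ i k, tens (1 : F) (hZ i k) • x = (Ring.choose (mu i) k : ℤ) • x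

/-- `E` is an integrable weight module of level `l` over `U_F`: it is the sum of its weight spaces
of weights `mu` with `mu_0 + mu_1 = l`, every vector is killed by `e_i^{(k)}` and `f_i^{(k)}` for
all large `k`, and by all products of the `e_i^{(k)}` of large total degree. -/
structure IsIntegrableOfLevel (F : Type u) [Field F] (l : ℤ) (E : Type u) [AddCommGroup E]
    [Module (UF F) E] : Prop where
  weight : AddSubgroup.closure
    {x : E | ∃ mu : Fin 2 → ℤ, mu 0 + mu 1 = l ∧ IsWeightVector F mu x} = ⊤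
  integrable : ∀ (x : E) (i : Fin 2), ∃ N : ℕ, ∀ k, N ≤ k →
    tens (1 : F) (eZ i k) • x = 0 ∧ tens (1 : F) (fZ i k) • x = 0
  bounded : ∀ x : E, ∃ N : ℕ, ∀ w : List (Fin 2 × ℕ), N ≤ (w.map Prod.snd).sum →
    (w.map fun p => tens (1 : F) (eZ p.1 p.2)).prod • x = 0

/-- `g` is a grading of `E` by the eigenvalue of the derivation `d`: `E` is the direct sum of the
`F`-subspaces `g n`, `e_0^{(k)}` raises the degree by `k`, `f_0^{(k)}` lowers it by `k`, and
`e_1^{(k)}`, `f_1^{(k)}`, `binom(h_i, k)` preserve it. -/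
structure IsDegreeGrading (F : Type u) [Field F] {E : Type u} [AddCommGroup E]
    [Module (UF F) E] (g : ℤ → AddSubgroup E) : Prop where
  internal : DirectSum.IsInternal g
  scalar : ∀ n (a : F), ∀ x ∈ g n, tens a 1 • x ∈ g n
  raise : ∀ n i (k : ℕ), ∀ x ∈ g n,
    tens (1 : F) (eZ i k) • x ∈ g (n + if i = 0 then (k : ℤ) else 0)
  lower : ∀ n i (k : ℕ), ∀ x ∈ g n,
    tens (1 : F) (fZ i k) • x ∈ g (n - if i = 0 then (k : ℤ) else 0)
  torus : ∀ n i k, ∀ x ∈ g n, tens (1 : F) (hZ i k) • x ∈ g n

end Pool.Agent.Lib.MP_b2f51a_al
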