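import Pool.Agent.Lib.MP_b2f51a_al.Loop

/-! Divided monomials in the commuting currents and the coefficients of powers of the generating
series. -/

noncomputable section

namespace Pool.Agent.Lib.MP_b2f51a_al

open Finset MvPolynomial

/-- Product of the factorials of the exponents. -/
def fact (a : ℕ →₀ ℕ) : ℕ := a.prod fun _ k => k.factorial

lemma fact_eq {a : ℕ →₀ ℕ} {s : Finset ℕ} (h : a.support ⊆ s) :
    fact a = ∏ j ∈ s, (a j).factorial :=
  Finsupp.prod_of_support_subset _ h _ (by simp)

lemma fact_ne_zero (a : ℕ →₀ ℕ) : fact a ≠ 0 := by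
  rw [fact_eq (subset_refl _)]
  exact prod_ne_zero_iff.2 fun j _ => Nat.factorial_ne_zero _

lemma fact_ne_zero' (a : ℕ →₀ ℕ) : (fact a : ℂ) ≠ 0 := by exact_mod_cast fact_ne_zero a

/-- Divided monomial. -/
def dm (a : ℕ →₀ ℕ) : MvPolynomial ℕ ℂ := monomial a ((fact a : ℂ)⁻¹)

lemma dm_zero : dm 0 = 1 := by simp [dm, fact]

lemma dm_single (j k : ℕ) : dm (Finsupp.single j k) = dpow (X j : MvPolynomial ℕ ℂ) k := by
  simp [dm, fact, dpow, X_pow_eq_monomial, smul_monomial]

lemma dm_mul (a b : ℕ →₀ ℕ) : ∃ c : ℕ, dm a * dm b = (c : ℂ) • dm (a + b) := by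
  have : fact a * fact b ∣ fact (a + b) := by
    rw [fact_eq (s := a.support ∪ b.support) subset_union_left,
      fact_eq (s := a.support ∪ b.support) subset_union_right,
      fact_eq (s := a.support ∪ b.support) Finsupp.support_add, ← prod_mul_distrib]
    exact prod_dvd_prod_of_dvd _ _ fun j _ => Nat.factorial_mul_factorial_dvd_factorial_add _ _
  obtain ⟨c, hc⟩ := this
  refine ⟨c, ?_⟩
  simp only [dm, monomial_mul, smul_monomial, hc, smul_eq_mul]
  congr 1
  have h1 := fact_ne_zero' a
  have h2 := fact_ne_zero' b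
  have h3 : (c : ℂ) ≠ 0 := by
    have := fact_ne_zero (a + b)
    rw [hc] at this
    exact_mod_cast right_ne_zero_of_mul this
  push_cast
  field_simp

lemma dm_mul_of_disjoint {a b : ℕ →₀ ℕ} (h : ∀ j, a j = 0 ∨ b j = 0) :
    dm a * dm b = dm (a + b) := by
  have : fact (a + b) = fact a * fact b := by
    rw [fact_eq (s := a.support ∪ b.support) subset_union_left,
      fact_eq (s := a.support ∪ b.support) subset_union_right,
      fact_eq (s := a.support ∪ b.support) Finsupp.support_add, ← prod_mul_distrib]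
    refine prod_congr rfl fun j _ => ?_
    rcases h j with h | h <;> simp [h]
  simp only [dm, monomial_mul, this]
  push_cast
  rw [mul_inv]

/-- Number of factors. -/
def cnt (a : ℕ →₀ ℕ) : ℕ := Finsupp.weight (fun _ => 1) a

/-- Total index. -/
def tot (a : ℕ →₀ ℕ) : ℕ := Finsupp.weight (fun j => j) a

/-- Sum of squares of the indices. -/
def sqs (a : ℕ →₀ ℕ) : ℕ := Finsupp.weight (fun j => j ^ 2) a

lemma weight_eq {N : Type*} [AddCommMonoid N] (g : ℕ → N) {a : ℕ →₀ ℕ} {s : Finset ℕ}
    (h : a.support ⊆ s) : Finsupp.weight g a = ∑ j ∈ s, a j • g j := by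
  rw [Finsupp.weight_apply]
  exact Finsupp.sum_of_support_subset _ h _ (by simp)

lemma le_tot {a : ℕ →₀ ℕ} {j : ℕ} (h : j ∈ a.support) : j ≤ tot a := by
  unfold tot
  rw [weight_eq _ (subset_refl _)]
  refine le_trans ?_ (single_le_sum (f := fun j => a j • j) (fun _ _ => Nat.zero_le _) h)
  have : 1 ≤ a j := by simpa [Nat.one_le_iff_ne_zero] using h
  simpa using Nat.le_mul_of_pos_left j this

lemma sqs_le (a : ℕ →₀ ℕ) : sqs a ≤ tot a ^ 2 := by
  have h1 : sqs a ≤ ∑ j ∈ a.support, a j • j * tot a := by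
    unfold sqs
    rw [weight_eq _ (subset_refl _)]
    refine sum_le_sum fun j hj => ?_
    have := le_tot hj
    simp only [smul_eq_mul, sq, mul_assoc]
    gcongr
  rw [← sum_mul, ← weight_eq (fun j => j) (subset_refl _)] at h1
  rw [sq]; exact h1

/-- The generating series of the variables. -/
def PS : PowerSeries (MvPolynomial ℕ ℂ) := PowerSeries.mk fun i => X i

lemma sub_single_add {a : ℕ →₀ ℕ} {j : ℕ} (h : j ∈ a.support) :
    a - Finsupp.single j 1 + Finsupp.single j 1 = a :=
  tsub_add_cancel_of_le (by simpa [Finsupp.single_le_iff, Nat.one_le_iff_ne_zero] using h)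

lemma fact_sub_single {a : ℕ →₀ ℕ} {j : ℕ} (h : j ∈ a.support) :
    fact a = a j * fact (a - Finsupp.single j 1) := by
  rw [fact_eq (subset_refl _), fact_eq (s := a.support) Finsupp.support_tsub,
    ← mul_prod_erase _ _ h, ← mul_prod_erase _ _ h, ← mul_assoc]
  congr 1
  · have : a j ≠ 0 := by simpa using h
    simp [Nat.mul_factorial_pred this]
  · refine prod_congr rfl fun i hi => ?_
    have : i ≠ j := ne_of_mem_erase hi
    simp [Finsupp.single_eq_of_ne this]

lemma coeff_PS_pow (m : ℕ) : ∀ (i : ℕ) (a : ℕ →₀ ℕ),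
    coeff a (PowerSeries.coeff i (PS ^ m)) * fact a =
      if cnt a = m ∧ tot a = i then (m.factorial : ℂ) else 0 := by
  induction m with
  | zero =>
    intro i a
    rw [pow_zero, PowerSeries.coeff_one]
    by_cases ha : a = 0
    · subst ha
      by_cases hi : i = 0
      · simp [hi, cnt, tot, fact]
      · simp [hi, cnt, tot, Ne.symm hi]
    · have : cnt a ≠ 0 := by
        unfold cnt
        rw [weight_eq _ (subset_refl _)]
        obtain ⟨j, hj⟩ := Finsupp.support_nonempty_iff.2 ha
        intro h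
        have := (sum_eq_zero_iff.1 h) j hj
        simp at this hj; exact hj this
      rw [if_neg (fun h : cnt a = 0 ∧ tot a = i => this h.1)]
      split_ifs <;> simp [coeff_one, Ne.symm ha]
  | succ m ih =>
    intro i a
    rw [pow_succ', PowerSeries.coeff_mul, Finset.Nat.sum_antidiagonal_eq_sum_range_succ_mk,
      coeff_sum, sum_mul]
    have key : ∀ j ∈ range i.succ,
        coeff a (PowerSeries.coeff j PS * PowerSeries.coeff (i - j) (PS ^ m)) * (fact a : ℂ) =
        if cnt a = m + 1 ∧ tot a = i then (a j : ℂ) * m.factorial else 0 := by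
      intro j hj
      have hj' : j ≤ i := by simpa [Nat.lt_succ_iff] using hj
      rw [PS, PowerSeries.coeff_mk, coeff_X_mul']
      by_cases h : j ∈ a.support
      · rw [if_pos h, fact_sub_single h, Nat.cast_mul, mul_left_comm, ← PS, ih]
        have e1 : cnt a = cnt (a - Finsupp.single j 1) + 1 := by
          conv_lhs => rw [← sub_single_add h]
          simp [cnt, Finsupp.weight_single]
        have e2 : tot a = tot (a - Finsupp.single j 1) + j := by
          conv_lhs => rw [← sub_single_add h]
          simp [tot, Finsupp.weight_single]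
        by_cases hc : cnt a = m + 1 ∧ tot a = i
        · rw [if_pos hc, if_pos ⟨by omega, by omega⟩]
        · rw [if_neg hc, if_neg (fun h => hc ⟨by omega, by omega⟩), mul_zero]
      · have : a j = 0 := by simpa using h
        simp [this]
    rw [sum_congr rfl key]
    split_ifs with hc
    · rw [← sum_mul, Nat.factorial_succ]
      have : ∑ j ∈ range i.succ, a j = m + 1 := by
        rw [← hc.1, cnt, weight_eq _ (s := range i.succ)]
        · simp
        · intro j hj
          have := le_tot hj
          simp; omega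
      rw [← Nat.cast_sum, this]; push_cast; ring
    · simp

/-- The relation polynomial as a sum of divided monomials. -/
lemma PS_pow_eq (m i : ℕ) : ∃ s : Finset (ℕ →₀ ℕ), (∀ a, a ∈ s ↔ cnt a = m ∧ tot a = i) ∧
    PowerSeries.coeff i (PS ^ m) = (m.factorial : ℂ) • ∑ a ∈ s, dm a := by
  have hm : (m.factorial : ℂ) ≠ 0 := by exact_mod_cast Nat.factorial_ne_zero m
  have h1 : ∀ a, a ∈ (PowerSeries.coeff i (PS ^ m)).support ↔ cnt a = m ∧ tot a = i := by
    intro a
    have := coeff_PS_pow m i a
    rw [mem_support_iff]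
    constructor
    · intro h
      by_contra hc
      rw [if_neg hc] at this
      exact mul_ne_zero h (fact_ne_zero' a) this
    · intro h h0
      rw [if_pos h, h0, zero_mul] at this
      exact hm this.symm
  refine ⟨_, h1, ?_⟩
  conv_lhs => rw [as_sum (PowerSeries.coeff i (PS ^ m))]
  rw [smul_sum]
  refine sum_congr rfl fun a ha => ?_
  have := coeff_PS_pow m i a
  rw [if_pos ((h1 a).1 ha)] at this
  rw [dm, smul_monomial, ← this, smul_eq_mul, mul_assoc, mul_inv_cancel₀ (fact_ne_zero' a),
    mul_one]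

lemma sqs_lt {j p q : ℕ} {b : ℕ →₀ ℕ}
    (h1 : cnt b = cnt (Finsupp.single j p + Finsupp.single (j + 1) q))
    (h2 : tot b = tot (Finsupp.single j p + Finsupp.single (j + 1) q))
    (hne : b ≠ Finsupp.single j p + Finsupp.single (j + 1) q) :
    sqs (Finsupp.single j p + Finsupp.single (j + 1) q) < sqs b := by
  simp only [cnt, tot, sqs, map_add, Finsupp.weight_single, smul_eq_mul, mul_one] at h1 h2 ⊢
  rw [weight_eq _ (subset_refl _)] at h1 h2 ⊢
  simp only [smul_eq_mul, mul_one] at h1 h2 ⊢
  have key : ∑ i ∈ b.support, (b i : ℤ) * (((i : ℤ) - j) * (i - j - 1)) =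
      (∑ i ∈ b.support, b i * i ^ 2 : ℕ) - (2 * j + 1) * (∑ i ∈ b.support, b i * i : ℕ) +
        j * (j + 1) * (∑ i ∈ b.support, b i : ℕ) := by
    push_cast
    rw [mul_sum, mul_sum, ← sum_sub_distrib, ← sum_add_distrib]
    exact sum_congr rfl fun i _ => by ring
  have nn : ∀ i ∈ b.support, 0 ≤ (b i : ℤ) * (((i : ℤ) - j) * (i - j - 1)) := by
    intro i _
    apply mul_nonneg (by positivity)
    by_cases h : i ≤ j
    · exact mul_nonneg_of_nonpos_of_nonpos (by omega) (by omega)
    · exact mul_nonneg (by omega) (by omega)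
  have pos : 0 < ∑ i ∈ b.support, (b i : ℤ) * (((i : ℤ) - j) * (i - j - 1)) := by
    refine lt_of_le_of_ne (sum_nonneg nn) fun h0 => hne ?_
    have hz := (sum_eq_zero_iff_of_nonneg nn).1 h0.symm
    have hsub : b.support ⊆ {j, j + 1} := by
      intro i hi
      have h3 := hz i hi
      have h4 : (b i : ℤ) ≠ 0 := by simpa using hi
      rcases mul_eq_zero.1 ((mul_eq_zero.1 h3).resolve_left h4) with h | h
      · simp; omega
      · simp; omega
    rw [sum_subset hsub (by intro i _ hi; simpa using hi), sum_pair (by omega)] at h1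
    rw [sum_subset hsub (by intro i _ hi; simp at hi; simp [hi]), sum_pair (by omega)] at h2
    have e1 : b (j + 1) = q := by
      have : (b j : ℤ) = p + q - b (j + 1) := by omega
      have h2' : (b j : ℤ) * j + b (j + 1) * (j + 1) = p * j + q * (j + 1) := by exact_mod_cast h2
      rw [this] at h2'
      have : (b (j + 1) : ℤ) = q := by linarith
      exact_mod_cast this
    ext i
    by_cases hi : i = j
    · subst hi; simp; omega
    · by_cases hi' : i = j + 1
      · subst hi'; simp [e1]
      · have : i ∉ b.support := fun h => by have := hsub h; simp at this; omega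
        simp at this
        simp [this, Finsupp.single_eq_of_ne hi, Finsupp.single_eq_of_ne hi']
  rw [key, h1, h2] at pos
  have : ((p * j ^ 2 + q * (j + 1) ^ 2 : ℕ) : ℤ) < (∑ i ∈ b.support, b i * i ^ 2 : ℕ) := by
    push_cast at pos ⊢
    nlinarith
  exact_mod_cast this

namespace LoopRep

variable {M : Type*} [AddCommGroup M] [Module ℂ M] (T : LoopRep M)

open scoped IsMulCommutative in
/-- The action of polynomials in the currents `e ⊗ t^(t0 - j)`. -/
def cur (t0 : ℤ) : MvPolynomial ℕ ℂ →ₐ[ℂ] Module.End ℂ M :=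
  haveI := Algebra.isMulCommutative_adjoin ℂ (s := Set.range (T.J true))
    (by rintro _ ⟨a, rfl⟩ _ ⟨b, rfl⟩; exact sub_eq_zero.1 (T.comm true a b))
  (Algebra.adjoin ℂ (Set.range (T.J true))).val.comp
    (aeval fun j : ℕ => ⟨T.J true (t0 - j), Algebra.subset_adjoin ⟨_, rfl⟩⟩)

lemma cur_X (t0 : ℤ) (j : ℕ) : T.cur t0 (X j) = T.J true (t0 - j) := by
  simp [cur]

end LoopRep

lemma cur_prod {M N : Type*} [AddCommGroup M] [Module ℂ M] [AddCommGroup N] [Module ℂ N]
    (S : LoopRep M) (T : LoopRep N) (t0 : ℤ) (Q : MvPolynomial ℕ ℂ) (x : M × N) :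
    (S.prod T).cur t0 Q x = (S.cur t0 Q x.1, T.cur t0 Q x.2) := by
  induction Q using MvPolynomial.induction_on generalizing x with
  | C c => simp [algHom_C, Module.algebraMap_end_apply, Prod.ext_iff]
  | add p q hp hq => simp [hp, hq]
  | mul_X p j hp =>
    simp only [map_mul, Module.End.mul_apply, LoopRep.cur_X, hp]; rfl

end Pool.Agent.Lib.MP_b2f51a_al
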