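import Pool.Agent.Lib.MP_b2f51a_al.Kostant
import Pool.Agent.Lib.MP_b2f51a_al.Poly

/-! The Demazure filtration of the lattice generated by a vector that is singular modulo a
lattice `R`, and its reduction to the principal subspace. -/

noncomputable section

namespace Pool.Agent.Lib.MP_b2f51a_al

open Finset

lemma dpow_semiconj {A : Type*} [Ring A] [Algebra ℂ A] {g x y : A} (h : g * x = y * g) (k : ℕ) :
    g * dpow x k = dpow y k * g := by
  have : g * x ^ k = y ^ k * g := by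
    induction k with
    | zero => simp
    | succ k ih => rw [pow_succ, ← mul_assoc, ih, mul_assoc, h, pow_succ, mul_assoc]
  simp only [dpow, mul_smul_comm, smul_mul_assoc, this]

namespace LoopRep

variable {M : Type*} [AddCommGroup M] [Module ℂ M] (T : LoopRep M)

/-- Weight vector. -/
def WtV (mu : Fin 2 → ℤ) (x : M) : Prop := ∀ i, T.hg i x = (mu i : ℂ) • x

/-- Alternating index. -/
def alt (k : ℕ) : Fin 2 := if k % 2 = 0 then 0 else 1

/-- Alternating words in the divided powers of the `f_i` applied to `y`. -/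
def S (y : M) : ℕ → Set M
  | 0 => {y}
  | k + 1 => {x | ∃ j, ∃ x' ∈ S y k, x = dpow (T.fg (alt k)) j x'}

/-- The Demazure filtration. -/
def D (R : AddSubgroup M) (y : M) (k : ℕ) : AddSubgroup M := AddSubgroup.closure (T.S y k) ⊔ R

lemma hf' (i j : Fin 2) : cm (T.hg i) (T.fg j) = (-((cartan i j : ℤ) : ℂ)) • T.fg j := by
  rw [hf, neg_smul]

lemma hff (i : Fin 2) : cm (T.hg i) (T.fg i) = (-2 : ℂ) • T.fg i := by
  rw [hf']; fin_cases i <;> simp [cartan]

lemma hee (i : Fin 2) : cm (T.hg i) (T.eg i) = (2 : ℂ) • T.eg i := by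
  rw [he]; fin_cases i <;> simp [cartan]

variable {T}

lemma WtV.dpow_f {mu : Fin 2 → ℤ} {x : M} (hx : T.WtV mu x) (j : Fin 2) (k : ℕ) :
    T.WtV (fun i => mu i - k * cartan i j) (dpow (T.fg j) k x) := by
  intro i
  rw [wt_dpow (T.hf' i j) (hx i)]; congr 1; push_cast; ring

lemma S_wt {lam : Fin 2 → ℤ} {y : M} (hy : T.WtV lam y) (k : ℕ) :
    ∀ x ∈ T.S y k, ∃ mu : Fin 2 → ℤ, mu 0 + mu 1 = lam 0 + lam 1 ∧ T.WtV mu x := by
  induction k with
  | zero => rintro x rfl; exact ⟨lam, rfl, hy⟩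
  | succ k ih =>
    rintro x ⟨j, x', hx', rfl⟩
    obtain ⟨mu, h1, h2⟩ := ih x' hx'
    refine ⟨_, ?_, h2.dpow_f _ j⟩
    generalize alt k = i
    fin_cases i <;> simp [cartan] <;> omega

lemma D_ind {R R' : AddSubgroup M} {y : M} {k : ℕ} {X : Module.End ℂ M}
    (h1 : ∀ x ∈ R, X x ∈ R') (h2 : ∀ x ∈ T.S y k, X x ∈ R') : ∀ x ∈ T.D R y k, X x ∈ R' := by
  have : T.D R y k ≤ R'.comap X.toAddMonoidHom :=
    sup_le ((AddSubgroup.closure_le _).2 h2) h1
  exact fun x hx => this hx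

lemma mem_D_of_S {R : AddSubgroup M} {y x : M} {k : ℕ} (h : x ∈ T.S y k) : x ∈ T.D R y k :=
  AddSubgroup.mem_sup_left (AddSubgroup.subset_closure h)

lemma mem_D_of_R {R : AddSubgroup M} {y x : M} {k : ℕ} (h : x ∈ R) : x ∈ T.D R y k :=
  AddSubgroup.mem_sup_right h

lemma D_f_succ {R : AddSubgroup M} (hR : T.Good R) (y : M) (k j : ℕ) :
    ∀ x ∈ T.D R y k, dpow (T.fg (alt k)) j x ∈ T.D R y (k + 1) :=
  D_ind (fun x hx => mem_D_of_R ((hR _).2 j x hx)) fun x hx => mem_D_of_S ⟨j, x, hx, rfl⟩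

lemma D_mono {R : AddSubgroup M} (hR : T.Good R) (y : M) : Monotone (T.D R y) :=
  monotone_nat_of_le_succ fun k x hx => by simpa using D_f_succ hR y k 0 x hx

lemma D_f_stab {R : AddSubgroup M} (hR : T.Good R) (y : M) (k : ℕ) :
    DStab (T.D R y (k + 1)) (T.fg (alt k)) := by
  intro j
  refine D_ind (fun x hx => mem_D_of_R ((hR _).2 j x hx)) ?_
  rintro x ⟨j', x', hx', rfl⟩
  rw [← Module.End.mul_apply, dpow_mul_dpow, LinearMap.smul_apply]
  exact nat_smul_mem (mem_D_of_S (k := k + 1) ⟨_, x', hx', rfl⟩) _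

lemma D_e_stab {R : AddSubgroup M} (hR : T.Good R) {lam : Fin 2 → ℤ} {y : M} (hy : T.WtV lam y)
    (hs : ∀ i a, 0 < a → dpow (T.eg i) a y ∈ R) (k : ℕ) (i : Fin 2) :
    DStab (T.D R y k) (T.eg i) := by
  induction k with
  | zero =>
    intro a
    refine D_ind (fun x hx => mem_D_of_R ((hR _).1 a x hx)) ?_
    rintro x rfl
    rcases Nat.eq_zero_or_pos a with rfl | ha
    · simpa using mem_D_of_S (T := T) (R := R) (k := 0) rfl
    · exact mem_D_of_R (hs i a ha)
  | succ k ih =>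
    intro a
    refine D_ind (fun x hx => mem_D_of_R ((hR _).1 a x hx)) ?_
    rintro x ⟨j, x', hx', rfl⟩
    obtain ⟨mu, -, hmu⟩ := S_wt hy k x' hx'
    by_cases hi : i = alt k
    · subst hi
      rw [← dz_natCast (T.fg (alt k)), kostant rfl (T.hff _) (T.hee _) (hmu _)]
      refine AddSubgroup.sum_mem _ fun t _ => int_smul_mem ?_ _
      unfold dz
      split_ifs
      · simp
      · exact D_f_succ hR y k _ _ (ih _ _ (mem_D_of_S hx'))
    · have h1 : T.eg i * T.fg (alt k) = T.fg (alt k) * T.eg i := sub_eq_zero.1 (T.ef hi)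
      have h2 := dpow_semiconj (dpow_semiconj h1 j).symm a
      rw [← Module.End.mul_apply, ← h2, Module.End.mul_apply]
      exact D_f_succ hR y k _ _ (ih _ _ (mem_D_of_S hx'))

variable (T) in
/-- The union of the Demazure filtration. -/
def Dinf (R : AddSubgroup M) (y : M) : AddSubgroup M := ⨆ k, T.D R y k

lemma mem_Dinf {R : AddSubgroup M} (hR : T.Good R) {y x : M} :
    x ∈ T.Dinf R y ↔ ∃ k, x ∈ T.D R y k :=
  AddSubgroup.mem_iSup_of_directed (D_mono hR y).directed_le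

lemma Dinf_good {R : AddSubgroup M} (hR : T.Good R) {lam : Fin 2 → ℤ} {y : M} (hy : T.WtV lam y)
    (hs : ∀ i a, 0 < a → dpow (T.eg i) a y ∈ R) : T.Good (T.Dinf R y) := by
  intro i
  constructor
  · intro a x hx
    obtain ⟨k, hk⟩ := (mem_Dinf hR).1 hx
    exact (mem_Dinf hR).2 ⟨k, D_e_stab hR hy hs k i a x hk⟩
  · intro a x hx
    obtain ⟨k, hk⟩ := (mem_Dinf hR).1 hx
    have h1 : alt (2 * k + i) = i := by
      unfold alt; fin_cases i <;> simp
    have := D_f_succ hR y (2 * k + i) a x (D_mono hR y (by omega) hk)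
    rw [h1] at this
    exact (mem_Dinf hR).2 ⟨_, this⟩

lemma Dinf_binom {R : AddSubgroup M} (hR : T.Good R) {lam : Fin 2 → ℤ} {y : M}
    (hy : T.WtV lam y) (i : Fin 2) (a : ℕ) (hb : Stab R (binom (T.hg i) a)) :
    Stab (T.Dinf R y) (binom (T.hg i) a) := by
  intro x hx
  obtain ⟨k, hk⟩ := (mem_Dinf hR).1 hx
  refine (mem_Dinf hR).2 ⟨k, D_ind (fun x hx => mem_D_of_R (hb x hx)) ?_ x hk⟩
  intro x hx
  obtain ⟨mu, -, hmu⟩ := S_wt hy k x hx
  rw [binom_apply (hmu i)]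
  exact int_smul_mem (mem_D_of_S hx) _

lemma mem_Dinf_self {R : AddSubgroup M} (hR : T.Good R) (y : M) : y ∈ T.Dinf R y :=
  (mem_Dinf hR).2 ⟨0, mem_D_of_S rfl⟩

variable (T) in
/-- Alternating product of reflections. -/
def g : ℕ → Module.End ℂ M
  | 0 => 1
  | k + 1 => T.n (alt k) * g k

variable (T) in
/-- Its inverse. -/
def g' : ℕ → Module.End ℂ M
  | 0 => 1
  | k + 1 => g' k * T.n' (alt k)

lemma g_mul_g' (k : ℕ) : T.g k * T.g' k = 1 := by
  induction k with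
  | zero => simp [g, g']
  | succ k ih =>
    simp only [g, g']
    rw [mul_assoc, ← mul_assoc (T.g k), ih, one_mul, n_mul_n']

lemma g'_mul_g (k : ℕ) : T.g' k * T.g k = 1 := by
  induction k with
  | zero => simp [g, g']
  | succ k ih =>
    simp only [g, g']
    rw [mul_assoc, ← mul_assoc (T.n' _), n'_mul_n, one_mul, ih]

lemma Good.g {R : AddSubgroup M} (h : T.Good R) (k : ℕ) : Stab R (T.g k) := by
  induction k with
  | zero => intro x hx; exact hx
  | succ k ih => exact (h.n _).mul ih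

lemma Good.g' {R : AddSubgroup M} (h : T.Good R) (k : ℕ) : Stab R (T.g' k) := by
  induction k with
  | zero => intro x hx; exact hx
  | succ k ih => exact ih.mul (h.n' _)

lemma g_conj (j : ℕ) (a : ℤ) :
    T.g (2 * j) * T.J true a = T.J true (a + 2 * j) * T.g (2 * j) ∧
    T.g (2 * j + 1) * T.J true a = (-T.J false (a + 2 * j + 2)) * T.g (2 * j + 1) := by
  have step : ∀ j : ℕ, T.g (2 * j) * T.J true a = T.J true (a + 2 * j) * T.g (2 * j) →
      T.g (2 * j + 1) * T.J true a = (-T.J false (a + 2 * j + 2)) * T.g (2 * j + 1) := by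
    intro j h
    have : alt (2 * j) = 0 := by simp [alt]
    simp only [g, this]
    rw [mul_assoc, h, ← mul_assoc, (T.n_zero _).1, mul_assoc]
  induction j with
  | zero => exact ⟨by simp [g], step 0 (by simp [g])⟩
  | succ j ih =>
    have h : T.g (2 * (j + 1)) * T.J true a =
        T.J true (a + 2 * (j + 1 : ℕ)) * T.g (2 * (j + 1)) := by
      have : alt (2 * j + 1) = 1 := by simp [alt]
      rw [show 2 * (j + 1) = 2 * j + 1 + 1 by ring, g, this, mul_assoc, ih.2, neg_mul, mul_neg,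
        ← mul_assoc, (T.n_one _).1, neg_mul, neg_mul, neg_neg, mul_assoc]
      congr 2; push_cast; ring
    exact ⟨h, step _ h⟩

lemma g_conj_e (k : ℕ) : ∃ a : ℤ, a ≤ -1 ∧ ∃ X : Module.End ℂ M,
    (X = T.J true a ∨ X = -T.J true a) ∧
      T.g (k + 1) * X = (-T.eg (alt k)) * T.g (k + 1) := by
  obtain ⟨j, rfl | rfl⟩ := Nat.even_or_odd' k
  · refine ⟨-(2 * j + 1), by omega, _, Or.inl rfl, ?_⟩
    have : alt (2 * j) = 0 := by simp [alt]
    rw [(g_conj j _).2, this, show -(2 * (j : ℤ) + 1) + 2 * j + 2 = 1 by ring]; rfl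
  · refine ⟨-(2 * j + 2), by omega, _, Or.inr rfl, ?_⟩
    have : alt (2 * j + 1) = 1 := by simp [alt]
    rw [this, show 2 * j + 1 + 1 = 2 * (j + 1) by ring, mul_neg, (g_conj (j + 1) _).1,
      show -(2 * (j : ℤ) + 2) + 2 * (j + 1 : ℕ) = 0 by push_cast; ring, neg_mul]; rfl

lemma n_f (i : Fin 2) : T.n i * T.fg i = (-T.eg i) * T.n i := by
  fin_cases i
  · exact (T.n_zero (-1)).1
  · exact (T.n_one 0).1

lemma D_le_map {R W : AddSubgroup M} (hR : T.Good R) {lam : Fin 2 → ℤ} {y : M}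
    (hy : T.WtV lam y) (hs : ∀ i a, 0 < a → dpow (T.eg i) a y ∈ R) (hyW : y ∈ W) (hRW : R ≤ W)
    (hW : ∀ a : ℤ, a ≤ -1 → DStab W (T.J true a)) (k : ℕ) :
    ∀ x ∈ T.D R y k, x ∈ W.map (T.g k).toAddMonoidHom := by
  have hRg : ∀ k, ∀ x ∈ R, x ∈ W.map (T.g k).toAddMonoidHom := by
    intro k x hx
    refine ⟨T.g' k x, hRW (hR.g' k x hx), ?_⟩
    change (T.g k * T.g' k) x = x
    rw [g_mul_g']; rfl
  induction k with
  | zero => exact D_ind (X := 1) (hRg 0) (by rintro x rfl; exact ⟨x, hyW, rfl⟩)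
  | succ k ih =>
    intro x hx
    have h1 : T.n' (alt k) x ∈ T.D R y (k + 1) :=
      stab_refl' (T.nil_e _) (T.nil_f _) (D_e_stab hR hy hs _ _) (D_f_stab hR y k) x hx
    have h2 : x = T.n (alt k) (T.n' (alt k) x) := by
      rw [← Module.End.mul_apply, n_mul_n']; rfl
    rw [h2]
    refine D_ind (fun z hz => hRg _ _ (hR.n _ z hz)) ?_ _ h1
    rintro z ⟨j, x', hx', rfl⟩
    obtain ⟨w, hw, rfl⟩ := ih x' (mem_D_of_S hx')
    obtain ⟨a, ha, X, hX, hc⟩ := g_conj_e (T := T) k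
    refine ⟨dpow X j w, ?_, ?_⟩
    · rcases hX with rfl | rfl
      · exact hW a ha j w hw
      · exact (hW a ha).neg j w hw
    · change (T.g (k + 1) * dpow X j) w = (T.n (alt k) * dpow (T.fg (alt k)) j) (T.g k w)
      rw [dpow_semiconj hc, dpow_semiconj (n_f _)]; rfl

lemma Dinf_inf {R W K : AddSubgroup M} (hR : T.Good R) {lam : Fin 2 → ℤ} {y : M}
    (hy : T.WtV lam y) (hs : ∀ i a, 0 < a → dpow (T.eg i) a y ∈ R) (hyW : y ∈ W) (hRW : R ≤ W)
    (hW : ∀ a : ℤ, a ≤ -1 → DStab W (T.J true a)) (hK : T.Good K)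
    (hWK : ∀ x ∈ W, x ∈ K → x ∈ R) : ∀ x ∈ T.Dinf R y, x ∈ K → x ∈ R := by
  intro x hx hxK
  obtain ⟨k, hk⟩ := (mem_Dinf hR).1 hx
  obtain ⟨w, hw, rfl⟩ := D_le_map hR hy hs hyW hRW hW k x hk
  refine hR.g k w (hWK w hw ?_)
  have := hK.g' k _ hxK
  change (T.g' k * T.g k) w ∈ K at this
  rwa [g'_mul_g] at this

/-- Gordon's difference conditions at level three with one mode `-1` allowed. -/
def Gordon (t0 : ℕ) (a : ℕ →₀ ℕ) : Prop :=
  (∀ j ≤ t0, a j = 0) ∧ a (t0 + 1) ≤ 1 ∧ ∀ j, a j + a (j + 1) ≤ 3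

lemma cur_single (t0 : ℤ) (j k : ℕ) :
    T.cur t0 (dm (Finsupp.single j k)) = dpow (T.J true (t0 - j)) k := by
  rw [dm_single, map_dpow, cur_X]

lemma Good.cur {R : AddSubgroup M} (hR : T.Good R) (t0 : ℤ) (a : ℕ →₀ ℕ) :
    Stab R (T.cur t0 (dm a)) := by
  induction a using Finsupp.induction with
  | zero => intro x hx; simpa [dm_zero] using hx
  | single_add j k a hj _ ih =>
    rw [← dm_mul_of_disjoint, map_mul, cur_single]
    · exact (hR.J _ k).mul ih
    · intro i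
      by_cases h : i = j
      · subst h; right; simpa using hj
      · left; exact Finsupp.single_eq_of_ne h

lemma cur_mem_of {R : AddSubgroup M} (hR : T.Good R) (t0 : ℤ) (a : ℕ →₀ ℕ) (j : ℕ) {y : M}
    (h : dpow (T.J true (t0 - j)) (a j) y ∈ R) : T.cur t0 (dm a) y ∈ R := by
  rw [← Finsupp.erase_add_single j a, ← dm_mul_of_disjoint, map_mul, cur_single]
  · exact hR.cur t0 _ _ h
  · intro i
    by_cases h : i = j
    · subst h; left; simp
    · right; exact Finsupp.single_eq_of_ne h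

lemma span_gordon {R : AddSubgroup M} (hR : T.Good R) {y : M} (t0 : ℕ)
    (c1 : ∀ n : ℤ, 0 ≤ n → ∀ k, 0 < k → dpow (T.J true n) k y ∈ R)
    (c2 : ∀ k, 1 < k → dpow (T.J true (-1)) k y ∈ R)
    (c3 : ∀ m i, 4 ≤ m → T.cur t0 (PowerSeries.coeff i (PS ^ m)) y = 0) (a : ℕ →₀ ℕ) :
    T.cur t0 (dm a) y ∈
      AddSubgroup.closure {x | ∃ b, Gordon t0 b ∧ x = T.cur t0 (dm b) y} ⊔ R := by
  suffices h : ∀ N, ∀ a : ℕ →₀ ℕ, tot a ^ 2 - sqs a = N → T.cur t0 (dm a) y ∈
      AddSubgroup.closure {x | ∃ b, Gordon t0 b ∧ x = T.cur t0 (dm b) y} ⊔ R from h _ a rfl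
  intro N
  induction N using Nat.strong_induction_on with
  | _ N ih =>
  intro a hN
  by_cases hG : Gordon t0 a
  · exact AddSubgroup.mem_sup_left (AddSubgroup.subset_closure ⟨a, hG, rfl⟩)
  by_cases h1 : ∀ j ≤ t0, a j = 0
  swap
  · push Not at h1
    obtain ⟨j, hj, hj'⟩ := h1
    exact AddSubgroup.mem_sup_right
      (cur_mem_of hR _ a j (c1 _ (by omega) _ (Nat.pos_of_ne_zero hj')))
  by_cases h2 : a (t0 + 1) ≤ 1
  swap
  · refine AddSubgroup.mem_sup_right (cur_mem_of hR _ a (t0 + 1) ?_)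
    rw [show (t0 : ℤ) - (t0 + 1 : ℕ) = -1 by push_cast; ring]
    exact c2 _ (by omega)
  have h3 : ∃ j, 4 ≤ a j + a (j + 1) := by
    by_contra hc
    push Not at hc
    exact hG ⟨h1, h2, fun j => by have := hc j; omega⟩
  obtain ⟨j, hj⟩ := h3
  set b0 : ℕ →₀ ℕ := Finsupp.single j (a j) + Finsupp.single (j + 1) (a (j + 1)) with hb0
  set r : ℕ →₀ ℕ := (a.erase j).erase (j + 1) with hr
  have e1 : r + b0 = a := by
    ext i
    by_cases hi : i = j
    · subst hi; simp [hr, hb0]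
    · by_cases hi' : i = j + 1
      · subst hi'; simp [hr, hb0]
      · simp [hr, hb0, Finsupp.erase_ne hi, Finsupp.erase_ne hi', Finsupp.single_eq_of_ne hi,
          Finsupp.single_eq_of_ne hi']
  have e2 : dm a = dm r * dm b0 := by
    rw [dm_mul_of_disjoint, e1]
    intro i
    by_cases hi : i = j
    · subst hi; left; simp [hr]
    · by_cases hi' : i = j + 1
      · subst hi'; left; simp [hr]
      · right; simp [hb0, Finsupp.single_eq_of_ne hi, Finsupp.single_eq_of_ne hi']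
  obtain ⟨s, hs, hs'⟩ := PS_pow_eq (cnt b0) (tot b0)
  have hc : cnt b0 = a j + a (j + 1) := by simp [hb0, cnt, Finsupp.weight_single]
  have h4 := c3 (cnt b0) (tot b0) (by omega)
  have hb : b0 ∈ s := (hs _).2 ⟨rfl, rfl⟩
  rw [hs', map_smul, LinearMap.smul_apply, smul_eq_zero, ← add_sum_erase _ _ hb, map_add,
    LinearMap.add_apply] at h4
  have h5 := eq_neg_of_add_eq_zero_left
    (h4.resolve_left (by exact_mod_cast Nat.factorial_ne_zero _))
  rw [e2, map_mul, Module.End.mul_apply, h5, map_neg, ← Module.End.mul_apply, ← map_mul, mul_sum,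
    map_sum, LinearMap.sum_apply]
  refine AddSubgroup.neg_mem _ (AddSubgroup.sum_mem _ fun b hb' => ?_)
  obtain ⟨c, hc⟩ := dm_mul r b
  rw [hc, map_smul, LinearMap.smul_apply]
  have hb2 := (hs b).1 (mem_of_mem_erase hb')
  have h6 : sqs b0 < sqs b := sqs_lt hb2.1 hb2.2 (ne_of_mem_erase hb')
  refine nat_smul_mem (ih _ ?_ (r + b) rfl) c
  have h7 : tot (r + b) = tot a := by
    rw [← e1]; simp only [tot, map_add] at hb2 ⊢; rw [hb2.2]
  have h8 : sqs a < sqs (r + b) := by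
    rw [← e1]; simp only [sqs, map_add] at h6 ⊢; omega
  have h9 := sqs_le (r + b)
  rw [h7] at h9 ⊢
  omega

/-- Main reduction: the lattice generated by `y` meets `K` inside `R`, provided the span of the
Gordon monomials meets `K` trivially. -/
theorem key {R K : AddSubgroup M} (hR : T.Good R) (hK : T.Good K) (hRK : R ≤ K)
    {lam : Fin 2 → ℤ} {y : M} (hy : T.WtV lam y) (hlam : lam 0 = 1)
    (hs : ∀ i a, 0 < a → dpow (T.eg i) a y ∈ R) (t0 : ℕ)
    (c1 : ∀ n : ℤ, 0 ≤ n → ∀ k, 0 < k → dpow (T.J true n) k y ∈ R)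
    (c3 : ∀ m i, 4 ≤ m → T.cur t0 (PowerSeries.coeff i (PS ^ m)) y = 0)
    (c4 : ∀ x ∈ AddSubgroup.closure {x | ∃ b, Gordon t0 b ∧ x = T.cur t0 (dm b) y},
      x ∈ K → x = 0) :
    ∀ x ∈ T.Dinf R y, x ∈ K → x ∈ R := by
  have c2 : ∀ k, 1 < k → dpow (T.J true (-1)) k y ∈ R := by
    intro k hk
    exact dpow_f_mem (e := T.eg 0) (f := T.fg 0) rfl (T.hff 0) (T.hee 0) (hR 0).2 (T.nil_f 0)
      (hy 0) (hs 0) k (by omega)
  set W := AddSubgroup.closure {x | ∃ b, Gordon t0 b ∧ x = T.cur t0 (dm b) y} ⊔ R with hWdef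
  have hsp := span_gordon hR t0 c1 c2 c3
  refine Dinf_inf (W := W) hR hy hs ?_ le_sup_right ?_ hK ?_
  · simpa [dm_zero] using hsp 0
  · intro a ha k
    have : W ≤ W.comap (dpow (T.J true a) k).toAddMonoidHom := by
      refine sup_le ((AddSubgroup.closure_le _).2 ?_)
        fun x hx => AddSubgroup.mem_sup_right (hR.J a k x hx)
      rintro x ⟨b, -, rfl⟩
      obtain ⟨j, hj⟩ : ∃ j : ℕ, a = (t0 : ℤ) - j := ⟨(t0 - a).toNat, by omega⟩
      obtain ⟨c, hc⟩ := dm_mul (Finsupp.single j k) b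
      change dpow (T.J true a) k (T.cur t0 (dm b) y) ∈ W
      rw [hj, ← cur_single, ← Module.End.mul_apply, ← map_mul, hc, map_smul, LinearMap.smul_apply]
      exact nat_smul_mem (hsp _) c
    exact fun x hx => this hx
  · intro x hx hxK
    obtain ⟨u, hu, r, hr, rfl⟩ := AddSubgroup.mem_sup.1 hx
    have : u ∈ K := by simpa using K.sub_mem hxK (hRK hr)
    rw [c4 u hu this, zero_add]; exact hr

end LoopRep

end Pool.Agent.Lib.MP_b2f51a_al
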