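import Pool.Agent.Lib.MP_b2f51a_al.Vac

/-! The irreducible highest weight module embeds in the Fock space. -/

noncomputable section

namespace Pool.Agent.Lib.MP_b2f51a_al

/-- The action of `U` on a `U`-module, as an algebra map. -/
abbrev act (M : Type*) [AddCommGroup M] [Module ℂ M] [Module U M] [IsScalarTower ℂ U M] :
    U →ₐ[ℂ] Module.End ℂ M := Algebra.lsmul ℂ ℂ M

section quot

variable {A : Type} [Ring A] (I : Submodule A A)

lemma smul_oneMod_eq_zero {u : A} (hu : u ∈ I) : u • oneMod I = 0 := by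
  rw [oneMod, ← Submodule.Quotient.mk_smul, Submodule.Quotient.mk_eq_zero, smul_eq_mul, mul_one]
  exact hu

lemma exists_smul_oneMod (x : A ⧸ I) : ∃ u : A, u • oneMod I = x := by
  obtain ⟨u, rfl⟩ := Submodule.Quotient.mk_surjective _ x
  exact ⟨u, by rw [oneMod, ← Submodule.Quotient.mk_smul, smul_eq_mul, mul_one]⟩

/-- The map out of a cyclic module. -/
def liftOne {N : Type} [AddCommGroup N] [Module A N] (v : N) (h : ∀ u ∈ I, u • v = 0) :
    (A ⧸ I) →ₗ[A] N := I.liftQ (LinearMap.toSpanSingleton A N v) h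

lemma liftOne_one {N : Type} [AddCommGroup N] [Module A N] (v : N) (h : ∀ u ∈ I, u • v = 0) :
    liftOne I v h (oneMod I) = v := one_smul A v

end quot

instance (lam : Fin 2 → ℤ) : Module ℂ (Verma lam) := Module.compHom _ (algebraMap ℂ U)

instance (lam : Fin 2 → ℤ) : IsScalarTower ℂ U (Verma lam) :=
  IsScalarTower.of_algebraMap_smul fun _ _ => rfl

instance (lam : Fin 2 → ℤ) : Module ℂ (L lam) := Module.compHom _ (algebraMap ℂ U)

instance (lam : Fin 2 → ℤ) : IsScalarTower ℂ U (L lam) :=
  IsScalarTower.of_algebraMap_smul fun _ _ => rfl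

/-- The generator of the Verma module. -/
def vone (lam : Fin 2 → ℤ) : Verma lam := oneMod (vermaIdeal lam)

/-- The quotient map. -/
def mkL (lam : Fin 2 → ℤ) : Verma lam →ₗ[U] L lam := (maxSub (Verma lam)).mkQ

lemma mkL_surj (lam : Fin 2 → ℤ) : Function.Surjective (mkL lam) := Submodule.mkQ_surjective _

lemma hwv_eq (lam : Fin 2 → ℤ) : hwv lam = mkL lam (vone lam) := rfl

lemma smul_vone {lam : Fin 2 → ℤ} {u : U} (hu : u ∈ vermaIdeal lam) : u • vone lam = 0 :=
  smul_oneMod_eq_zero _ hu

lemma isHW_of {M : Type*} [AddCommGroup M] [Module ℂ M] [Module U M] [IsScalarTower ℂ U M]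
    {lam : Fin 2 → ℤ} {v : M} (hv : ∀ u ∈ vermaIdeal lam, u • v = 0) : IsHW (act M) lam v where
  e i := hv _ (Submodule.subset_span ⟨i, Or.inl rfl⟩)
  h i := by
    have := hv _ (Submodule.subset_span ⟨i, Or.inr rfl⟩)
    rw [sub_smul, sub_eq_zero, Int.cast_smul_eq_zsmul, ← Int.cast_smul_eq_zsmul ℂ] at this
    exact this

lemma hw_verma (lam : Fin 2 → ℤ) : IsHW (act (Verma lam)) lam (vone lam) :=
  isHW_of fun _ hu => smul_vone hu

lemma verma_Hw (lam : Fin 2 → ℤ) (x : Verma lam) :
    ∃ j, x ∈ Hw (act (Verma lam)) (vone lam) j := by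
  obtain ⟨u, rfl⟩ : ∃ u : U, u • vone lam = x := exists_smul_oneMod _ x
  exact (hw_verma lam).exists_Hw u

/-- The lower part as a complex subspace. -/
def lowerC (lam : Fin 2 → ℤ) : Submodule ℂ (Verma lam) where
  carrier := lowerPart (Verma lam)
  zero_mem' := zero_mem _
  add_mem' := add_mem
  smul_mem' c x hx := by
    induction hx using AddSubgroup.closure_induction with
    | mem x hx =>
      obtain ⟨i, m, rfl⟩ := hx
      exact AddSubgroup.subset_closure ⟨i, c • m, (smul_comm _ _ _).symm⟩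
    | zero => rw [smul_zero]; exact zero_mem _
    | add x y _ _ hx hy => rw [smul_add]; exact add_mem hx hy
    | neg x _ hx => rw [smul_neg]; exact neg_mem hx

lemma verma_decomp (lam : Fin 2 → ℤ) (x : Verma lam) :
    x ∈ Submodule.span ℂ {vone lam} ⊔ lowerC lam := by
  obtain ⟨j, hj⟩ := verma_Hw lam x
  induction j generalizing x with
  | zero => exact Submodule.mem_sup_left hj
  | succ j ih =>
    exact Hw_ind (X := LinearMap.id) _ ih
      (fun i y _ => Submodule.mem_sup_right (AddSubgroup.subset_closure ⟨i, y, rfl⟩)) x hj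

lemma hw_L (lam : Fin 2 → ℤ) : IsHW (act (L lam)) lam (hwv lam) :=
  isHW_of fun _ hu => by rw [hwv_eq, ← map_smul, smul_vone hu, map_zero]

lemma exists_smul_hwv (lam : Fin 2 → ℤ) (x : L lam) : ∃ u : U, u • hwv lam = x := by
  obtain ⟨y, rfl⟩ := mkL_surj lam x
  obtain ⟨u, rfl⟩ : ∃ u : U, u • vone lam = y := exists_smul_oneMod _ y
  exact ⟨u, by rw [hwv_eq, map_smul]⟩

lemma L_Hw (lam : Fin 2 → ℤ) (x : L lam) : ∃ j, x ∈ Hw (act (L lam)) (hwv lam) j := by
  obtain ⟨u, rfl⟩ := exists_smul_hwv lam x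
  exact (hw_L lam).exists_Hw u

/-- The Fock space as a `U`-module. -/
def RM : Type := Fk

instance : AddCommGroup RM := inferInstanceAs (AddCommGroup Fk)

instance : Module U RM := Module.compHom Fk fockRep.rho.toRingHom

variable {lam : Fin 2 → ℤ} {v : Fk}

/-- The map from the Verma module. -/
def phi0 (hv : IsHW fockRep.rho lam v) : Verma lam →ₗ[U] RM :=
  liftOne (N := RM) (vermaIdeal lam) v (by
    have : vermaIdeal lam ≤ LinearMap.ker (LinearMap.toSpanSingleton U RM v) := by
      rw [vermaIdeal, Submodule.span_le]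
      rintro u ⟨i, rfl | rfl⟩
      · exact hv.e i
      · change fockRep.rho (h i - (lam i : U)) v = 0
        rw [map_sub, map_intCast, LinearMap.sub_apply, hv.h, Module.End.intCast_apply,
          Int.cast_smul_eq_zsmul, sub_self]
    exact fun u hu => this hu)

/-- The same map with values in the Fock space. -/
def phi1 (hv : IsHW fockRep.rho lam v) (x : Verma lam) : Fk := phi0 hv x

lemma phi1_smul (hv : IsHW fockRep.rho lam v) (u : U) (x : Verma lam) :
    phi1 hv (u • x) = fockRep.rho u (phi1 hv x) := map_smul (phi0 hv) u x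

lemma phi1_add (hv : IsHW fockRep.rho lam v) (x y : Verma lam) :
    phi1 hv (x + y) = phi1 hv x + phi1 hv y := map_add (phi0 hv) x y

lemma phi1_csmul (hv : IsHW fockRep.rho lam v) (c : ℂ) (x : Verma lam) :
    phi1 hv (c • x) = c • phi1 hv x := by
  rw [← algebraMap_smul U, phi1_smul, AlgHom.commutes, Module.algebraMap_end_apply]

lemma phi1_one (hv : IsHW fockRep.rho lam v) : phi1 hv (vone lam) = v :=
  liftOne_one (N := RM) _ _ _

lemma ip_lower (hv : IsHW fockRep.rho lam v) {x : Verma lam} 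
    (hx : x ∈ lowerPart (Verma lam)) : ip v (phi1 hv x) = 0 := by
  induction hx using AddSubgroup.closure_induction with
  | mem x hx =>
    obtain ⟨i, m, rfl⟩ := hx
    rw [phi1_smul, ← adj_rho, hv.e, ip_zero_left]
  | zero => exact (congrArg (ip v) (map_zero (phi0 hv))).trans (ip_zero_right v)
  | add x y _ _ hx hy => rw [phi1_add, ip_add_right, hx, hy, add_zero]
  | neg x _ hx => rw [← neg_one_smul ℂ x, phi1_csmul, ip_smul_right, hx, mul_zero]

lemma ker_phi0 (hv : IsHW fockRep.rho lam v) (h1 : ip v v = 1) :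
    LinearMap.ker (phi0 hv) = maxSub (Verma lam) := by
  apply le_antisymm
  · refine le_sSup fun x hx => ?_
    obtain ⟨a, ha, b, hb, rfl⟩ := Submodule.mem_sup.1 (verma_decomp lam x)
    obtain ⟨c, rfl⟩ := Submodule.mem_span_singleton.1 ha
    have h2 : phi1 hv (c • vone lam + b) = 0 := hx
    have h3 := congrArg (ip v) h2
    rw [phi1_add, phi1_csmul, phi1_one, ip_add_right, ip_smul_right, h1, ip_lower hv hb,
      ip_zero_right, mul_one, add_zero] at h3
    rw [h3, zero_smul, zero_add]; exact hb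
  · refine sSup_le fun N hN x hx => ?_
    have key : ∀ j, ∀ m ∈ Hw (act (Verma lam)) (vone lam) j, ∀ x ∈ N,
        ip (phi1 hv m) (phi1 hv x) = 0 := by
      let P : Submodule ℂ (Verma lam) :=
        { carrier := {m | ∀ x ∈ N, ip (phi1 hv m) (phi1 hv x) = 0}
          zero_mem' := fun x _ =>
            (congrArg (fun z => ip z (phi1 hv x)) (map_zero (phi0 hv))).trans (ip_zero_left _)
          add_mem' := fun {a b} ha hb x hx => by
            rw [phi1_add, ip_add_left, ha x hx, hb x hx, add_zero]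
          smul_mem' := fun c a ha x hx => by rw [phi1_csmul, ip_smul_left, ha x hx, mul_zero] }
      intro j
      induction j with
      | zero =>
        intro m hm x hx
        obtain ⟨c, rfl⟩ := Submodule.mem_span_singleton.1 hm
        rw [phi1_csmul, phi1_one, ip_smul_left, ip_lower hv (hN x hx), mul_zero]
      | succ j ih =>
        refine Hw_ind (X := LinearMap.id) (P := P) _ ih fun i m hm x hx => ?_
        change ip (phi1 hv (f i • m)) _ = 0
        rw [phi1_smul, (adj_rho i).symm, ← phi1_smul]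
        exact ih m hm _ (N.smul_mem _ hx)
    obtain ⟨j, hj⟩ := verma_Hw lam x
    exact ip_self_eq_zero (key j x hj x hx)

/-- The map from the irreducible module. -/
def phi2 (hv : IsHW fockRep.rho lam v) (h1 : ip v v = 1) : L lam →ₗ[U] RM :=
  (maxSub (Verma lam)).liftQ (phi0 hv) (ker_phi0 hv h1).ge

/-- The same map with values in the Fock space. -/
def phi3 (hv : IsHW fockRep.rho lam v) (h1 : ip v v = 1) (x : L lam) : Fk := phi2 hv h1 x

lemma phi3_smul (hv : IsHW fockRep.rho lam v) (h1 : ip v v = 1) (u : U) (x : L lam) :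
    phi3 hv h1 (u • x) = fockRep.rho u (phi3 hv h1 x) := map_smul (phi2 hv h1) u x

lemma phi3_add (hv : IsHW fockRep.rho lam v) (h1 : ip v v = 1) (x y : L lam) :
    phi3 hv h1 (x + y) = phi3 hv h1 x + phi3 hv h1 y := map_add (phi2 hv h1) x y

lemma phi3_csmul (hv : IsHW fockRep.rho lam v) (h1 : ip v v = 1) (c : ℂ) (x : L lam) :
    phi3 hv h1 (c • x) = c • phi3 hv h1 x := by
  rw [← algebraMap_smul U, phi3_smul, AlgHom.commutes, Module.algebraMap_end_apply]

lemma phi3_inj (hv : IsHW fockRep.rho lam v) (h1 : ip v v = 1) :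
    Function.Injective (phi3 hv h1) :=
  (LinearMap.ker_eq_bot (f := phi2 hv h1)).1
    (Submodule.ker_liftQ_eq_bot _ _ _ (ker_phi0 hv h1).le)

theorem exists_embed (hv : IsHW fockRep.rho lam v) (h1 : ip v v = 1) :
    ∃ Φ : L lam →ₗ[ℂ] Fk, (∀ (u : U) x, Φ (u • x) = fockRep.rho u (Φ x)) ∧ Φ (hwv lam) = v ∧
      Function.Injective Φ :=
  ⟨{ toFun := phi3 hv h1
     map_add' := phi3_add hv h1
     map_smul' := phi3_csmul hv h1 }, phi3_smul hv h1, phi1_one hv, phi3_inj hv h1⟩

end Pool.Agent.Lib.MP_b2f51a_al
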