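import Pool.Agent.Lib.MP_b2f51a_al.Defs

/-! Locally finite sums, divided powers, exponentials of locally nilpotent operators and the
lifts of simple reflections. -/

noncomputable section

namespace Pool.Agent.Lib.MP_b2f51a_al

open Finset

section dp

variable {A : Type*} [Ring A] [Algebra ℂ A]

@[simp] lemma dpow_zero (x : A) : dpow x 0 = 1 := by simp [dpow]

@[simp] lemma dpow_one (x : A) : dpow x 1 = x := by simp [dpow]

lemma mul_dpow (x : A) (k : ℕ) : x * dpow x k = ((k : ℂ) + 1) • dpow x (k + 1) := by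
  have h1 : ((k : ℂ) + 1) ≠ 0 := by exact_mod_cast Nat.succ_ne_zero k
  have h2 : (k.factorial : ℂ) ≠ 0 := by exact_mod_cast Nat.factorial_ne_zero k
  simp only [dpow, mul_smul_comm, smul_smul, Nat.factorial_succ, pow_succ']
  congr 1; push_cast; field_simp

lemma dpow_mul_self (x : A) (k : ℕ) : dpow x k * x = ((k : ℂ) + 1) • dpow x (k + 1) := by
  rw [← mul_dpow]; simp [dpow, ← pow_succ, ← pow_succ']

lemma dpow_mul_dpow (x : A) (a b : ℕ) :
    dpow x a * dpow x b = (((a + b).choose a : ℕ) : ℂ) • dpow x (a + b) := by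
  have h1 : (a.factorial : ℂ) ≠ 0 := by exact_mod_cast Nat.factorial_ne_zero a
  have h2 : (b.factorial : ℂ) ≠ 0 := by exact_mod_cast Nat.factorial_ne_zero b
  have h3 : ((a + b).factorial : ℂ) ≠ 0 := by exact_mod_cast Nat.factorial_ne_zero _
  have h4 : (((a + b).choose a : ℕ) : ℂ) * a.factorial * b.factorial = (a + b).factorial := by
    have := Nat.add_choose_mul_factorial_mul_factorial a b
    rw [← Nat.choose_symm_add] at this
    exact_mod_cast this
  simp only [dpow, smul_mul_smul_comm, smul_smul, ← pow_add]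
  congr 1
  field_simp
  rw [← h4]; ring

lemma dpow_neg (x : A) (k : ℕ) : dpow (-x) k = ((-1 : ℂ) ^ k) • dpow x k := by
  simp only [dpow]
  rw [smul_comm, ← smul_pow]; simp

lemma map_dpow {B : Type*} [Ring B] [Algebra ℂ B] (φ : A →ₐ[ℂ] B) (x : A) (k : ℕ) :
    φ (dpow x k) = dpow (φ x) k := by simp [dpow]

lemma map_binom {B : Type*} [Ring B] [Algebra ℂ B] (φ : A →ₐ[ℂ] B) (x : A) (k : ℕ) :
    φ (binom x k) = binom (φ x) k := by
  simp [binom, Polynomial.aeval_algHom_apply]

lemma factorial_smul_dpow (x : A) (k : ℕ) : (k.factorial : ℂ) • dpow x k = x ^ k := by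
  have h1 : (k.factorial : ℂ) ≠ 0 := by exact_mod_cast Nat.factorial_ne_zero k
  simp [dpow, smul_smul, h1]

lemma dpow_conj {g g' x y : A} (h : g * x = y * g) (hg : g * g' = 1) (k : ℕ) :
    dpow y k = g * dpow x k * g' := by
  have : ∀ k, g * x ^ k = y ^ k * g := by
    intro k
    induction k with
    | zero => simp
    | succ k ih => rw [pow_succ, ← mul_assoc, ih, mul_assoc, h, pow_succ, mul_assoc]
  simp only [dpow, mul_smul_comm, smul_mul_assoc]
  rw [this, mul_assoc, hg, mul_one]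

lemma dpow_comm_two {X Y Y1 Y2 : A} (h1 : X * Y - Y * X = Y1) (h2 : X * Y1 - Y1 * X = Y2)
    (h3 : X * Y2 - Y2 * X = 0) (k : ℕ) :
    dpow X (k + 2) * Y =
      Y * dpow X (k + 2) + Y1 * dpow X (k + 1) + (1 / 2 : ℂ) • (Y2 * dpow X k) := by
  have e1 : X * Y = Y * X + Y1 := by rw [← h1]; abel
  have e2 : X * Y1 = Y1 * X + Y2 := by rw [← h2]; abel
  have e3 : X * Y2 = Y2 * X := sub_eq_zero.1 h3
  induction k with
  | zero =>
    have : dpow X 2 = (1 / 2 : ℂ) • (X * X) := by simp [dpow, sq]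
    simp only [zero_add, this, dpow_one, dpow_zero, mul_one, smul_mul_assoc, mul_smul_comm]
    have : X * X * Y = Y * (X * X) + (2 : ℂ) • (Y1 * X) + Y2 := by
      rw [mul_assoc, e1, mul_add, ← mul_assoc, e1, e2, two_smul]; noncomm_ring
    rw [this]; module
  | succ k ih =>
    have hk : ((k : ℂ) + 3) ≠ 0 := by exact_mod_cast (by omega : k + 3 ≠ 0)
    have key : ((k : ℂ) + 3) • (dpow X (k + 1 + 2) * Y) = X * (dpow X (k + 2) * Y) := by
      rw [← mul_assoc, mul_dpow, smul_mul_assoc]; push_cast; congr 1; ring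
    apply smul_right_injective A hk
    simp only
    rw [key, ih, mul_add, mul_add, mul_smul_comm, ← mul_assoc, ← mul_assoc, ← mul_assoc, e1, e2,
      e3, add_mul, add_mul, mul_assoc, mul_assoc, mul_assoc, mul_dpow, mul_dpow, mul_dpow]
    simp only [mul_smul_comm]
    push_cast
    module

end dp

variable {M : Type*} [AddCommGroup M] [Module ℂ M]

/-- A family of operators is locally finite. -/
def LocFin {ι : Type*} (A : ι → Module.End ℂ M) : Prop :=
  ∀ v, (Function.support fun i => A i v).Finite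

open Classical in
/-- Sum of a locally finite family of operators. -/
def lsum {ι : Type*} (A : ι → Module.End ℂ M) : Module.End ℂ M :=
  if h : LocFin A then
    { toFun := fun v => ∑ᶠ i, A i v
      map_add' := fun x y => by
        simp only [map_add]; exact finsum_add_distrib (h x) (h y)
      map_smul' := fun c x => by
        simp only [map_smul, RingHom.id_apply]; exact (smul_finsum' c (h x)).symm }
  else 0

lemma lsum_apply {ι : Type*} {A : ι → Module.End ℂ M} (h : LocFin A) (v : M) :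
    lsum A v = ∑ᶠ i, A i v := by
  simp [lsum, h]

lemma lsum_apply_of {ι : Type*} {A : ι → Module.End ℂ M} (h : LocFin A) (v : M) (s : Finset ι)
    (hs : ∀ i, A i v ≠ 0 → i ∈ s) : lsum A v = ∑ i ∈ s, A i v := by
  rw [lsum_apply h]
  exact finsum_eq_sum_of_support_subset _ (fun i hi => by simpa using hs i hi)

/-- Local nilpotency. -/
def LocNil (X : Module.End ℂ M) : Prop := ∀ v, ∃ N, (X ^ N) v = 0

lemma pow_apply_eq_zero_of_le {X : Module.End ℂ M} {v : M} {N k : ℕ} (h : (X ^ N) v = 0)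
    (hk : N ≤ k) : (X ^ k) v = 0 := by
  obtain ⟨j, rfl⟩ := Nat.exists_eq_add_of_le' hk
  rw [pow_add, Module.End.mul_apply, h, map_zero]

lemma dpow_apply_eq_zero {X : Module.End ℂ M} {v : M} {N k : ℕ} (h : (X ^ N) v = 0)
    (hk : N ≤ k) : dpow X k v = 0 := by
  simp [dpow, pow_apply_eq_zero_of_le h hk]

lemma LocNil.neg {X : Module.End ℂ M} (h : LocNil X) : LocNil (-X) := by
  intro v
  obtain ⟨N, hN⟩ := h v
  refine ⟨N, ?_⟩
  rw [neg_pow, Module.End.mul_apply, hN, map_zero]

lemma LocNil.locFin {X : Module.End ℂ M} (h : LocNil X) : LocFin (dpow X) := by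
  intro v
  obtain ⟨N, hN⟩ := h v
  refine (Set.finite_lt_nat N).subset fun k hk => ?_
  by_contra hc
  exact hk (dpow_apply_eq_zero hN (not_lt.1 hc))

/-- The exponential of a locally nilpotent operator. -/
def lexp (X : Module.End ℂ M) : Module.End ℂ M := lsum (dpow X)

lemma lexp_apply {X : Module.End ℂ M} (h : LocNil X) {v : M} {N : ℕ} (hN : (X ^ N) v = 0) :
    lexp X v = (∑ k ∈ range N, dpow X k) v := by
  rw [lexp, lsum_apply_of h.locFin v (range N), LinearMap.sum_apply]
  intro k hk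
  by_contra hc
  exact hk (dpow_apply_eq_zero hN (by simpa using hc))

lemma lexp_neg_mul {X : Module.End ℂ M} (h : LocNil X) : lexp (-X) * lexp X = 1 := by
  ext v
  obtain ⟨N, hN0⟩ := h v
  have hN : (X ^ (N + 1)) v = 0 := pow_apply_eq_zero_of_le hN0 (Nat.le_succ N)
  have hc : ∀ k, X ^ (N + 1) * dpow X k = dpow X k * X ^ (N + 1) := by
    intro k; simp [dpow, ← pow_add, add_comm]
  have h2 : ((-X) ^ (N + 1)) ((∑ k ∈ range (N + 1), dpow X k) v) = 0 := by
    rw [neg_pow, Module.End.mul_apply, ← Module.End.mul_apply (X ^ (N + 1)), mul_sum]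
    simp only [hc, ← sum_mul, Module.End.mul_apply, hN, map_zero]
  rw [Module.End.mul_apply, lexp_apply h hN, lexp_apply h.neg h2, ← Module.End.mul_apply,
    sum_mul_sum]
  simp only [dpow_neg, smul_mul_assoc, dpow_mul_dpow, LinearMap.sum_apply, LinearMap.smul_apply,
    smul_smul, Module.End.one_apply]
  have h3 : ∑ a ∈ range (N + 1), ∑ b ∈ range (N + 1),
      ((-1 : ℂ) ^ a * (((a + b).choose a : ℕ) : ℂ)) • dpow X (a + b) v =
      ∑ a ∈ range (N + 1), ∑ b ∈ range (N + 1 - a),
      ((-1 : ℂ) ^ a * (((a + b).choose a : ℕ) : ℂ)) • dpow X (a + b) v := by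
    refine sum_congr rfl fun a _ => (sum_subset ?_ ?_).symm
    · intro b hb; simp at hb ⊢; omega
    · intro b _ hb
      rw [dpow_apply_eq_zero hN (by simp at hb; omega), smul_zero]
  rw [h3, ← sum_range_diag_flip (N + 1)
    (fun a b => ((-1 : ℂ) ^ a * (((a + b).choose a : ℕ) : ℂ)) • dpow X (a + b) v)]
  have h4 : ∀ m ∈ range (N + 1), ∑ k ∈ range (m + 1),
      ((-1 : ℂ) ^ k * (((k + (m - k)).choose k : ℕ) : ℂ)) • dpow X (k + (m - k)) v =
      if m = 0 then v else 0 := by
    intro m _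
    have : ∀ k ∈ range (m + 1),
        ((-1 : ℂ) ^ k * (((k + (m - k)).choose k : ℕ) : ℂ)) • dpow X (k + (m - k)) v =
        ((-1 : ℂ) ^ k * ((m.choose k : ℕ) : ℂ)) • dpow X m v := by
      intro k hk
      rw [Nat.add_sub_cancel' (by simpa [Nat.lt_succ_iff] using hk)]
    rw [sum_congr rfl this, ← sum_smul]
    have h5 : ∑ k ∈ range (m + 1), ((-1 : ℂ) ^ k * ((m.choose k : ℕ) : ℂ)) =
        if m = 0 then 1 else 0 := by
      have := congrArg (Int.cast : ℤ → ℂ) (Int.alternating_sum_range_choose (n := m))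
      push_cast at this
      rw [this]
    rw [h5]
    split_ifs with hm
    · subst hm; simp
    · simp
  rw [sum_congr rfl h4]
  simp

lemma lexp_mul_neg {X : Module.End ℂ M} (h : LocNil X) : lexp X * lexp (-X) = 1 := by
  simpa using lexp_neg_mul h.neg

lemma lexp_comm {X Y Y1 Y2 : Module.End ℂ M} (h : LocNil X) (h1 : X * Y - Y * X = Y1)
    (h2 : X * Y1 - Y1 * X = Y2) (h3 : X * Y2 - Y2 * X = 0) :
    lexp X * Y = (Y + Y1 + (1 / 2 : ℂ) • Y2) * lexp X := by
  have key : ∀ n, (∑ k ∈ range (n + 2), dpow X k) * Y =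
      Y * (∑ k ∈ range (n + 2), dpow X k) + Y1 * (∑ k ∈ range (n + 1), dpow X k) +
        (1 / 2 : ℂ) • (Y2 * (∑ k ∈ range n, dpow X k)) := by
    intro n
    induction n with
    | zero =>
      simp only [zero_add, sum_range_succ, range_zero, sum_empty, dpow_zero, dpow_one]
      rw [← h1]; simp only [mul_zero, smul_zero]; noncomm_ring
    | succ n ih =>
      rw [show n + 1 + 2 = (n + 2) + 1 from rfl, sum_range_succ _ (n + 2), add_mul, ih,
        dpow_comm_two h1 h2 h3, sum_range_succ _ (n + 1), sum_range_succ _ n]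
      simp only [mul_add, smul_add]
      abel
  ext v
  obtain ⟨N1, hN1⟩ := h v
  obtain ⟨N2, hN2⟩ := h (Y v)
  have a1 : (X ^ (N1 + N2)) v = 0 := pow_apply_eq_zero_of_le hN1 (by omega)
  have a2 : (X ^ (N1 + N2 + 1)) v = 0 := pow_apply_eq_zero_of_le hN1 (by omega)
  have a3 : (X ^ (N1 + N2 + 2)) v = 0 := pow_apply_eq_zero_of_le hN1 (by omega)
  have a4 : (X ^ (N1 + N2 + 2)) (Y v) = 0 := pow_apply_eq_zero_of_le hN2 (by omega)
  rw [Module.End.mul_apply, lexp_apply h a4, ← Module.End.mul_apply, key]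
  simp only [LinearMap.add_apply, Module.End.mul_apply, LinearMap.smul_apply]
  rw [← lexp_apply h a1, ← lexp_apply h a2, ← lexp_apply h a3]

/-- The lift of the simple reflection. -/
def refl (e f : Module.End ℂ M) : Module.End ℂ M := lexp e * lexp (-f) * lexp e

/-- Its inverse. -/
def refl' (e f : Module.End ℂ M) : Module.End ℂ M := lexp (-e) * lexp f * lexp (-e)

lemma refl_mul_refl' {e f : Module.End ℂ M} (he : LocNil e) (hf : LocNil f) :
    refl e f * refl' e f = 1 := by
  unfold refl refl'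
  calc _ = lexp e * (lexp (-f) * ((lexp e * lexp (-e)) * lexp f)) * lexp (-e) := by noncomm_ring
    _ = 1 := by rw [lexp_mul_neg he, one_mul, lexp_neg_mul hf, mul_one, lexp_mul_neg he]

lemma refl'_mul_refl {e f : Module.End ℂ M} (he : LocNil e) (hf : LocNil f) :
    refl' e f * refl e f = 1 := by
  unfold refl refl'
  calc _ = lexp (-e) * (lexp f * ((lexp (-e) * lexp e) * lexp (-f))) * lexp e := by noncomm_ring
    _ = 1 := by rw [lexp_neg_mul he, one_mul, lexp_mul_neg hf, mul_one, lexp_neg_mul he]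

lemma refl_triple {e f X Y Z : Module.End ℂ M} (he : LocNil e) (hf : LocNil f)
    (h1 : e * X - X * e = Y) (h2 : e * Y - Y * e = (-2 : ℂ) • Z) (h3 : e * Z - Z * e = 0)
    (h4 : f * X - X * f = 0) (h5 : f * Y - Y * f = (2 : ℂ) • X) (h6 : f * Z - Z * f = -Y) :
    refl e f * X = (-Z) * refl e f ∧ refl e f * Z = (-X) * refl e f := by
  have eX : lexp e * X = (X + Y - Z) * lexp e := by
    rw [lexp_comm he h1 h2 (by rw [mul_smul_comm, smul_mul_assoc, ← smul_sub, h3, smul_zero])]
    congr 1; module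
  have eY : lexp e * Y = (Y - (2 : ℂ) • Z) * lexp e := by
    rw [lexp_comm (Y2 := 0) he h2
      (by rw [mul_smul_comm, smul_mul_assoc, ← smul_sub, h3, smul_zero]) (by simp)]
    congr 1; module
  have eZ : lexp e * Z = Z * lexp e := by
    rw [lexp_comm (Y1 := 0) (Y2 := 0) he h3 (by simp) (by simp)]; simp
  have g4 : -f * X - X * -f = 0 := by
    have : -f * X - X * -f = -(f * X - X * f) := by noncomm_ring
    rw [this, h4, neg_zero]
  have g5 : -f * Y - Y * -f = (-2 : ℂ) • X := by
    have : -f * Y - Y * -f = -(f * Y - Y * f) := by noncomm_ring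
    rw [this, h5]; module
  have g6 : -f * Z - Z * -f = Y := by
    have : -f * Z - Z * -f = -(f * Z - Z * f) := by noncomm_ring
    rw [this, h6, neg_neg]
  have fX : lexp (-f) * X = X * lexp (-f) := by
    rw [lexp_comm (Y1 := 0) (Y2 := 0) hf.neg g4 (by simp) (by simp)]; simp
  have fY : lexp (-f) * Y = (Y - (2 : ℂ) • X) * lexp (-f) := by
    rw [lexp_comm (Y2 := 0) hf.neg g5
      (by rw [mul_smul_comm, smul_mul_assoc, ← smul_sub, g4, smul_zero]) (by simp)]
    congr 1; module
  have fZ : lexp (-f) * Z = (Z + Y - X) * lexp (-f) := by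
    rw [lexp_comm hf.neg g6 g5
      (by rw [mul_smul_comm, smul_mul_assoc, ← smul_sub, g4, smul_zero])]
    congr 1; module
  have k1 : lexp (-f) * (X + Y - Z) = (-Z) * lexp (-f) := by
    rw [mul_sub, mul_add, fX, fY, fZ, ← add_mul, ← sub_mul]; congr 1; module
  have k2 : lexp e * (Z + Y - X) = (-X) * lexp e := by
    rw [mul_sub, mul_add, eX, eY, eZ, ← add_mul, ← sub_mul]; congr 1; module
  unfold refl
  constructor
  · calc _ = lexp e * (lexp (-f) * (lexp e * X)) := by noncomm_ring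
      _ = lexp e * (lexp (-f) * (X + Y - Z)) * lexp e := by rw [eX]; noncomm_ring
      _ = -(lexp e * Z) * lexp (-f) * lexp e := by rw [k1]; noncomm_ring
      _ = _ := by rw [eZ]; noncomm_ring
  · calc _ = lexp e * (lexp (-f) * (lexp e * Z)) := by noncomm_ring
      _ = lexp e * (lexp (-f) * Z) * lexp e := by rw [eZ]; noncomm_ring
      _ = (lexp e * (Z + Y - X)) * lexp (-f) * lexp e := by rw [fZ]; noncomm_ring
      _ = _ := by rw [k2]; noncomm_ring

/-- `R` is stable under `X`. -/
def Stab (R : AddSubgroup M) (X : Module.End ℂ M) : Prop := ∀ x ∈ R, X x ∈ R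

/-- `R` is stable under all divided powers of `X`. -/
def DStab (R : AddSubgroup M) (X : Module.End ℂ M) : Prop := ∀ k, Stab R (dpow X k)

lemma Stab.mul {R : AddSubgroup M} {X Y : Module.End ℂ M} (hX : Stab R X) (hY : Stab R Y) :
    Stab R (X * Y) := fun x hx => hX _ (hY x hx)

lemma neg_one_pow_smul_mem {R : AddSubgroup M} {x : M} (hx : x ∈ R) (k : ℕ) :
    ((-1 : ℂ) ^ k) • x ∈ R := by
  rcases neg_one_pow_eq_or ℂ k with h | h <;> simp [h, hx]

lemma int_smul_mem {R : AddSubgroup M} {x : M} (hx : x ∈ R) (k : ℤ) : (k : ℂ) • x ∈ R := by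
  rw [Int.cast_smul_eq_zsmul]; exact R.zsmul_mem hx k

lemma nat_smul_mem {R : AddSubgroup M} {x : M} (hx : x ∈ R) (k : ℕ) : (k : ℂ) • x ∈ R := by
  rw [Nat.cast_smul_eq_nsmul]; exact R.nsmul_mem hx k

lemma DStab.neg {R : AddSubgroup M} {X : Module.End ℂ M} (h : DStab R X) : DStab R (-X) := by
  intro k x hx
  rw [dpow_neg, LinearMap.smul_apply]
  exact neg_one_pow_smul_mem (h k x hx) k

lemma DStab.lexp {R : AddSubgroup M} {X : Module.End ℂ M} (h : DStab R X) (hX : LocNil X) :
    Stab R (lexp X) := by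
  intro x hx
  obtain ⟨N, hN⟩ := hX x
  rw [lexp_apply hX hN, LinearMap.sum_apply]
  exact R.sum_mem fun k _ => h k x hx

lemma stab_refl {R : AddSubgroup M} {e f : Module.End ℂ M} (he : LocNil e) (hf : LocNil f)
    (h1 : DStab R e) (h2 : DStab R f) : Stab R (refl e f) :=
  ((h1.lexp he).mul (h2.neg.lexp hf.neg)).mul (h1.lexp he)

lemma stab_refl' {R : AddSubgroup M} {e f : Module.End ℂ M} (he : LocNil e) (hf : LocNil f)
    (h1 : DStab R e) (h2 : DStab R f) : Stab R (refl' e f) :=
  ((h1.neg.lexp he.neg).mul (h2.lexp hf)).mul (h1.neg.lexp he.neg)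

lemma DStab.conj {R : AddSubgroup M} {g g' X Y : Module.End ℂ M} (hX : DStab R X)
    (h : g * X = Y * g) (hg : g * g' = 1) (h1 : Stab R g) (h2 : Stab R g') : DStab R Y := by
  intro k
  rw [dpow_conj h hg k]
  exact (h1.mul (hX k)).mul h2

end Pool.Agent.Lib.MP_b2f51a_al
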