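import Mathlib

/-! Fermionic Fock space on a linearly ordered index type, with its Hermitian form. -/

noncomputable section

namespace Pool.Agent.Lib.MP_b2f51a_al

open Finset

variable {I : Type} [LinearOrder I]

/-- Fock space: finitely supported functions on finite sets of indices. -/
def Fock (I : Type) : Type := Finset I →₀ ℂ

instance (I : Type) : AddCommGroup (Fock I) := inferInstanceAs (AddCommGroup (Finset I →₀ ℂ))

instance (I : Type) : Module ℂ (Fock I) := inferInstanceAs (Module ℂ (Finset I →₀ ℂ))

/-- The standard basis. -/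
def fb (I : Type) : Module.Basis (Finset I) ℂ (Fock I) :=
  (Finsupp.basisSingleOne : Module.Basis (Finset I) ℂ (Finset I →₀ ℂ))

/-- Jordan-Wigner sign. -/
def sgn (D : Finset I) (j : I) : ℂ := (-1) ^ (D.filter (· < j)).card

/-- Toggle membership of `j`. -/
def tog (D : Finset I) (j : I) : Finset I := if j ∈ D then D.erase j else insert j D

lemma mem_tog (D : Finset I) (j i : I) : i ∈ tog D j ↔ (if i = j then j ∉ D else i ∈ D) := by
  unfold tog
  by_cases h : j ∈ D <;> by_cases hi : i = j <;> simp [h, hi]

lemma mem_tog_self (D : Finset I) (j : I) : j ∈ tog D j ↔ j ∉ D := by simp [mem_tog]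

lemma mem_tog_ne (D : Finset I) {j i : I} (h : i ≠ j) : i ∈ tog D j ↔ i ∈ D := by
  simp [mem_tog, h]

lemma tog_tog (D : Finset I) (j : I) : tog (tog D j) j = D := by
  ext i; by_cases hi : i = j
  · subst hi; simp [mem_tog]
  · simp [mem_tog, hi]

lemma tog_comm (D : Finset I) (i j : I) : tog (tog D i) j = tog (tog D j) i := by
  ext k
  by_cases hij : i = j
  · subst hij; rfl
  · by_cases h1 : k = i <;> by_cases h2 : k = j <;> simp_all [mem_tog, Ne.symm]

lemma sgn_tog_le (D : Finset I) {i j : I} (h : i ≤ j) : sgn (tog D j) i = sgn D i := by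
  unfold sgn
  congr 2
  ext k
  simp only [mem_filter]
  constructor
  · rintro ⟨h1, h2⟩
    exact ⟨(mem_tog_ne D (ne_of_lt (lt_of_lt_of_le h2 h))).1 h1, h2⟩
  · rintro ⟨h1, h2⟩
    exact ⟨(mem_tog_ne D (ne_of_lt (lt_of_lt_of_le h2 h))).2 h1, h2⟩

lemma sgn_tog_lt (D : Finset I) {i j : I} (h : i < j) : sgn (tog D i) j = - sgn D j := by
  unfold sgn tog
  by_cases hi : i ∈ D
  · rw [if_pos hi, filter_erase]
    have hm : i ∈ D.filter (· < j) := by simp [hi, h]
    rw [← card_erase_add_one hm, pow_succ]; ring
  · rw [if_neg hi, filter_insert, if_pos h, card_insert_of_notMem (by simp [hi]), pow_succ]; ring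

lemma sgn_mul_self (D : Finset I) (j : I) : sgn D j * sgn D j = 1 := by
  unfold sgn; rw [← mul_pow]; simp

lemma sgn_ne_zero (D : Finset I) (j : I) : sgn D j ≠ 0 := by
  unfold sgn; simp

lemma conj_sgn (D : Finset I) (j : I) : (starRingEnd ℂ) (sgn D j) = sgn D j := by
  unfold sgn; simp

/-- Basis vector. -/
def bv (D : Finset I) : Fock I := fb I D

/-- Coefficient of a basis vector. -/
def co (x : Fock I) (D : Finset I) : ℂ := (fb I).repr x D

omit [LinearOrder I] in
@[simp] lemma co_add (x y : Fock I) (D : Finset I) : co (x + y) D = co x D + co y D := by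
  simp [co]

omit [LinearOrder I] in
@[simp] lemma co_smul (c : ℂ) (x : Fock I) (D : Finset I) : co (c • x) D = c * co x D := by
  simp [co]

omit [LinearOrder I] in
@[simp] lemma co_zero (D : Finset I) : co (0 : Fock I) D = 0 := by
  simp [co]

omit [LinearOrder I] in
lemma co_ext {x y : Fock I} (h : ∀ D, co x D = co y D) : x = y :=
  (fb I).ext_elem h

/-- The fermion operator toggling `j`, acting on states where `j ∈ D` has truth value `b`. -/
def cl (j : I) (b : Bool) : Module.End ℂ (Fock I) :=
  (fb I).constr ℂ
    (fun D => if decide (j ∈ D) = b then sgn D j • bv (tog D j) else 0)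

lemma cl_bv (j : I) (b : Bool) (D : Finset I) :
    cl j b (bv D) = if decide (j ∈ D) = b then sgn D j • bv (tog D j) else 0 := by
  simp [cl, bv]

omit [LinearOrder I] in
lemma end_ext {M : Type*} [AddCommGroup M] [Module ℂ M] {A B : Fock I →ₗ[ℂ] M}
    (h : ∀ D, A (bv D) = B (bv D)) : A = B := by
  exact (fb I).ext h

omit [LinearOrder I] in
lemma fock_induction {P : Fock I → Prop} (h0 : P 0) (hadd : ∀ x y, P x → P y → P (x + y))
    (hb : ∀ (c : ℂ) D, P (c • bv D)) (x : Fock I) : P x := by
  obtain ⟨z, rfl⟩ := (fb I).repr.symm.surjective x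
  induction z using Finsupp.induction_linear with
  | zero => simpa using h0
  | add x y hx hy => simpa using hadd _ _ hx hy
  | single D c => simpa [bv] using hb c D

lemma cl_anti {i j : I} (h : i ≠ j) (b c : Bool) : cl i b * cl j c = - (cl j c * cl i b) := by
  wlog hlt : i < j generalizing i j b c
  · have := this (Ne.symm h) c b (lt_of_le_of_ne (not_lt.1 hlt) (Ne.symm h))
    rw [this]; exact (neg_neg (cl i b * cl j c)).symm
  apply end_ext; intro D
  simp only [Module.End.mul_apply, LinearMap.neg_apply, cl_bv]
  by_cases h1 : decide (j ∈ D) = c <;> by_cases h2 : decide (i ∈ D) = b <;>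
    simp [h1, h2, cl_bv, mem_tog_ne D h, mem_tog_ne D (Ne.symm h), sgn_tog_le D hlt.le,
      sgn_tog_lt D hlt, tog_comm D i j, smul_smul, mul_comm]

lemma cl_sq (j : I) (b : Bool) : cl j b * cl j b = 0 := by
  apply end_ext; intro D
  simp only [Module.End.mul_apply, cl_bv, LinearMap.zero_apply]
  by_cases h1 : decide (j ∈ D) = b
  · simp only [h1, if_true, map_smul, cl_bv, mem_tog_self]
    by_cases hj : j ∈ D <;> simp_all
  · simp [h1]

lemma cl_car (j : I) (b : Bool) : cl j b * cl j (!b) + cl j (!b) * cl j b = 1 := by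
  apply end_ext; intro D
  simp only [Module.End.mul_apply, LinearMap.add_apply, cl_bv, Module.End.one_apply]
  by_cases hj : j ∈ D <;> cases b <;>
    simp [hj, cl_bv, mem_tog_self, tog_tog, sgn_tog_le D (le_refl j), smul_smul, sgn_mul_self]

/-- The Hermitian form in which the basis vectors are orthonormal. -/
def ip (x y : Fock I) : ℂ := ((fb I).repr x).sum fun D c => (starRingEnd ℂ) c * co y D

omit [LinearOrder I] in
lemma ip_add_left (x x' y : Fock I) : ip (x + x') y = ip x y + ip x' y := by
  unfold ip
  rw [map_add, Finsupp.sum_add_index']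
  · simp
  · intro a b c; simp [add_mul]

omit [LinearOrder I] in
lemma ip_add_right (x y y' : Fock I) : ip x (y + y') = ip x y + ip x y' := by
  unfold ip; simp [mul_add, Finsupp.sum, sum_add_distrib]

omit [LinearOrder I] in
lemma ip_smul_right (c : ℂ) (x y : Fock I) : ip x (c • y) = c * ip x y := by
  unfold ip; simp [Finsupp.sum, mul_sum, mul_left_comm]

omit [LinearOrder I] in
lemma ip_smul_left (c : ℂ) (x y : Fock I) : ip (c • x) y = (starRingEnd ℂ) c * ip x y := by
  unfold ip
  rw [map_smul, Finsupp.sum_smul_index']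
  · simp [Finsupp.sum, mul_sum, mul_assoc]
  · simp

omit [LinearOrder I] in
@[simp] lemma ip_zero_left (y : Fock I) : ip 0 y = 0 := by simp [ip]

omit [LinearOrder I] in
@[simp] lemma ip_zero_right (x : Fock I) : ip x 0 = 0 := by simp [ip]

omit [LinearOrder I] in
lemma ip_bv_left (D : Finset I) (y : Fock I) : ip (bv D) y = co y D := by
  simp [ip, bv]

lemma bv_apply (D D' : Finset I) : co (bv D) D' = if D = D' then 1 else 0 := by
  simp [bv, co, Finsupp.single_apply]

lemma ip_conj (x y : Fock I) : (starRingEnd ℂ) (ip x y) = ip y x := by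
  induction x using fock_induction with
  | h0 => simp
  | hadd x x' hx hx' => simp [ip_add_left, ip_add_right, hx, hx']
  | hb c D =>
    induction y using fock_induction with
    | h0 => simp
    | hadd y y' hy hy' => simp [ip_add_left, ip_add_right, hy, hy']
    | hb c' D' =>
      simp only [ip_smul_left, ip_smul_right, ip_bv_left, bv_apply]
      by_cases h : D = D'
      · subst h; simp [mul_comm]
      · simp [h, Ne.symm h]

omit [LinearOrder I] in
lemma ip_self_eq_zero {x : Fock I} (h : ip x x = 0) : x = 0 := by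
  unfold ip Finsupp.sum at h
  have h2 : ∑ D ∈ ((fb I).repr x).support, Complex.normSq (co x D) = 0 := by
    have : ((∑ D ∈ ((fb I).repr x).support, Complex.normSq (co x D) : ℝ) : ℂ) = 0 := by
      rw [← h]; push_cast
      exact sum_congr rfl fun D _ => by rw [Complex.normSq_eq_conj_mul_self]; rfl
    exact_mod_cast this
  rw [sum_eq_zero_iff_of_nonneg (fun D _ => Complex.normSq_nonneg _)] at h2
  apply co_ext; intro D
  by_cases hD : D ∈ ((fb I).repr x).support
  · simpa using h2 D hD
  · simpa [co] using hD

/-- `B` is the adjoint of `A`. -/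
def Adj (A B : Module.End ℂ (Fock I)) : Prop := ∀ x y, ip (A x) y = ip x (B y)

lemma Adj.symm {A B : Module.End ℂ (Fock I)} (h : Adj A B) : Adj B A := by
  intro x y
  rw [← ip_conj, ← h, ip_conj]

omit [LinearOrder I] in
lemma Adj.mul {A B C D : Module.End ℂ (Fock I)} (h : Adj A B) (h' : Adj C D) :
    Adj (A * C) (D * B) := by
  intro x y; simp only [Module.End.mul_apply]; rw [h, h']

omit [LinearOrder I] in
lemma adj_of_bv {A B : Module.End ℂ (Fock I)}
    (h : ∀ D D', ip (A (bv D)) (bv D') = ip (bv D) (B (bv D'))) : Adj A B := by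
  intro x y
  induction x using fock_induction with
  | h0 => simp
  | hadd x x' hx hx' => simp [ip_add_left, hx, hx']
  | hb c D =>
    induction y using fock_induction with
    | h0 => simp
    | hadd y y' hy hy' =>
      simp only [map_add, ip_add_right, hy, hy']
    | hb c' D' => simp only [map_smul, ip_smul_left, ip_smul_right, h]

lemma adj_cl (j : I) (b : Bool) : Adj (cl j b) (cl j (!b)) := by
  apply adj_of_bv
  intro D D'
  rw [cl_bv, cl_bv]
  by_cases hD : D' = tog D j
  · subst hD
    by_cases hj : j ∈ D <;> cases b <;>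
      simp [hj, mem_tog_self, tog_tog, ip_smul_left, ip_smul_right, ip_bv_left, bv_apply,
        conj_sgn, sgn_tog_le D (le_refl j)]
  · have hD' : ¬ tog D' j = D := fun h => hD (by rw [← h, tog_tog])
    split_ifs <;>
      simp [ip_smul_left, ip_smul_right, ip_bv_left, bv_apply, hD, hD']

/-- Schur's lemma for the Clifford module. -/
lemma schur (X : Module.End ℂ (Fock I)) (h : ∀ j b, X * cl j b = cl j b * X) :
    ∃ c : ℂ, X = c • (1 : Module.End ℂ (Fock I)) := by
  set z := X (bv ∅) with hz
  have h1 : ∀ j, cl j true z = 0 := by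
    intro j
    have := LinearMap.congr_fun (h j true) (bv ∅)
    simp only [Module.End.mul_apply, cl_bv] at this
    simpa using this.symm
  have h2 : ∀ D, D ≠ ∅ → co z D = 0 := by
    intro D hD
    obtain ⟨j, hj⟩ := nonempty_iff_ne_empty.2 hD
    have h3 := (adj_cl j false) (bv (tog D j)) z
    simp only [Bool.not_false, h1, ip_zero_right, cl_bv, mem_tog_self, hj, tog_tog] at h3
    simpa [ip_smul_left, ip_bv_left, conj_sgn, sgn_ne_zero] using h3
  have h3 : z = co z ∅ • bv ∅ := by
    apply co_ext; intro D
    by_cases hD : D = ∅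
    · subst hD; simp [bv_apply]
    · simp [bv_apply, h2 D hD, Ne.symm hD]
  refine ⟨co z ∅, end_ext fun D => ?_⟩
  induction D using Finset.induction_on with
  | empty => simpa using h3
  | insert j D hj ih =>
    have h4 : bv (insert j D) = sgn D j • cl j false (bv D) := by
      simp [cl_bv, hj, tog, smul_smul, sgn_mul_self]
    have h5 := LinearMap.congr_fun (h j false) (bv D)
    simp only [Module.End.mul_apply] at h5
    rw [h4, map_smul, h5, ih]
    simp

end Pool.Agent.Lib.MP_b2f51a_al
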