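import Pool.Agent.Lib.MP_b2f51a_al.Currents
import Pool.Agent.Lib.MP_b2f51a_al.Demazure

/-! Linear independence of the Gordon monomials on the highest weight vector of weight
`ω_0 + 2 ω_1` in the Fock space. -/

noncomputable section

namespace Pool.Agent.Lib.MP_b2f51a_al

open Finset MvPolynomial

/-- A term of the current: colour, position of the particle, position of the hole. -/
abbrev Tm : Type := Fin 3 × ℤ × ℤ

/-- The particle created. -/
def par (t : Tm) : Fin 3 × ℤ := (t.1, t.2.1)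

/-- The hole created. -/
def hol (t : Tm) : Fin 3 × ℤ := (t.1, t.2.2)

/-- The mode. -/
def mode (t : Tm) : ℤ := t.2.2 - t.2.1

/-- The operator of a term. -/
def AT (t : Tm) : Module.End ℂ Fk := At true t.1 t.2.1 t.2.2

/-- The product of the operators of a list of terms. -/
def AL (L : List Tm) : Module.End ℂ Fk := (L.map AT).prod

lemma AT_comm (s t : Tm) : Commute (AT s) (AT t) := by
  have h : ∀ s t : Tm, AT s * AT t =
      -(psi ⟨true, s.1, s.2.1⟩ * psi ⟨true, t.1, t.2.1⟩ *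
        (psis ⟨false, s.1, s.2.2⟩ * psis ⟨false, t.1, t.2.2⟩)) := by
    intro s t
    simp only [AT, At, Bool.not_true]
    rw [mul_assoc, ← mul_assoc (psis _), psis_psi, if_neg (by simp)]; noncomm_ring
  change _ * _ = _ * _
  rw [h s t, h t s, psi_psi ⟨true, s.1, s.2.1⟩, psis_psis ⟨false, s.1, s.2.2⟩]; noncomm_ring

lemma AL_perm {L L' : List Tm} (h : L.Perm L') : AL L = AL L' := by
  refine (h.map AT).prod_eq' ?_
  rw [List.pairwise_map]
  exact List.pairwise_of_forall AT_comm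

/-- Admissible lists of terms. -/
def Ok (D0 : Finset Ix) (L : List Tm) : Prop :=
  (L.map par).Nodup ∧ (L.map hol).Nodup ∧
    ∀ t ∈ L, ¬ occ D0 ⟨true, t.1, t.2.1⟩ ∧ occ D0 ⟨false, t.1, t.2.2⟩

/-- The resulting state. -/
def Res (D0 : Finset Ix) (L : List Tm) (D : Finset Ix) : Prop :=
  ∀ r a, (occ D ⟨true, r, a⟩ ↔ occ D0 ⟨true, r, a⟩ ∨ (r, a) ∈ L.map par) ∧
    (occ D ⟨false, r, a⟩ ↔ occ D0 ⟨false, r, a⟩ ∧ (r, a) ∉ L.map hol)

lemma AL_bv (D0 : Finset Ix) (L : List Tm) :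
    (Ok D0 L → ∃ c D, c ≠ (0 : ℂ) ∧ AL L (bv D0) = c • bv D ∧ Res D0 L D) ∧
      (¬ Ok D0 L → AL L (bv D0) = 0) := by
  induction L with
  | nil => exact ⟨fun _ => ⟨1, D0, one_ne_zero, by simp [AL], by simp [Res]⟩,
      fun h => absurd (by simp [Ok]) h⟩
  | cons t L ih =>
    have e : AL (t :: L) (bv D0) = AT t (AL L (bv D0)) := by simp [AL]
    by_cases hL : Ok D0 L
    · obtain ⟨c, D, hc, h1, h2⟩ := ih.1 hL
      have iff : Ok D0 (t :: L) ↔ occ D ⟨false, t.1, t.2.2⟩ ∧ ¬ occ D ⟨true, t.1, t.2.1⟩ := by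
        rw [(h2 _ _).1, (h2 _ _).2]
        simp only [Ok, List.map_cons, List.nodup_cons, List.forall_mem_cons, hL.1, hL.2.1,
          and_true, par, hol]
        have := hL.2.2
        tauto
      rw [e, h1, map_smul, AT, At_bv]
      simp only [Bool.not_true]
      constructor
      · intro h
        rw [if_pos (iff.1 h), smul_smul]
        refine ⟨_, _, mul_ne_zero hc (mul_ne_zero (sgn_ne_zero _ _) (sgn_ne_zero _ _)), rfl, ?_⟩
        intro r a
        obtain ⟨h3, h4⟩ := iff.1 h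
        constructor
        · by_cases hp : (r, a) = par t
          · simp only [par, Prod.mk.injEq] at hp
            obtain ⟨rfl, rfl⟩ := hp
            rw [occ_tog_self, occ_tog_ne _ (by simp)]
            simp only [par, List.map_cons, List.mem_cons, true_or, or_true, iff_true]
            exact h4
          · rw [occ_tog_ne _ (by simpa [par] using hp), occ_tog_ne _ (by simp), (h2 _ _).1]
            simp [hp]
        · rw [occ_tog_ne _ (by simp)]
          by_cases hp : (r, a) = hol t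
          · simp only [hol, Prod.mk.injEq] at hp
            obtain ⟨rfl, rfl⟩ := hp
            rw [occ_tog_self]
            simp only [hol, List.map_cons, List.mem_cons, true_or, not_true, and_false, iff_false,
              not_not]
            exact h3
          · rw [occ_tog_ne _ (by simpa [hol] using hp), (h2 _ _).2]
            simp [hp]
      · intro h
        rw [if_neg (fun h' => h (iff.2 h')), smul_zero]
    · constructor
      · intro h
        exact absurd ⟨(List.nodup_cons.1 h.1).2, (List.nodup_cons.1 h.2.1).2,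
          fun s hs => h.2.2 s (List.mem_cons_of_mem _ hs)⟩ hL
      · intro _; rw [e, ih.2 hL, map_zero]

lemma Res.perm {D0 D : Finset Ix} {L L' : List Tm} (h : Ok D0 L) (h' : Ok D0 L')
    (r : Res D0 L D) (r' : Res D0 L' D) :
    (L.map par).Perm (L'.map par) ∧ (L.map hol).Perm (L'.map hol) := by
  have k1 : ∀ {L L' : List Tm}, Ok D0 L → Res D0 L D → Res D0 L' D →
      ∀ x ∈ L.map par, x ∈ L'.map par := by
    intro L L' h r r' x hx
    have h1 := (r' x.1 x.2).1.1 ((r x.1 x.2).1.2 (Or.inr hx))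
    obtain ⟨t, ht, rfl⟩ := List.mem_map.1 hx
    exact h1.resolve_left (h.2.2 t ht).1
  have k2 : ∀ {L L' : List Tm}, Ok D0 L → Res D0 L D → Res D0 L' D →
      ∀ x ∈ L.map hol, x ∈ L'.map hol := by
    intro L L' h r r' x hx
    by_contra hc
    obtain ⟨t, ht, rfl⟩ := List.mem_map.1 hx
    exact ((r _ _).2.1 ((r' _ _).2.2 ⟨(h.2.2 t ht).2, hc⟩)).2 hx
  exact ⟨(List.perm_ext_iff_of_nodup h.1 h'.1).2 fun x => ⟨k1 h r r' x, k1 h' r' r x⟩,
    (List.perm_ext_iff_of_nodup h.2.1 h'.2.1).2 fun x => ⟨k2 h r r' x, k2 h' r' r x⟩⟩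

/-- Product of currents. -/
def EL (ns : List ℤ) : Module.End ℂ Fk := (ns.map (JF true)).prod

lemma EL_expand (v : Fk) (ns : List ℤ) : ∃ s : Finset (List Tm), (∀ L ∈ s, L.map mode = ns) ∧
    (∀ L, L.map mode = ns → AL L v ≠ 0 → L ∈ s) ∧ EL ns v = ∑ L ∈ s, AL L v := by
  induction ns with
  | nil => exact ⟨{[]}, by simp, by simp +contextual, by simp [EL, AL]⟩
  | cons n ns ih =>
    obtain ⟨s, h1, h2, h3⟩ := ih
    let Z : List Tm → Finset (Fin 3 × ℤ) := fun L => (locFin_At true n (AL L v)).toFinset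
    refine ⟨(s.sigma Z).image fun x => (x.2.1, x.2.2 - n, x.2.2) :: x.1, ?_, ?_, ?_⟩
    · intro L hL
      obtain ⟨x, hx, rfl⟩ := mem_image.1 hL
      simp [mode, h1 _ (mem_sigma.1 hx).1]
    · intro L hL hne
      obtain _ | ⟨t, L⟩ := L
      · simp at hL
      simp only [List.map_cons, List.cons.injEq] at hL
      have e : AL (t :: L) v = AT t (AL L v) := by simp [AL]
      have e2 : t.2.2 - n = t.2.1 := by have := hL.1; unfold mode at this; omega
      refine mem_image.2 ⟨⟨L, (t.1, t.2.2)⟩, mem_sigma.2 ⟨h2 L hL.2 ?_, ?_⟩, by simp [e2]⟩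
      · intro h0; rw [e, h0, map_zero] at hne; exact hne rfl
      · simp only [Z, Set.Finite.mem_toFinset, Function.mem_support, e2]
        rwa [e] at hne
    · rw [sum_image, sum_sigma]
      · have : EL (n :: ns) v = JF true n (EL ns v) := by simp [EL]
        rw [this, h3, map_sum]
        refine sum_congr rfl fun L _ => ?_
        rw [JF, lsum_apply_of (locFin_At true n) _ (Z L) (by intro p hp; simpa [Z] using hp)]
        exact sum_congr rfl fun p _ => by simp [AL, AT]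
      · rintro ⟨L, r, m⟩ _ ⟨L', r', m'⟩ _ h
        simp only [List.cons.injEq, Prod.mk.injEq] at h
        obtain ⟨⟨rfl, -, rfl⟩, rfl⟩ := h
        rfl

/-- Exponent vector of a list. -/
def ff (js : List ℕ) : ℕ →₀ ℕ := Multiset.toFinsupp (js : Multiset ℕ)

lemma ff_cons (j : ℕ) (js : List ℕ) : ff (j :: js) = Finsupp.single j 1 + ff js := by
  unfold ff
  rw [← Multiset.cons_coe, ← Multiset.singleton_add, Multiset.toFinsupp_add,
    Multiset.toFinsupp_singleton]

lemma cur_monomial (t0 : ℤ) (js : List ℕ) :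
    fockRep.cur t0 (monomial (ff js) 1) = EL (js.map fun j : ℕ => t0 - j) := by
  induction js with
  | nil => simp [ff, EL]
  | cons j js ih =>
    have : monomial (ff (j :: js)) (1 : ℂ) = X j * monomial (ff js) 1 := by
      rw [ff_cons, X, monomial_mul, one_mul]
    rw [this, map_mul, ih, LoopRep.cur_X]
    simp [EL, fockRep]

lemma weight_ff (g : ℕ → ℤ) (js : List ℕ) : Finsupp.weight g (ff js) = (js.map g).sum := by
  induction js with
  | nil => simp [ff]
  | cons j js ih => rw [ff_cons, map_add, ih]; simp [Finsupp.weight_single]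

lemma exists_ff (b : ℕ →₀ ℕ) : ∃ js, ff js = b :=
  ⟨(Finsupp.toMultiset b).toList, by simp [ff]⟩

/-- Sum of the squares of the modes. -/
def sqL (L : List Tm) : ℤ := (L.map fun t => mode t ^ 2).sum

/-- Balanced terms. -/
def Bal (t : Tm) : Prop := t.2.2 + t.2.1 = 0 ∨ t.2.2 + t.2.1 = -1

lemma sqL_eq (L : List Tm) : sqL L =
    ((L.map par).map fun x => 2 * x.2 ^ 2 + x.2).sum +
      ((L.map hol).map fun x => 2 * x.2 ^ 2 + x.2).sum -
      (L.map fun t => (t.2.2 + t.2.1) * (t.2.2 + t.2.1 + 1)).sum := by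
  induction L with
  | nil => simp [sqL]
  | cons t L ih =>
    simp only [sqL, List.map_cons, List.sum_cons] at ih ⊢
    rw [ih]; simp only [mode, par, hol]; ring

lemma consec_nonneg (x : ℤ) : 0 ≤ x * (x + 1) := by
  by_cases h : 0 ≤ x
  · exact mul_nonneg h (by omega)
  · exact mul_nonneg_of_nonpos_of_nonpos (by omega) (by omega)

lemma bal_sum (L : List Tm) :
    0 ≤ (L.map fun t => (t.2.2 + t.2.1) * (t.2.2 + t.2.1 + 1)).sum ∧
    ((L.map fun t => (t.2.2 + t.2.1) * (t.2.2 + t.2.1 + 1)).sum = 0 ↔ ∀ t ∈ L, Bal t) := by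
  induction L with
  | nil => simp
  | cons t L ih =>
    have h := consec_nonneg (t.2.2 + t.2.1)
    have h' : (t.2.2 + t.2.1) * (t.2.2 + t.2.1 + 1) = 0 ↔ Bal t := by
      rw [mul_eq_zero, Bal]; omega
    simp only [List.map_cons, List.sum_cons, List.forall_mem_cons]
    refine ⟨by linarith [ih.1], ?_⟩
    rw [← h', ← ih.2]
    constructor
    · intro h0; constructor <;> linarith [ih.1]
    · rintro ⟨h1, h2⟩; rw [h1, h2]; rfl

lemma bal_unique {L L' : List Tm} (n1 : (L.map par).Nodup) (n2 : (L.map hol).Nodup)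
    (n1' : (L'.map par).Nodup) (n2' : (L'.map hol).Nodup)
    (p1 : (L.map par).Perm (L'.map par)) (p2 : (L.map hol).Perm (L'.map hol))
    (b : ∀ t ∈ L, Bal t) (b' : ∀ t ∈ L', Bal t)
    (pos : ∀ t ∈ L, mode t < 0) (pos' : ∀ t ∈ L', mode t < 0) : L.Perm L' := by
  have step : ∀ {L L' : List Tm}, (L.map par).Nodup → (L.map hol).Nodup →
      (L.map par).Perm (L'.map par) → (L.map hol).Perm (L'.map hol) →
      (∀ t ∈ L, Bal t) → (∀ t ∈ L', Bal t) → ∀ t ∈ L,
      (∀ s ∈ L', mode t < mode s → s ∈ L) → t ∈ L' := by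
    intro L L' n1 n2 p1 p2 b b' t ht ih
    obtain ⟨s1, hs1, e1⟩ := List.mem_map.1 (p1.subset (List.mem_map_of_mem (f := par) ht))
    obtain ⟨s2, hs2, e2⟩ := List.mem_map.1 (p2.subset (List.mem_map_of_mem (f := hol) ht))
    by_contra hc
    have d1 : s1 ≠ t := fun h => hc (h ▸ hs1)
    have d2 : s2 ≠ t := fun h => hc (h ▸ hs2)
    have i1 : ¬ mode t < mode s1 := fun h =>
      d1 (List.inj_on_of_nodup_map n1 (ih s1 hs1 h) ht e1)
    have i2 : ¬ mode t < mode s2 := fun h =>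
      d2 (List.inj_on_of_nodup_map n2 (ih s2 hs2 h) ht e2)
    have c0 := b t ht
    have c1 := b' s1 hs1
    have c2 := b' s2 hs2
    obtain ⟨r, a, m⟩ := t
    obtain ⟨r1, a1, m1⟩ := s1
    obtain ⟨r2, a2, m2⟩ := s2
    simp only [par, hol, Prod.mk.injEq, mode, Bal, ne_eq] at e1 e2 d1 d2 i1 i2 c0 c1 c2
    omega
  have key : ∀ n : ℕ, ∀ t : Tm, (-mode t).toNat = n → (t ∈ L → t ∈ L') ∧ (t ∈ L' → t ∈ L) := by
    intro n
    induction n using Nat.strong_induction_on with
    | _ n ih =>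
    intro t hn
    constructor
    · intro ht
      refine step n1 n2 p1 p2 b b' t ht fun s hs h => (ih _ ?_ s rfl).2 hs
      have := pos t ht; omega
    · intro ht
      refine step n1' n2' p1.symm p2.symm b' b t ht fun s hs h => (ih _ ?_ s rfl).1 hs
      have := pos' t ht; omega
  exact (List.perm_ext_iff_of_nodup (List.Nodup.of_map _ n1) (List.Nodup.of_map _ n1')).2
    fun t => ⟨(key _ t rfl).1, (key _ t rfl).2⟩

/-- The state of the highest weight vector of weight `ω_0 + 2 ω_1`. -/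
def Dnu : Finset Ix := {⟨true, 1, 0⟩, ⟨true, 2, 0⟩}

lemma occ_Dnu_true (r : Fin 3) (a : ℤ) : occ Dnu ⟨true, r, a⟩ ↔ a < 0 ∨ (a = 0 ∧ r ≠ 0) := by
  unfold occ Dnu
  fin_cases r <;> simp <;> omega

lemma occ_Dnu_false (r : Fin 3) (a : ℤ) : occ Dnu ⟨false, r, a⟩ ↔ a < 0 := by
  unfold occ Dnu
  simp

lemma Ok.pos {L : List Tm} (h : Ok Dnu L) : ∀ t ∈ L, mode t < 0 := by
  intro t ht
  have := h.2.2 t ht
  rw [occ_Dnu_true, occ_Dnu_false] at this
  unfold mode; omega

lemma core {L0 L : List Tm} {D : Finset Ix} (h0 : Ok Dnu L0) (r0 : Res Dnu L0 D)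
    (b0 : ∀ t ∈ L0, Bal t) (h : co (AL L (bv Dnu)) D ≠ 0) :
    sqL L ≤ sqL L0 ∧ (sqL L = sqL L0 → L.Perm L0) := by
  have hL : Ok Dnu L := by
    by_contra hc
    rw [(AL_bv _ _).2 hc] at h; exact h (co_zero _)
  obtain ⟨c, D', -, h1, r⟩ := (AL_bv _ _).1 hL
  have : D' = D := by
    by_contra hc
    rw [h1, co_smul, bv_apply, if_neg hc, mul_zero] at h; exact h rfl
  subst this
  obtain ⟨p1, p2⟩ := Res.perm hL h0 r r0
  have e := sqL_eq L
  rw [(p1.map _).sum_eq, (p2.map _).sum_eq] at e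
  have e0 := sqL_eq L0
  rw [(bal_sum L0).2.2 b0] at e0
  have := (bal_sum L).1
  refine ⟨by linarith, fun he => ?_⟩
  exact bal_unique hL.1 hL.2.1 h0.1 h0.2.1 p1 p2 ((bal_sum L).2.1 (by linarith)) b0 hL.pos h0.pos

/-- Colours of the parts equal to `j`. -/
def col (t0 : ℕ) (a : ℕ →₀ ℕ) (j : ℕ) : Finset (Fin 3) :=
  if (j + t0) % 2 = 1 then univ.filter fun r => r.val < a j
  else univ.filter fun r => 3 ≤ r.val + a j

lemma card_col (t0 : ℕ) (a : ℕ →₀ ℕ) (j : ℕ) (h : a j ≤ 3) : (col t0 a j).card = a j := by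
  unfold col
  generalize a j = k at h
  split_ifs <;> interval_cases k <;> decide

lemma exists_ref {t0 : ℕ} {a : ℕ →₀ ℕ} (ha : LoopRep.Gordon t0 a) :
    ∃ (js : List ℕ) (L0 : List Tm), ff js = a ∧ L0.map mode = js.map (fun j : ℕ => (t0 : ℤ) - j) ∧
      Ok Dnu L0 ∧ ∀ t ∈ L0, Bal t := by
  let Θ := a.support.sigma (col t0 a)
  let τ : (Σ _ : ℕ, Fin 3) → Tm := fun x =>
    (x.2, ((x.1 : ℤ) - t0) / 2, -(((x.1 : ℤ) - t0 + 1) / 2))
  have hΘ : ∀ x ∈ Θ, t0 < x.1 ∧ (x.1 = t0 + 1 → x.2 = 0) := by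
    rintro ⟨j, r⟩ hx
    obtain ⟨h1, h2⟩ := mem_sigma.1 hx
    simp only [Finsupp.mem_support_iff] at h1
    refine ⟨by by_contra hc; exact h1 (ha.1 j (by simpa using hc)), ?_⟩
    rintro rfl
    have h3 := ha.2.1
    simp only [col] at h2
    rw [if_pos (by omega)] at h2
    simp only [mem_filter, mem_univ, true_and] at h2
    exact Fin.ext (by simp; omega)
  have hgap : ∀ x ∈ Θ, ∀ y ∈ Θ, x.2 = y.2 → y.1 ≠ x.1 + 1 := by
    rintro ⟨j, r⟩ hx ⟨j', r'⟩ hy rfl rfl
    have h1 := (mem_sigma.1 hx).2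
    have h2 := (mem_sigma.1 hy).2
    have h3 := ha.2.2 j
    simp only [col] at h1 h2
    split_ifs at h1 h2 <;> simp only [mem_filter, mem_univ, true_and] at h1 h2 <;> omega
  refine ⟨Θ.toList.map (·.1), Θ.toList.map τ, ?_, ?_, ⟨?_, ?_, ?_⟩, ?_⟩
  · ext j
    have e : ((Θ.toList.map (·.1) : List ℕ) : Multiset ℕ) = Θ.val.map (·.1) := by
      rw [← Multiset.map_coe, Finset.coe_toList]
    rw [ff, e, Multiset.toFinsupp_apply, Multiset.count_map, ← filter_val, card_val, filter_sigma,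
      card_sigma, sum_eq_single j]
    · simp only [filter_true]
      exact card_col _ _ _ (by have := ha.2.2 j; omega)
    · intro i _ hi; simp [Ne.symm hi]
    · intro hj
      simp only [filter_true]
      rw [card_col _ _ _ (by have := ha.2.2 j; omega)]
      simpa using hj
  · simp only [List.map_map]
    refine List.map_congr_left fun x _ => ?_
    simp only [Function.comp, mode, τ]; omega
  · rw [List.map_map]
    refine List.Nodup.map_on ?_ (nodup_toList _)
    rintro ⟨j, r⟩ hx ⟨j', r'⟩ hy h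
    rw [mem_toList] at hx hy
    simp only [Function.comp, par, τ, Prod.mk.injEq] at h
    obtain ⟨rfl, h⟩ := h
    have g1 := hgap _ hx _ hy rfl
    have g2 := hgap _ hy _ hx rfl
    have : j = j' := by simp only at g1 g2; omega
    subst this; rfl
  · rw [List.map_map]
    refine List.Nodup.map_on ?_ (nodup_toList _)
    rintro ⟨j, r⟩ hx ⟨j', r'⟩ hy h
    rw [mem_toList] at hx hy
    simp only [Function.comp, hol, τ, Prod.mk.injEq] at h
    obtain ⟨rfl, h⟩ := h
    have g1 := hgap _ hx _ hy rfl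
    have g2 := hgap _ hy _ hx rfl
    have : j = j' := by simp only at g1 g2; omega
    subst this; rfl
  · intro t ht
    obtain ⟨x, hx, rfl⟩ := List.mem_map.1 ht
    obtain ⟨h1, h2⟩ := hΘ x (mem_toList.1 hx)
    rw [occ_Dnu_true, occ_Dnu_false]
    simp only [τ]
    refine ⟨?_, by omega⟩
    rintro (h | ⟨h, h'⟩)
    · omega
    · exact h' (h2 (by omega))
  · intro t ht
    obtain ⟨x, hx, rfl⟩ := List.mem_map.1 ht
    simp only [Bal, τ]; omega

lemma co_sum {ι : Type*} (s : Finset ι) (x : ι → Fk) (D : Finset Ix) :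
    co (∑ i ∈ s, x i) D = ∑ i ∈ s, co (x i) D := by
  simp [co, Finsupp.finsetSum_apply]

lemma triangular {t0 : ℕ} {a : ℕ →₀ ℕ} (ha : LoopRep.Gordon t0 a) : ∃ D : Finset Ix,
    co (fockRep.cur t0 (monomial a 1) (bv Dnu)) D ≠ 0 ∧
    ∀ b, co (fockRep.cur t0 (monomial b 1) (bv Dnu)) D ≠ 0 → b = a ∨
      Finsupp.weight (fun j : ℕ => ((t0 : ℤ) - j) ^ 2) b <
        Finsupp.weight (fun j : ℕ => ((t0 : ℤ) - j) ^ 2) a := by
  obtain ⟨js0, L0, rfl, e0, h0, b0⟩ := exists_ref ha
  obtain ⟨c0, D, hc0, h1, r0⟩ := (AL_bv _ _).1 h0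
  have hsq : ∀ (L : List Tm) (js : List ℕ), L.map mode = js.map (fun j : ℕ => (t0 : ℤ) - j) →
      sqL L = Finsupp.weight (fun j : ℕ => ((t0 : ℤ) - j) ^ 2) (ff js) := by
    intro L js h
    have := congrArg (fun l => (l.map fun x : ℤ => x ^ 2).sum) h
    simp only [List.map_map] at this
    rw [weight_ff]; exact this
  refine ⟨D, ?_, ?_⟩
  · obtain ⟨s, s1, s2, s3⟩ := EL_expand (bv Dnu) (js0.map fun j : ℕ => (t0 : ℤ) - j)
    rw [cur_monomial, s3, co_sum, ← sum_filter_ne_zero]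
    have hv : co (AL L0 (bv Dnu)) D = c0 := by rw [h1, co_smul, bv_apply, if_pos rfl, mul_one]
    rw [sum_congr rfl (g := fun _ => c0), sum_const, nsmul_eq_mul]
    · refine mul_ne_zero ?_ hc0
      have : L0 ∈ s.filter fun L => co (AL L (bv Dnu)) D ≠ 0 := by
        refine mem_filter.2 ⟨s2 L0 e0 fun h => ?_, by rwa [hv]⟩
        rw [h, co_zero] at hv; exact hc0 hv.symm
      exact_mod_cast card_ne_zero_of_mem this
    · intro L hL
      obtain ⟨h2, h3⟩ := mem_filter.1 hL
      rw [AL_perm ((core h0 r0 b0 h3).2 (by rw [hsq L js0 (s1 L h2), hsq L0 js0 e0])), hv]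
  · intro b hb
    obtain ⟨js, rfl⟩ := exists_ff b
    obtain ⟨s, s1, -, s3⟩ := EL_expand (bv Dnu) (js.map fun j : ℕ => (t0 : ℤ) - j)
    rw [cur_monomial, s3, co_sum] at hb
    obtain ⟨L, hL, h3⟩ := exists_ne_zero_of_sum_ne_zero hb
    obtain ⟨k1, k2⟩ := core h0 r0 b0 h3
    rw [← hsq L js (s1 L hL), ← hsq L0 js0 e0]
    rcases k1.eq_or_lt with h | h
    · left
      have p := (k2 h).map mode
      rw [s1 L hL, e0, List.map_perm_map_iff (by intro x y h; simpa using h)] at p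
      unfold ff
      rw [Multiset.coe_eq_coe.2 p]
    · exact Or.inr h

theorem gordon_indep (t0 : ℕ) : LinearIndependent ℂ
    (fun b : {b // LoopRep.Gordon t0 b} => fockRep.cur t0 (dm b.1) (bv Dnu)) := by
  classical
  rw [linearIndependent_iff']
  intro s g hs i hi
  by_contra hne
  obtain ⟨a, ha, hmin⟩ := exists_min_image (s.filter fun i => g i ≠ 0)
    (fun b => Finsupp.weight (fun j : ℕ => ((t0 : ℤ) - j) ^ 2) b.1) ⟨i, mem_filter.2 ⟨hi, hne⟩⟩
  obtain ⟨D, h1, h2⟩ := triangular a.2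
  have e : ∀ b : ℕ →₀ ℕ, fockRep.cur t0 (dm b) (bv Dnu) =
      (fact b : ℂ)⁻¹ • fockRep.cur t0 (monomial b 1) (bv Dnu) := by
    intro b
    rw [← LinearMap.smul_apply, ← map_smul, smul_monomial, smul_eq_mul, mul_one, dm]
  have h3 := congrArg (fun x => co x D) hs
  simp only [co_sum, co_smul, co_zero, e] at h3
  rw [sum_eq_single a] at h3
  · exact mul_ne_zero (mem_filter.1 ha).2 (mul_ne_zero (inv_ne_zero (fact_ne_zero' _)) h1) h3
  · intro b hb hba
    by_contra hc
    have g1 := left_ne_zero_of_mul hc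
    rcases h2 b.1 (right_ne_zero_of_mul (right_ne_zero_of_mul hc)) with h | h
    · exact hba (Subtype.ext h)
    · exact absurd (hmin b (mem_filter.2 ⟨hb, g1⟩)) (not_le.2 h)
  · intro h; exact absurd (mem_filter.1 ha).1 h

end Pool.Agent.Lib.MP_b2f51a_al
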