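import Pool.Agent.Lib.MP_b2f51a_al.Loop

/-! Kostant's commutation formula for divided powers on weight vectors. -/

noncomputable section

namespace Pool.Agent.Lib.MP_b2f51a_al

open Finset

variable {M : Type*} [AddCommGroup M] [Module ℂ M]

/-- Integer binomial coefficient, as a complex number. -/
def ch (c : ℤ) (t : ℕ) : ℂ := ((Ring.choose c t : ℤ) : ℂ)

lemma factorial_mul_ch (c : ℤ) (t : ℕ) :
    (t.factorial : ℂ) * ch c t = (descPochhammer ℂ t).eval (c : ℂ) := by
  rw [← descPochhammer_eval_cast, Polynomial.eval_eq_smeval,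
    Ring.descPochhammer_eq_factorial_smul_choose, ch]
  simp

lemma ch_succ (c : ℤ) (t : ℕ) : ((t : ℂ) + 1) * ch c (t + 1) = (c - t) * ch c t := by
  have h : (t.factorial : ℂ) ≠ 0 := by exact_mod_cast Nat.factorial_ne_zero t
  apply mul_left_cancel₀ h
  have h1 := factorial_mul_ch c (t + 1)
  rw [descPochhammer_succ_eval, ← factorial_mul_ch, Nat.factorial_succ] at h1
  push_cast at h1
  linear_combination h1

lemma ch_pascal (c : ℤ) (t : ℕ) : ch (c + 1) (t + 1) = ch c t + ch c (t + 1) := by
  simp [ch, Ring.choose_succ_succ]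

@[simp] lemma ch_zero (c : ℤ) : ch c 0 = 1 := by simp [ch]

lemma binom_apply {h : Module.End ℂ M} {x : M} {m : ℤ} (hx : h x = (m : ℂ) • x) (k : ℕ) :
    binom h k x = ch m k • x := by
  have h0 : (k.factorial : ℂ) ≠ 0 := by exact_mod_cast Nat.factorial_ne_zero k
  rw [binom, LinearMap.smul_apply, Module.End.aeval_apply_of_mem_apply_eq_smul hx,
    ← factorial_mul_ch, smul_smul, ← mul_assoc, inv_mul_cancel₀ h0, one_mul]

lemma wt_apply {h X : Module.End ℂ M} {c m : ℂ} (hX : cm h X = c • X) {x : M}
    (hx : h x = m • x) : h (X x) = (m + c) • X x := by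
  have := LinearMap.congr_fun hX x
  simp only [cm, LinearMap.sub_apply, Module.End.mul_apply, hx, map_smul,
    LinearMap.smul_apply] at this
  rw [sub_eq_iff_eq_add.1 this]; module

lemma wt_dpow {h X : Module.End ℂ M} {c m : ℂ} (hX : cm h X = c • X) {x : M}
    (hx : h x = m • x) (k : ℕ) : h (dpow X k x) = (m + k * c) • dpow X k x := by
  have : h ((X ^ k) x) = (m + k * c) • (X ^ k) x := by
    induction k with
    | zero => simpa using hx
    | succ k ih =>
      rw [pow_succ', Module.End.mul_apply, wt_apply hX ih]; congr 1; push_cast; ring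
  simp only [dpow, LinearMap.smul_apply, map_smul, this]
  rw [smul_comm]

/-- Divided power with integer exponent. -/
def dz (X : Module.End ℂ M) (k : ℤ) : Module.End ℂ M := if k < 0 then 0 else dpow X k.toNat

@[simp] lemma dz_natCast (X : Module.End ℂ M) (k : ℕ) : dz X k = dpow X k := by
  have : ¬ (k : ℤ) < 0 := by omega
  simp [dz, this]

lemma DStab.dz {R : AddSubgroup M} {X : Module.End ℂ M} (h : DStab R X) (k : ℤ) :
    Stab R (dz X k) := by
  intro x hx
  unfold Pool.Agent.Lib.MP_b2f51a_al.dz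
  split_ifs
  · simp
  · exact h _ x hx

section sl2

variable {e f h : Module.End ℂ M} (hef : cm e f = h) (hf : cm h f = (-2 : ℂ) • f)
  (he : cm h e = (2 : ℂ) • e)

include hef hf in
lemma e_dpow_f {x : M} {m : ℂ} (hx : h x = m • x) (b : ℕ) :
    e (dpow f (b + 1) x) = dpow f (b + 1) (e x) + (m - b) • dpow f b x := by
  have k : ∀ y, e (f y) = f (e y) + h y := by
    intro y
    have := LinearMap.congr_fun hef y
    simp only [cm, LinearMap.sub_apply, Module.End.mul_apply] at this
    rw [← this]; abel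
  induction b with
  | zero => simp [k, hx]
  | succ b ih =>
    have hb : ((b : ℂ) + 1 + 1) ≠ 0 := by exact_mod_cast (by omega : b + 1 + 1 ≠ 0)
    apply smul_right_injective M hb
    have e1 : ∀ y, ((b : ℂ) + 1 + 1) • dpow f (b + 1 + 1) y = f (dpow f (b + 1) y) := by
      intro y
      have := LinearMap.congr_fun (mul_dpow f (b + 1)) y
      simp only [Module.End.mul_apply, LinearMap.smul_apply] at this
      rw [this]; push_cast; rfl
    have e2 : f (dpow f b x) = ((b : ℂ) + 1) • dpow f (b + 1) x := by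
      have := LinearMap.congr_fun (mul_dpow f b) x
      simpa only [Module.End.mul_apply, LinearMap.smul_apply] using this
    simp only
    rw [← map_smul, e1, k, ih, wt_dpow hf hx, smul_add, e1, map_add, map_smul, e2]
    push_cast; module

include hef hf in
lemma e_dz_f {x : M} {m : ℂ} (hx : h x = m • x) (b : ℤ) :
    e (dz f b x) = dz f b (e x) + (m - b + 1) • dz f (b - 1) x := by
  rcases lt_trichotomy b 0 with hb | hb | hb
  · have : b - 1 < 0 := by omega
    simp [dz, hb, this]
  · subst hb; simp [dz]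
  · obtain ⟨k, rfl⟩ : ∃ k : ℕ, b = (k + 1 : ℕ) := ⟨(b - 1).toNat, by omega⟩
    have : ((k + 1 : ℕ) : ℤ) - 1 = k := by omega
    rw [this, dz_natCast, dz_natCast, e_dpow_f hef hf hx]
    push_cast; congr 2; ring

include hef hf he in
theorem kostant {x : M} {m : ℤ} (hx : h x = (m : ℂ) • x) (a : ℕ) (b : ℤ) :
    dpow e a (dz f b x) =
      ∑ t ∈ range (a + 1), ch (m + a - b) t • dz f (b - t) (dpow e (a - t) x) := by
  induction a with
  | zero => simp
  | succ a ih =>
    have ha : ((a : ℂ) + 1) ≠ 0 := by exact_mod_cast (by omega : a + 1 ≠ 0)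
    apply smul_right_injective M ha
    have e1 : ∀ (k : ℕ) y, e (dpow e k y) = ((k : ℂ) + 1) • dpow e (k + 1) y := by
      intro k y
      have := LinearMap.congr_fun (mul_dpow e k) y
      simpa only [Module.End.mul_apply, LinearMap.smul_apply] using this
    simp only
    rw [← e1, ih, map_sum]
    set c : ℤ := m + a - b with hc
    set V : ℕ → M := fun s => dz f (b - s) (dpow e (a + 1 - s) x) with hV
    have h1 : ∀ t ∈ range (a + 1), e (ch c t • dz f (b - t) (dpow e (a - t) x)) =
        (ch c t * ((a : ℂ) + 1 - t)) • V t + (ch c t * (c + a - t + 1)) • V (t + 1) := by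
      intro t ht
      have ht' : t ≤ a := by simpa [Nat.lt_succ_iff] using ht
      rw [map_smul, e_dz_f hef hf (wt_dpow he hx (a - t)), e1, map_smul]
      simp only [hV]
      rw [show a + 1 - t = a - t + 1 by omega, show a + 1 - (t + 1) = a - t by omega,
        show b - ((t + 1 : ℕ) : ℤ) = b - t - 1 by push_cast; ring, Nat.cast_sub ht', hc]
      push_cast; module
    rw [sum_congr rfl h1, sum_add_distrib, sum_range_succ' _ (a + 1),
      show m + ((a + 1 : ℕ) : ℤ) - b = c + 1 by push_cast; omega]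
    have h2 : ∑ t ∈ range (a + 1), (ch c t * ((a : ℂ) + 1 - t)) • V t =
        ∑ t ∈ range (a + 1), (ch c (t + 1) * ((a : ℂ) - t)) • V (t + 1) + ((a : ℂ) + 1) • V 0 := by
      rw [sum_range_succ', sum_range_succ _ a]
      simp only [sub_self, mul_zero, zero_smul, add_zero, ch_zero, one_mul, Nat.cast_zero, sub_zero]
      congr 1
      refine sum_congr rfl fun t _ => ?_
      push_cast; congr 2; ring
    rw [h2, smul_add, smul_sum, add_right_comm, ← sum_add_distrib]
    congr 1
    · refine sum_congr rfl fun t _ => ?_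
      change _ = ((a : ℂ) + 1) • ch (c + 1) (t + 1) • V (t + 1)
      rw [← add_smul, smul_smul, ch_pascal]
      congr 1
      linear_combination -ch_succ c t
    · simp [hV]

lemma mem_of_ch {R : AddSubgroup M} {z : M} (s : ℕ) :
    ∀ N : ℕ, (∀ a, N ≤ a → ch (-(s + 1 : ℕ)) a • z ∈ R) → z ∈ R := by
  induction s with
  | zero =>
    intro N h
    have : ∀ a, ch (-(0 + 1 : ℕ)) a = (-1) ^ a := by
      intro a
      induction a with
      | zero => simp
      | succ a ih =>
        have h1 := ch_pascal (-(0 + 1 : ℕ)) a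
        have h2 : ch (-(0 + 1 : ℕ) + 1) (a + 1) = 0 := by simp [ch]
        rw [h2, ih] at h1
        rw [pow_succ]; linear_combination -h1
    have h3 := neg_one_pow_smul_mem (h N le_rfl) N
    rwa [this, smul_smul, ← mul_pow, neg_mul_neg, one_mul, one_pow, one_smul] at h3
  | succ s ih =>
    intro N h
    refine ih (N + 1) fun a ha => ?_
    obtain ⟨a, rfl⟩ : ∃ a', a = a' + 1 := ⟨a - 1, by omega⟩
    rw [show (-((s + 1 : ℕ) : ℤ)) = -((s + 1 + 1 : ℕ) : ℤ) + 1 by push_cast; ring, ch_pascal,
      add_smul]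
    exact R.add_mem (h a (by omega)) (h (a + 1) (by omega))

include hef hf he in
/-- A vector of weight `m` that is singular modulo `R` is killed modulo `R` by `f^{(k)}`,
`k > m`. -/
lemma dpow_f_mem {R : AddSubgroup M} (hR : DStab R f) (hnil : LocNil f) {y : M} {m : ℤ}
    (hy : h y = (m : ℂ) • y) (hs : ∀ a, 0 < a → dpow e a y ∈ R) (k : ℕ) (hk : m < k) :
    dpow f k y ∈ R := by
  obtain ⟨N, hN⟩ := hnil y
  obtain ⟨s, hs'⟩ : ∃ s : ℕ, m - k = -(s + 1 : ℕ) := ⟨(k - m - 1).toNat, by omega⟩
  refine mem_of_ch s N fun a ha => ?_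
  have h1 := kostant hef hf he hy a ((k + a : ℕ) : ℤ)
  rw [dz_natCast, dpow_apply_eq_zero hN (by omega), map_zero, sum_range_succ,
    show m + a - ((k + a : ℕ) : ℤ) = -(s + 1 : ℕ) by push_cast at hs' ⊢; omega,
    show ((k + a : ℕ) : ℤ) - a = k by omega, Nat.sub_self, dpow_zero, dz_natCast,
    Module.End.one_apply] at h1
  rw [eq_neg_of_add_eq_zero_right h1.symm]
  refine R.neg_mem (R.sum_mem fun t ht => int_smul_mem (hR.dz _ _ (hs _ ?_)) _)
  simp at ht; omega

end sl2

end Pool.Agent.Lib.MP_b2f51a_al
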