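import Pool.Agent.Lib.MP_b2f51a_al.Currents
import Pool.Agent.Lib.MP_b2f51a_al.Poly

/-! The relation `e(z)^4 = 0` on the Fock space. -/

noncomputable section

namespace Pool.Agent.Lib.MP_b2f51a_al

open Finset

lemma ps_anti {A : Type*} [Ring A] {p q : PowerSeries A}
    (h : ∀ i j, PowerSeries.coeff i p * PowerSeries.coeff j q =
      -(PowerSeries.coeff j q * PowerSeries.coeff i p)) : p * q = -(q * p) := by
  ext n
  rw [map_neg, PowerSeries.coeff_mul, PowerSeries.coeff_mul, ← sum_neg_distrib,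
    ← Finset.Nat.sum_antidiagonal_swap]
  exact sum_congr rfl fun x _ => h _ _

/-- Truncated creation field. -/
def Psi (N : ℕ) (r : Fin 3) : PowerSeries (Module.End ℂ Fk) :=
  PowerSeries.mk fun i => psi ⟨true, r, (i : ℤ) - N⟩

/-- Truncated annihilation field. -/
def Phi (N : ℕ) (r : Fin 3) : PowerSeries (Module.End ℂ Fk) :=
  PowerSeries.mk fun i => psis ⟨false, r, (N : ℤ) - i⟩

lemma Psi_Psi (N : ℕ) (r s : Fin 3) : Psi N r * Psi N s = -(Psi N s * Psi N r) :=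
  ps_anti fun i j => by simp only [Psi, PowerSeries.coeff_mk]; exact psi_psi _ _

lemma Phi_Phi (N : ℕ) (r s : Fin 3) : Phi N r * Phi N s = -(Phi N s * Phi N r) :=
  ps_anti fun i j => by simp only [Phi, PowerSeries.coeff_mk]; exact psis_psis _ _

lemma Phi_Psi (N : ℕ) (r s : Fin 3) : Phi N r * Psi N s = -(Psi N s * Phi N r) :=
  ps_anti fun i j => by simp [Phi, Psi, PowerSeries.coeff_mk, psis_psi]

lemma Psi_sq (N : ℕ) (r : Fin 3) : Psi N r * Psi N r = 0 := by
  have h := Psi_Psi N r r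
  ext1 n
  have h2 := congrArg (PowerSeries.coeff n) h
  rw [map_neg, eq_neg_iff_add_eq_zero, ← two_smul ℂ, smul_eq_zero] at h2
  simpa using h2

/-- Truncated current of one colour. -/
def Gr (N : ℕ) (r : Fin 3) : PowerSeries (Module.End ℂ Fk) := Psi N r * Phi N r

lemma Gr_sq (N : ℕ) (r : Fin 3) : Gr N r ^ 2 = 0 := by
  unfold Gr
  rw [sq, mul_assoc, ← mul_assoc (Phi N r), Phi_Psi, neg_mul, mul_neg, mul_assoc, ← mul_assoc,
    Psi_sq]
  simp

lemma Gr_comm (N : ℕ) (r s : Fin 3) : Commute (Gr N r) (Gr N s) := by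
  unfold Gr
  have h : ∀ r s, Psi N r * Phi N r * (Psi N s * Phi N s) =
      -(Psi N r * Psi N s * (Phi N r * Phi N s)) := by
    intro r s
    rw [mul_assoc, ← mul_assoc (Phi N r), Phi_Psi]; noncomm_ring
  change _ * _ = _ * _
  rw [h r s, h s r, Psi_Psi N r s, Phi_Phi N r s]; noncomm_ring

lemma Gs_pow (N : ℕ) : (∑ r, Gr N r) ^ 4 = 0 := by
  rw [Fin.sum_univ_three]
  have h1 : (Gr N 0 + Gr N 1) ^ 3 = 0 :=
    (Gr_comm N 0 1).add_pow_eq_zero_of_add_le_succ_of_pow_eq_zero (Gr_sq N 0) (Gr_sq N 1)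
      (by norm_num)
  exact ((Gr_comm N 0 2).add_left (Gr_comm N 1 2)).add_pow_eq_zero_of_add_le_succ_of_pow_eq_zero
    h1 (Gr_sq N 2) (by norm_num)

/-- Vectors killed by the modes beyond `N`. -/
def KN (N : ℕ) (x : Fk) : Prop :=
  (∀ r a, a < -(N : ℤ) → psi ⟨true, r, a⟩ x = 0) ∧ ∀ r m, (N : ℤ) < m → psis ⟨false, r, m⟩ x = 0

lemma KN.psi {N : ℕ} {x : Fk} (h : KN N x) (r : Fin 3) (a : ℤ) : KN N (psi ⟨true, r, a⟩ x) := by
  constructor
  · intro r' a' ha
    rw [← Module.End.mul_apply, psi_psi]; simp [h.1 r' a' ha]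
  · intro r' m hm
    rw [← Module.End.mul_apply, psis_psi]; simp [h.2 r' m hm]

lemma KN.psis {N : ℕ} {x : Fk} (h : KN N x) (r : Fin 3) (a : ℤ) :
    KN N (psis ⟨false, r, a⟩ x) := by
  constructor
  · intro r' a' ha
    rw [← Module.End.mul_apply, psi_psis]; simp [h.1 r' a' ha]
  · intro r' m hm
    rw [← Module.End.mul_apply, psis_psis]; simp [h.2 r' m hm]

lemma KN.sum {N : ℕ} {ι : Type*} (s : Finset ι) (x : ι → Fk) (h : ∀ i ∈ s, KN N (x i)) :
    KN N (∑ i ∈ s, x i) := by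
  constructor
  · intro r a ha; rw [map_sum]; exact sum_eq_zero fun i hi => (h i hi).1 r a ha
  · intro r a ha; rw [map_sum]; exact sum_eq_zero fun i hi => (h i hi).2 r a ha

lemma coeff_Gs (N i : ℕ) (x : Fk) : PowerSeries.coeff i (∑ r, Gr N r) x =
    ∑ r : Fin 3, ∑ p ∈ antidiagonal i,
      psi ⟨true, r, (p.1 : ℤ) - N⟩ (psis ⟨false, r, (N : ℤ) - p.2⟩ x) := by
  simp [Gr, PowerSeries.coeff_mul, Psi, Phi, LinearMap.sum_apply]

lemma KN.Gs {N : ℕ} {x : Fk} (h : KN N x) (i : ℕ) :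
    KN N (PowerSeries.coeff i (∑ r, Gr N r) x) := by
  rw [coeff_Gs]
  exact KN.sum _ _ fun r _ => KN.sum _ _ fun p _ => (h.psis _ _).psi _ _

lemma KN.JF {N : ℕ} {x : Fk} (h : KN N x) (i : ℕ) :
    JF true (((2 * N : ℕ) : ℤ) - i) x = PowerSeries.coeff i (∑ r, Gr N r) x := by
  rw [coeff_Gs, Pool.Agent.Lib.MP_b2f51a_al.JF,
    lsum_apply_of (locFin_At _ _) x (univ ×ˢ Icc ((N : ℤ) - i) N), sum_product]
  · refine sum_congr rfl fun r _ => ?_
    refine sum_nbij' (fun m => (i - ((N : ℤ) - m).toNat, ((N : ℤ) - m).toNat))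
      (fun p => (N : ℤ) - p.2) ?_ ?_ ?_ ?_ ?_
    · intro m hm; simp at hm ⊢; omega
    · intro p hp; simp at hp ⊢; omega
    · intro m hm; simp at hm ⊢; omega
    · intro p hp; simp at hp ⊢; ext <;> simp; omega
    · intro m hm
      simp only [mem_Icc] at hm
      simp only [At, Module.End.mul_apply, Bool.not_true]
      have e1 : m - (((2 * N : ℕ) : ℤ) - i) = ((i - ((N : ℤ) - m).toNat : ℕ) : ℤ) - N := by omega
      have e2 : (N : ℤ) - (((N : ℤ) - m).toNat : ℕ) = m := by omega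
      rw [e1, e2]
  · rintro ⟨r, m⟩ hp
    simp only [mem_product, mem_univ, mem_Icc, true_and]
    constructor
    · by_contra hc
      apply hp
      rw [At_eq, LinearMap.neg_apply, Module.End.mul_apply, h.1 _ _ (by push_cast; omega)]
      simp
    · by_contra hc
      apply hp
      rw [At, Module.End.mul_apply, Bool.not_true, h.2 _ _ (by omega)]
      simp

lemma KN.cur {N : ℕ} (m : ℕ) : ∀ (i : ℕ) (x : Fk), KN N x →
    fockRep.cur ((2 * N : ℕ) : ℤ) (PowerSeries.coeff i (PS ^ m)) x =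
      PowerSeries.coeff i ((∑ r, Gr N r) ^ m) x := by
  induction m with
  | zero =>
    intro i x _
    simp only [pow_zero, PowerSeries.coeff_one]
    split_ifs <;> simp
  | succ m ih =>
    intro i x hx
    rw [pow_succ, pow_succ, PowerSeries.coeff_mul, PowerSeries.coeff_mul, map_sum,
      LinearMap.sum_apply, LinearMap.sum_apply]
    refine sum_congr rfl fun p _ => ?_
    rw [map_mul, Module.End.mul_apply, Module.End.mul_apply, ← ih _ _ (hx.Gs _), ← hx.JF, PS,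
      PowerSeries.coeff_mk, LoopRep.cur_X]
    rfl

theorem fock_vanish (x : Fk) : ∃ N0 : ℕ, ∀ N, N0 ≤ N → ∀ m i, 4 ≤ m →
    fockRep.cur ((2 * N : ℕ) : ℤ) (PowerSeries.coeff i (PS ^ m)) x = 0 := by
  obtain ⟨N0, h⟩ := smooth x
  refine ⟨N0, fun N hN m i hm => ?_⟩
  rw [KN.cur m i x ⟨fun r a ha => (h _).2 (by simp only; omega),
    fun r a ha => (h _).1 (by simp only; omega)⟩, pow_eq_zero_of_le hm (Gs_pow N)]
  simp

end Pool.Agent.Lib.MP_b2f51a_al
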