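import Pool.Agent.Lib.MP_b2f51a_al.Trie
import Pool.Agent.Lib.MP_b2f51a_al.Vanish

/-! The vector `w / 23` satisfies, modulo the lattice of the vacuum module, all the relations of
the highest weight vector of `V_ℤ(ω_0 + 2 ω_1)`. -/

noncomputable section

namespace Pool.Agent.Lib.MP_b2f51a_al

/-- The lattice of the vacuum module in the Fock space. -/
def VM : AddSubgroup Fk := latt fockRep.rho (bv ∅)

/-- Evaluation of trees on the vacuum. -/
def ev (t : Tr) : Fk := Tr.eval fockRep.rho (bv ∅) t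

/-- The vector `w / 23`. -/
def y1 : Fk := (23 : ℂ)⁻¹ • ev Tr.w

/-- The vectors `e_i w / 23`. -/
def zz : Fin 2 → Tr := ![Tr.z0, Tr.z1]

lemma ev_mem (t : Tr) : ev t ∈ VM := Tr.eval_mem_latt _ _ t

lemma VM_good : fockRep.Good VM := latt_good _ _

lemma ip_ev (s t : Tr) : ip (ev s) (ev t) = (Tr.pair 3 0 s t : ℤ) :=
  Tr.ip_eval hw_vac (ip_bv_self _) s t

lemma e_y1 (i : Fin 2) : fockRep.eg i y1 = ev (zz i) := by
  have key : ∀ (a z : Tr), Tr.pair 3 0 (a.add (z.smul (-23))) (a.add (z.smul (-23))) = 0 →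
      (23 : ℂ)⁻¹ • ev a = ev z := by
    intro a z h
    have h1 := ip_ev (a.add (z.smul (-23))) (a.add (z.smul (-23)))
    rw [h, Int.cast_zero] at h1
    have h2 := ip_self_eq_zero h1
    rw [ev, Tr.eval_add, Tr.eval_smul] at h2
    rw [ev, eq_neg_of_add_eq_zero_left h2, ev]; push_cast; module
  rw [y1, map_smul, ← LoopRep.rho_e]
  fin_cases i
  · exact (congrArg _ (Tr.eval_e0 hw_vac Tr.w).symm).trans (key _ _ Tr.chk0)
  · exact (congrArg _ (Tr.eval_e1 hw_vac Tr.w).symm).trans (key _ _ Tr.chk1)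

lemma wtV_y1 : fockRep.WtV (wt 3 2) y1 := by
  intro i
  have h1 := Tr.eval_hs hw_vac i 0 Tr.w
  rw [Int.cast_zero, zero_smul, add_zero, LoopRep.rho_h] at h1
  rw [y1, map_smul, ev, ← h1, smul_comm]
  congr 1
  fin_cases i
  · exact (congrArg _ Tr.chk3).trans (Tr.eval_smul _ _ _ _)
  · exact (congrArg _ Tr.chk4).trans (Tr.eval_smul _ _ _ _)

lemma y1_Hw : y1 ∈ Hw fockRep.rho (bv ∅) 10 :=
  Submodule.smul_mem _ _ (Tr.chk5 ▸ Tr.eval_mem_Hw _ _ Tr.w)

lemma smul_y1 : (23 : ℂ) • y1 = ev Tr.w := by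
  rw [y1, smul_smul]; norm_num

lemma dpow_y1 {X : Module.End ℂ Fk} (h1 : DStab VM X) (h2 : Low fockRep.rho (bv ∅) X) (n : ℕ)
    (h3 : ((2 ^ n : ℕ) : ℂ) • X y1 ∈ VM) (k : ℕ) (hk : 0 < k) : dpow X k y1 ∈ VM := by
  by_cases hk' : 10 < k
  · rw [dpow, LinearMap.smul_apply, (h2.pow k 10 _ y1_Hw).1 hk', smul_zero]; exact zero_mem _
  have a1 : ((23 : ℕ) : ℂ) • dpow X k y1 ∈ VM := by
    rw [← map_smul, Nat.cast_ofNat, smul_y1]; exact h1 k _ (ev_mem _)
  have a2 : ((2 ^ n * k.factorial : ℕ) : ℂ) • dpow X k y1 ∈ VM := by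
    obtain ⟨k, rfl⟩ : ∃ j, k = j + 1 := ⟨k - 1, by omega⟩
    rw [Nat.cast_mul, mul_smul, ← LinearMap.smul_apply ((k + 1).factorial : ℂ),
      factorial_smul_dpow, pow_succ, Module.End.mul_apply, ← map_smul, ← factorial_smul_dpow,
      LinearMap.smul_apply]
    exact nat_smul_mem (h1 k _ h3) _
  have cop : IsCoprime ((23 : ℕ) : ℤ) ((2 ^ n * k.factorial : ℕ) : ℤ) := by
    rw [Nat.isCoprime_iff_coprime]
    have hp : Nat.Prime 23 := by norm_num
    refine Nat.Coprime.mul_right (Nat.Coprime.pow_right _ (by norm_num)) ?_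
    rw [hp.coprime_iff_not_dvd, hp.dvd_factorial]; omega
  obtain ⟨a, b, hab⟩ := cop
  have : dpow X k y1 = (a : ℂ) • ((23 : ℕ) : ℂ) • dpow X k y1 +
      (b : ℂ) • ((2 ^ n * k.factorial : ℕ) : ℂ) • dpow X k y1 := by
    rw [smul_smul, smul_smul, ← add_smul]
    have := congrArg (Int.cast : ℤ → ℂ) hab
    rw [Int.cast_add, Int.cast_mul, Int.cast_mul, Int.cast_natCast, Int.cast_natCast,
      Int.cast_one] at this
    rw [this, one_smul]
  rw [this]
  exact add_mem (int_smul_mem a1 a) (int_smul_mem a2 b)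

lemma hs_y1 (i : Fin 2) (a : ℕ) (ha : 0 < a) : dpow (fockRep.eg i) a y1 ∈ VM := by
  refine dpow_y1 (VM_good i).1 (LoopRep.rho_e fockRep i ▸ hw_vac.low_e i) 0 ?_ a ha
  rw [e_y1]; simpa using ev_mem _

lemma J_y1 (n : ℕ) : ((2 ^ n : ℕ) : ℂ) • fockRep.J true n y1 ∈ VM := by
  have st : ∀ i, Stab VM (fockRep.eg i) := fun i => by simpa using (VM_good i).1 1
  have ey : ∀ i, fockRep.eg i y1 ∈ VM := fun i => by rw [e_y1]; exact ev_mem _
  have h1 : ∀ x, cm (fockRep.J true 0) (fockRep.J false 1) x =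
      fockRep.eg 1 (fockRep.eg 0 x) - fockRep.eg 0 (fockRep.eg 1 x) := fun x => rfl
  induction n with
  | zero => rw [pow_zero, Nat.cast_one, one_smul]; exact ey 1
  | succ n ih =>
    have h2 := LinearMap.congr_fun (fockRep.cubic_t n 0 1) y1
    rw [cm, LinearMap.sub_apply, Module.End.mul_apply, Module.End.mul_apply,
      LinearMap.smul_apply] at h2
    have h3 : ((2 ^ (n + 1) : ℕ) : ℂ) • fockRep.J true (n + 1 : ℕ) y1 =
        cm (fockRep.J true 0) (fockRep.J false 1) (((2 ^ n : ℕ) : ℂ) • fockRep.J true n y1) -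
        ((2 ^ n : ℕ) : ℂ) • fockRep.J true n (cm (fockRep.J true 0) (fockRep.J false 1) y1) := by
      rw [map_smul, ← smul_sub, ← neg_sub, h2, show (n : ℤ) + 0 + 1 = (n + 1 : ℕ) by simp]
      push_cast; module
    rw [h3]
    refine sub_mem ?_ (nat_smul_mem ?_ _)
    · rw [h1]; exact sub_mem (st _ _ (st _ _ ih)) (st _ _ (st _ _ ih))
    · have : Stab VM (fockRep.J true n) := by simpa using VM_good.J n 1
      refine this _ ?_
      rw [h1]; exact sub_mem (st _ _ (ey _)) (st _ _ (ey _))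

lemma c1_y1 (n : ℕ) (k : ℕ) (hk : 0 < k) : dpow (fockRep.J true n) k y1 ∈ VM :=
  dpow_y1 (VM_good.J n) (low_J hw_vac n) n (J_y1 n) k hk

lemma dpow_low {M : Type*} [AddCommGroup M] [Module ℂ M] {ρ : U →ₐ[ℂ] Module.End ℂ M} {v : M}
    {X : Module.End ℂ M} (h : Low ρ v X) (k : ℕ) (hk : 0 < k) : dpow X k v = 0 := by
  rw [dpow, LinearMap.smul_apply, (h.pow k 0 _ (Submodule.mem_span_singleton_self v)).1 hk,
    smul_zero]

lemma dpow_prodMap {M N : Type*} [AddCommGroup M] [Module ℂ M] [AddCommGroup N] [Module ℂ N]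
    (X : Module.End ℂ M) (Y : Module.End ℂ N) (k : ℕ) (x : M × N) :
    dpow (show Module.End ℂ (M × N) from X.prodMap Y) k x = (dpow X k x.1, dpow Y k x.2) := by
  have : ∀ k : ℕ, ∀ x : M × N, ((show Module.End ℂ (M × N) from X.prodMap Y) ^ k) x =
      ((X ^ k) x.1, (Y ^ k) x.2) := by
    intro k
    induction k with
    | zero => intro x; rfl
    | succ k ih => intro x; simp [pow_succ, ih]
  simp [dpow, this]

lemma good_prod {A : AddSubgroup Fk} (hA : fockRep.Good A) :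
    (fockRep.prod fockRep).Good (A.prod ⊥) := by
  intro i
  have e1 : (fockRep.prod fockRep).eg i = (fockRep.eg i).prodMap (fockRep.eg i) := by
    fin_cases i <;> rfl
  have e2 : (fockRep.prod fockRep).fg i = (fockRep.fg i).prodMap (fockRep.fg i) := by
    fin_cases i <;> rfl
  constructor
  · rintro k ⟨x, x'⟩ ⟨h1, h2⟩
    obtain rfl : x' = 0 := h2
    rw [e1, dpow_prodMap]
    exact ⟨(hA i).1 k x h1, by simp⟩
  · rintro k ⟨x, x'⟩ ⟨h1, h2⟩
    obtain rfl : x' = 0 := h2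
    rw [e2, dpow_prodMap]
    exact ⟨(hA i).2 k x h1, by simp⟩

theorem key_lift {u : U} (hu : u ∈ kostantForm) (h0 : fockRep.rho u (bv Dnu) = 0) :
    fockRep.rho u y1 ∈ VM := by
  let T := fockRep.prod fockRep
  let y : Fk × Fk := (y1, bv Dnu)
  have hR : T.Good (VM.prod ⊥) := good_prod VM_good
  have hK : T.Good ((⊤ : AddSubgroup Fk).prod ⊥) :=
    good_prod fun i => ⟨fun _ _ _ => trivial, fun _ _ _ => trivial⟩
  have hy : T.WtV (wt 3 2) y := by
    intro i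
    rw [← LoopRep.rho_h, rho_prod, LoopRep.rho_h, wtV_y1 i, wtV_nu i]; rfl
  have hs : ∀ i a, 0 < a → dpow (T.eg i) a y ∈ VM.prod ⊥ := by
    intro i a ha
    rw [← LoopRep.rho_e, ← map_dpow, rho_prod, map_dpow]
    refine ⟨by rw [LoopRep.rho_e]; exact hs_y1 i a ha, dpow_low (hw_nu.low_e i) a ha⟩
  obtain ⟨N1, hN1⟩ := fock_vanish y1
  obtain ⟨N2, hN2⟩ := fock_vanish (bv Dnu)
  have key := LoopRep.key hR hK (AddSubgroup.prod_mono le_top le_rfl) hy (by simp [wt]) hs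
    (2 * (N1 + N2)) ?_ ?_ ?_
  · have hg := LoopRep.Dinf_good hR hy hs
    have h1 : T.rho u y ∈ T.Dinf (VM.prod ⊥) y := by
      refine UZ_stab T.rho (fun i => T.rho_e i ▸ (hg i).1) (fun i => T.rho_f i ▸ (hg i).2) ?_ hu
        y (LoopRep.mem_Dinf_self hR y)
      intro i k
      rw [T.rho_h]
      refine LoopRep.Dinf_binom hR hy i k ?_
      rintro ⟨x, x'⟩ ⟨h1, h2⟩
      obtain rfl : x' = 0 := h2
      rw [← T.rho_h, ← map_binom, rho_prod]
      exact ⟨stab_latt _ _ (hZ i k).2 x h1, by simp⟩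
    have h2 := key _ h1 (by rw [rho_prod]; exact ⟨trivial, h0⟩)
    rw [rho_prod] at h2
    exact h2.1
  · intro n hn k hk
    obtain ⟨n, rfl⟩ := Int.eq_ofNat_of_zero_le hn
    have := dpow_prodMap (fockRep.J true n) (fockRep.J true n) k y
    change dpow (T.J true n) k y = _ at this
    rw [this]
    exact ⟨c1_y1 n k hk, dpow_low (low_J hw_nu n) k hk⟩
  · intro m i hm
    rw [cur_prod, hN1 _ (by omega) m i hm, hN2 _ (by omega) m i hm]; rfl
  · intro x hx hxK
    let P : Submodule ℂ (Fk × Fk) := Submodule.span ℂ (Set.range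
      fun b : {b // LoopRep.Gordon (2 * (N1 + N2)) b} => T.cur (2 * (N1 + N2) : ℕ) (dm b.1) y)
    have hP : x ∈ P := by
      have : AddSubgroup.closure {x | ∃ b, LoopRep.Gordon (2 * (N1 + N2)) b ∧
          x = T.cur (2 * (N1 + N2) : ℕ) (dm b) y} ≤ P.toAddSubgroup := by
        rw [AddSubgroup.closure_le]
        rintro _ ⟨b, hb, rfl⟩
        exact Submodule.subset_span ⟨⟨b, hb⟩, rfl⟩
      exact this hx
    obtain ⟨c, rfl⟩ := (Finsupp.mem_span_range_iff_exists_finsupp).1 hP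
    have h3 : c = 0 := by
      refine linearIndependent_iff.1 (gordon_indep (2 * (N1 + N2))) c ?_
      have h4 : (LinearMap.snd ℂ Fk Fk) _ = 0 := hxK.2
      rw [map_finsuppSum] at h4
      rw [Finsupp.linearCombination_apply, ← h4]
      refine Finsupp.sum_congr fun b _ => ?_
      rw [map_smul, cur_prod]; rfl
    simp [h3]

lemma adj_dpow {A B : Module.End ℂ Fk} (h : Adj A B) (k : ℕ) : Adj (dpow A k) (dpow B k) := by
  have : Adj (A ^ k) (B ^ k) := by
    induction k with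
    | zero => intro x y; rfl
    | succ k ih => rw [pow_succ, pow_succ']; exact ih.mul h
  intro x y
  simp only [dpow, LinearMap.smul_apply, ip_smul_left, ip_smul_right, this x y]
  simp

/-- Vectors whose products with `y` are integers. -/
def intDual (y : Fk) : AddSubgroup Fk where
  carrier := {x | ∃ n : ℤ, ip y x = n}
  zero_mem' := ⟨0, by simp⟩
  add_mem' := by
    rintro a b ⟨m, hm⟩ ⟨n, hn⟩; exact ⟨m + n, by rw [ip_add_right, hm, hn]; simp⟩
  neg_mem' := by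
    rintro a ⟨m, hm⟩
    exact ⟨-m, by rw [← neg_one_smul ℂ a, ip_smul_right, hm]; simp⟩

lemma VM_le {P : AddSubgroup Fk} (h : ∀ k, ∀ x ∈ fockRep.S (bv ∅) k, x ∈ P) : VM ≤ P := by
  have hR : fockRep.Good ⊥ := fun i =>
    ⟨fun k x hx => by simp [AddSubgroup.mem_bot.1 hx],
      fun k x hx => by simp [AddSubgroup.mem_bot.1 hx]⟩
  have hs : ∀ i a, 0 < a → dpow (fockRep.eg i) a (bv ∅) ∈ (⊥ : AddSubgroup Fk) := by
    intro i a ha
    rw [← LoopRep.rho_e]; exact dpow_low (hw_vac.low_e i) a ha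
  have hg := LoopRep.Dinf_good hR wtV_vac hs
  rintro _ ⟨u, hu, rfl⟩
  have h1 : fockRep.rho u (bv ∅) ∈ fockRep.Dinf ⊥ (bv ∅) := by
    refine UZ_stab fockRep.rho (fun i => fockRep.rho_e i ▸ (hg i).1)
      (fun i => fockRep.rho_f i ▸ (hg i).2) ?_ hu _ (LoopRep.mem_Dinf_self hR _)
    intro i k
    rw [fockRep.rho_h]
    exact LoopRep.Dinf_binom hR wtV_vac i k fun x hx => by simp [AddSubgroup.mem_bot.1 hx]
  obtain ⟨k, hk⟩ := (LoopRep.mem_Dinf hR).1 h1
  exact LoopRep.D_ind (X := 1) (fun x hx => by simp [AddSubgroup.mem_bot.1 hx]) (h k) _ hk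

lemma VM_le_intDual {y : Fk} (h0 : ∃ n : ℤ, ip y (bv ∅) = n)
    (hs : ∀ i a, 0 < a → VM ≤ intDual (dpow (fockRep.eg i) a y)) : VM ≤ intDual y := by
  refine VM_le fun k => ?_
  have hS : ∀ k, ∀ x ∈ fockRep.S (bv ∅) k, x ∈ VM := by
    intro k
    induction k with
    | zero => rintro _ rfl; exact self_mem_latt _ _
    | succ k ih => rintro _ ⟨j, x, hx, rfl⟩; exact (VM_good _).2 j x (ih x hx)
  induction k with
  | zero => rintro _ rfl; exact h0
  | succ k ih =>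
    rintro _ ⟨j, x, hx, rfl⟩
    rcases Nat.eq_zero_or_pos j with rfl | hj
    · simpa using ih x hx
    · obtain ⟨n, hn⟩ := hs _ j hj (hS k x hx)
      exact ⟨n, by rw [← adj_dpow (adj_eg _), hn]⟩

lemma intDual_zero : VM ≤ intDual 0 := fun _ _ => ⟨0, by simp⟩

lemma ip_int {x y : Fk} (hx : x ∈ VM) (hy : y ∈ VM) : ∃ n : ℤ, ip x y = n := by
  have h0 : VM ≤ intDual (bv ∅) := by
    refine VM_le_intDual ⟨1, by simp [ip_bv_self]⟩ fun i a ha => ?_
    rw [← LoopRep.rho_e, dpow_low (hw_vac.low_e i) a ha]; exact intDual_zero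
  let P : AddSubgroup Fk := ⨅ y ∈ VM, intDual y
  have : VM ≤ P := by
    refine VM_le fun k => ?_
    simp only [P, AddSubgroup.mem_iInf]
    induction k with
    | zero =>
      rintro _ rfl y hy
      obtain ⟨n, hn⟩ := h0 hy
      exact ⟨n, by rw [← ip_conj, hn]; simp⟩
    | succ k ih =>
      rintro _ ⟨j, x, hx, rfl⟩ y hy
      obtain ⟨n, hn⟩ := ih x hx _ ((VM_good (LoopRep.alt k)).1 j y hy)
      exact ⟨n, by rw [← adj_dpow (adj_eg _), hn]⟩
  have h1 := this hy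
  simp only [P, AddSubgroup.mem_iInf] at h1
  exact h1 x hx

lemma ev_w : ev Tr.w = fockRep.fg 0 (ev Tr.w.left) + fockRep.fg 1 (ev Tr.w.right) := by
  conv_lhs => rw [Tr.chk6]
  simp [ev, Tr.eval, LoopRep.rho_f]

lemma ip_w (x : Fk) : ip (ev Tr.w) x =
    ip (ev Tr.w.left) (fockRep.eg 0 x) + ip (ev Tr.w.right) (fockRep.eg 1 x) := by
  rw [ev_w, ip_add_left, (adj_eg 0).symm, (adj_eg 1).symm]

lemma ip_y1_int {x : Fk} (hx : x ∈ VM) : ∃ n : ℤ, ip (ev Tr.w) x = 23 * n := by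
  have : VM ≤ intDual y1 := by
    refine VM_le_intDual ⟨0, ?_⟩ fun i a ha x hx => ip_int (hs_y1 i a ha) hx
    rw [y1, ip_smul_left, ip_w, ← LoopRep.rho_e, ← LoopRep.rho_e, hw_vac.e, hw_vac.e]; simp
  obtain ⟨n, hn⟩ := this hx
  refine ⟨n, ?_⟩
  rw [← smul_y1, ip_smul_left, hn, map_ofNat]

end Pool.Agent.Lib.MP_b2f51a_al
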