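import Pool.Agent.Lib.MP_b2f51a_al.Base
import Pool.Agent.Lib.MP_b2f51a_al.Key

/-! The integral extension and its reduction modulo 23. -/

open scoped TensorProduct

noncomputable section

namespace Pool.Agent.Lib.MP_b2f51a_al

universe u

/-- Embedding of `L(3 ω_0)`. -/
def Pm : L (wt 3 0) →ₗ[ℂ] Fk := (exists_embed hw_vac (ip_bv_self _)).choose

/-- Embedding of `L(ω_0 + 2 ω_1)`. -/
def Pn : L (wt 3 2) →ₗ[ℂ] Fk := (exists_embed hw_nu (ip_bv_self _)).choose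

lemma Pm_smul (u : U) (x : L (wt 3 0)) : Pm (u • x) = fockRep.rho u (Pm x) :=
  (exists_embed hw_vac (ip_bv_self _)).choose_spec.1 u x

lemma Pm_hwv : Pm (hwv _) = bv ∅ := (exists_embed hw_vac (ip_bv_self _)).choose_spec.2.1

lemma Pm_inj : Function.Injective Pm := (exists_embed hw_vac (ip_bv_self _)).choose_spec.2.2

lemma Pn_smul (u : U) (x : L (wt 3 2)) : Pn (u • x) = fockRep.rho u (Pn x) :=
  (exists_embed hw_nu (ip_bv_self _)).choose_spec.1 u x

lemma Pn_hwv : Pn (hwv _) = bv Dnu := (exists_embed hw_nu (ip_bv_self _)).choose_spec.2.1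

lemma Pn_inj : Function.Injective Pn := (exists_embed hw_nu (ip_bv_self _)).choose_spec.2.2

lemma mem_VZ {lam : Fin 2 → ℤ} {x : L lam} : x ∈ VZ lam ↔ ∃ u ∈ kostantForm, u • hwv lam = x := by
  rw [VZ, Submodule.mem_span_singleton]
  exact ⟨fun ⟨u, hu⟩ => ⟨u.1, u.2, hu⟩, fun ⟨u, h1, h2⟩ => ⟨⟨u, h1⟩, h2⟩⟩

lemma Pm_mem {x : L (wt 3 0)} : Pm x ∈ VM ↔ x ∈ VZ (wt 3 0) := by
  rw [mem_VZ]
  constructor
  · rintro ⟨u, hu, h⟩
    exact ⟨u, hu, Pm_inj (by rw [Pm_smul, Pm_hwv, h])⟩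
  · rintro ⟨u, hu, rfl⟩
    exact ⟨u, hu, by rw [Pm_smul, Pm_hwv]⟩

/-- Trees evaluated in `L(3 ω_0)`. -/
def evL (t : Tr) : L (wt 3 0) := Tr.eval (act (L (wt 3 0))) (hwv _) t

lemma Pm_evL (t : Tr) : Pm (evL t) = ev t := by
  induction t with
  | nil => exact map_zero _
  | node c l r ihl ihr =>
    change Pm ((c : ℂ) • hwv _ + f 0 • evL l + f 1 • evL r) = _
    rw [map_add, map_add, map_smul, Pm_smul, Pm_smul, ihl, ihr, Pm_hwv]; rfl

/-- The ambient module. -/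
abbrev LL : Type := L (wt 3 0) × L (wt 3 2)

/-- The second generator. -/
def yL : LL := ((23 : ℂ)⁻¹ • evL Tr.w, hwv _)

lemma Pm_yL : Pm yL.1 = y1 := by rw [yL, map_smul, Pm_evL, y1]

/-- The integral extension. -/
def EZ : Submodule UZ LL := Submodule.span UZ {(hwv _, 0), yL}

lemma mem_EZ {x : LL} :
    x ∈ EZ ↔ ∃ a ∈ kostantForm, ∃ b ∈ kostantForm, (a • hwv _ + b • yL.1, b • hwv _) = x := by
  rw [EZ, Submodule.mem_span_pair]
  have e : ∀ a b : UZ, a • ((hwv _, 0) : LL) + b • yL =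
      (a.1 • hwv _ + b.1 • yL.1, b.1 • hwv _) := by
    intro a b
    refine Prod.ext rfl ?_
    change a.1 • (0 : L (wt 3 2)) + b.1 • hwv _ = _
    rw [smul_zero, zero_add]
  exact ⟨fun ⟨a, b, h⟩ => ⟨a.1, a.2, b.1, b.2, (e a b).symm.trans h⟩,
    fun ⟨a, ha, b, hb, h⟩ => ⟨⟨a, ha⟩, ⟨b, hb⟩, (e _ _).trans h⟩⟩

/-- The inclusion. -/
def iZ : VZ (wt 3 0) →ₗ[UZ] EZ :=
  LinearMap.codRestrict EZ (LinearMap.inl UZ _ _ ∘ₗ (VZ _).subtype) fun x => by
    obtain ⟨u, hu, h⟩ := mem_VZ.1 x.2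
    exact mem_EZ.2 ⟨u, hu, 0, zero_mem _, by simp [h]⟩

/-- The projection. -/
def pZ : EZ →ₗ[UZ] VZ (wt 3 2) :=
  LinearMap.codRestrict (VZ _) (LinearMap.snd UZ _ _ ∘ₗ EZ.subtype) fun x => by
    obtain ⟨a, -, b, hb, h⟩ := mem_EZ.1 x.2
    exact mem_VZ.2 ⟨b, hb, congrArg Prod.snd h⟩

lemma iZ_inj : Function.Injective iZ := by
  intro x y h
  exact Subtype.ext (congrArg (fun z : EZ => z.1.1) h)

lemma pZ_surj : Function.Surjective pZ := by
  intro x
  obtain ⟨u, hu, h⟩ := mem_VZ.1 x.2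
  exact ⟨⟨_, mem_EZ.2 ⟨0, zero_mem _, u, hu, rfl⟩⟩, Subtype.ext h⟩

lemma exact_Z : Function.Exact iZ pZ := by
  intro x
  constructor
  · intro h
    obtain ⟨a, ha, b, hb, hx⟩ := mem_EZ.1 x.2
    have h1 : x.1.2 = 0 := congrArg Subtype.val h
    have h2 : b • hwv (wt 3 2) = 0 := (congrArg Prod.snd hx).trans h1
    have h3 : fockRep.rho b (bv Dnu) = 0 := by rw [← Pn_hwv, ← Pn_smul, h2, map_zero]
    have h4 := key_lift hb h3
    rw [← Pm_yL, ← Pm_smul, Pm_mem] at h4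
    refine ⟨⟨x.1.1, ?_⟩, Subtype.ext (Prod.ext rfl h1.symm)⟩
    rw [← hx]
    exact add_mem (mem_VZ.2 ⟨a, ha, rfl⟩) h4
  · rintro ⟨y, rfl⟩
    rfl

instance (lam : Fin 2 → ℤ) : Module.IsTorsionFree ℤ (VZ lam) := by
  refine Module.IsTorsionFree.of_smul_eq_zero fun n x h => ?_
  have h1 : (n : ℂ) • (x : L lam) = 0 := by
    rw [Int.cast_smul_eq_zsmul]; exact congrArg Subtype.val h
  rcases smul_eq_zero.1 h1 with h2 | h2
  · left; exact_mod_cast h2
  · right; exact Subtype.ext h2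

/-- The embedding of the ambient module. -/
def PP : LL →ₗ[ℂ] Fk × Fk := Pm.prodMap Pn

lemma PP_inj : Function.Injective PP := Pm_inj.prodMap Pn_inj

lemma PP_smul (u : U) (x : LL) : PP (u • x) = (fockRep.prod fockRep).rho u (PP x) := by
  rw [rho_prod]; exact Prod.ext (Pm_smul u x.1) (Pn_smul u x.2)

/-- The derivation. -/
def dd : Module.End ℂ (Fk × Fk) := (-Dg eng).prodMap (-Dg eng - (5 : ℂ) • 1)

lemma dd_J (s : Bool) (n : ℤ) :
    cm dd ((fockRep.prod fockRep).J s n) = (n : ℂ) • (fockRep.prod fockRep).J s n := by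
  have h1 : cm (-Dg eng) (JF s n) = (n : ℂ) • JF s n := by
    rw [cm_neg_left, eng_JF, neg_smul, neg_neg]
  have h2 : cm (-Dg eng - (5 : ℂ) • 1) (JF s n) = (n : ℂ) • JF s n := by
    rw [cm_sub_left, h1, cm_smul_left]; simp [cm]
  exact LinearMap.ext fun x => Prod.ext (LinearMap.congr_fun h1 x.1) (LinearMap.congr_fun h2 x.2)

lemma dd_e (i : Fin 2) : cm dd ((fockRep.prod fockRep).eg i) =
    (if i = 0 then (1 : ℂ) else 0) • (fockRep.prod fockRep).eg i := by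
  fin_cases i
  · simpa [LoopRep.eg] using dd_J false 1
  · simpa [LoopRep.eg] using dd_J true 0

lemma dd_f (i : Fin 2) : cm dd ((fockRep.prod fockRep).fg i) =
    (if i = 0 then (-1 : ℂ) else 0) • (fockRep.prod fockRep).fg i := by
  fin_cases i
  · simpa [LoopRep.fg] using dd_J true (-1)
  · simpa [LoopRep.fg] using dd_J false 0

lemma dd_h (i : Fin 2) : cm dd ((fockRep.prod fockRep).hg i) = 0 := by
  rw [LoopRep.hg, cm_hom (dd_e i) (dd_f i)]
  split_ifs <;> simp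

/-- Degree. -/
def Deg (n : ℤ) (x : LL) : Prop := dd (PP x) = (n : ℂ) • PP x

lemma Deg.e {n : ℤ} {x : LL} (hx : Deg n x) (i : Fin 2) (k : ℕ) :
    Deg (n + if i = 0 then (k : ℤ) else 0) (dpow (e i) k • x) := by
  rw [Deg, PP_smul, map_dpow, LoopRep.rho_e, wt_dpow (dd_e i) hx]
  split_ifs <;> simp

lemma Deg.f {n : ℤ} {x : LL} (hx : Deg n x) (i : Fin 2) (k : ℕ) :
    Deg (n - if i = 0 then (k : ℤ) else 0) (dpow (f i) k • x) := by
  rw [Deg, PP_smul, map_dpow, LoopRep.rho_f, wt_dpow (dd_f i) hx]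
  split_ifs <;> simp [sub_eq_add_neg]

lemma Deg.h {n : ℤ} {x : LL} (hx : Deg n x) (i : Fin 2) (k : ℕ) :
    Deg n (binom (h i) k • x) := by
  have h1 : Commute dd ((fockRep.prod fockRep).hg i) := sub_eq_zero.1 (dd_h i)
  have h2 : Commute dd (binom ((fockRep.prod fockRep).hg i) k) := by
    refine Commute.smul_right ?_ _
    generalize descPochhammer ℂ k = q
    induction q using Polynomial.induction_on' with
    | add p q hp hq => rw [map_add]; exact hp.add_right hq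
    | monomial m c =>
      rw [Polynomial.aeval_monomial]
      exact Commute.mul_right (Algebra.commutes c dd).symm (h1.pow_right m)
  rw [Deg, PP_smul, map_binom, LoopRep.rho_h, ← Module.End.mul_apply, h2.eq,
    Module.End.mul_apply, hx, map_smul]

lemma eng_ev (t : Tr) (n : ℤ) : ev (Tr.hd n t) = Dg eng (ev t) + (n : ℂ) • ev t := by
  have k : ∀ (s : Bool) (m : ℤ) x, Dg eng (JF s m x) = JF s m (Dg eng x) - (m : ℂ) • JF s m x := by
    intro s m x
    have := LinearMap.congr_fun (eng_JF s m) x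
    simp only [cm, LinearMap.sub_apply, Module.End.mul_apply, LinearMap.smul_apply] at this
    rw [sub_eq_iff_eq_add.1 this]; module
  have e0 : fockRep.rho (f 0) = JF true (-1) := fockRep.rho_f 0
  have e1 : fockRep.rho (f 1) = JF false 0 := fockRep.rho_f 1
  unfold ev
  induction t generalizing n with
  | nil => simp [Tr.hd, Tr.eval]
  | node c l r ihl ihr =>
    simp only [Tr.hd, Tr.eval_mk, Tr.eval, ihl, ihr, map_add, map_smul, e0, e1, k, Dg_vac]
    push_cast; module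

lemma deg_v : Deg 0 (hwv _, 0) := by
  refine Prod.ext ?_ ?_
  · change -Dg eng (Pm (hwv _)) = _
    rw [Pm_hwv, Dg_vac]; simp
  · simp [dd, PP]

lemma deg_y : Deg (-5) yL := by
  refine Prod.ext ?_ ?_
  · change -Dg eng (Pm yL.1) = ((-5 : ℤ) : ℂ) • Pm yL.1
    have h1 := eng_ev Tr.w 0
    rw [Tr.chk7, ev, Tr.eval_smul] at h1
    rw [Pm_yL, y1, map_smul, show Dg eng (ev Tr.w) = ((5 : ℤ) : ℂ) • ev Tr.w by
      simpa [ev] using h1.symm]
    push_cast; module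
  · change -Dg eng (Pn (hwv _)) - (5 : ℂ) • Pn (hwv _) = ((-5 : ℤ) : ℂ) • Pn (hwv _)
    have : swt eng Dnu = 0 := by rw [swt, Dnu, Finset.sum_pair (by simp)]; simp [eng]
    rw [Pn_hwv, Dg_bv, this]; simp

/-- The graded pieces of the integral extension. -/
def gZ (n : ℤ) : Submodule ℤ EZ where
  carrier := {x | Deg n x}
  zero_mem' := by simp [Deg]
  add_mem' := fun {a b} ha hb => by
    change dd (PP (a + b)) = (n : ℂ) • PP (a + b)
    rw [map_add, map_add, ha, hb, smul_add]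
  smul_mem' := fun c a ha => by
    change dd (PP (c • a)) = (n : ℂ) • PP (c • a)
    rw [map_zsmul, map_zsmul, ha, smul_comm]

lemma gZ_internal : DirectSum.IsInternal gZ := by
  apply DirectSum.isInternal_submodule_of_iSupIndep_of_iSup_eq_top
  · intro n
    rw [Submodule.disjoint_def]
    intro x h1 h2
    have ind := (Module.End.eigenspaces_iSupIndep dd).comp (Int.cast_injective (α := ℂ)) n
    let Ψ : EZ →ₗ[ℤ] Fk × Fk := (PP.toAddMonoidHom.comp EZ.subtype.toAddMonoidHom).toIntLinearMap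
    have h3 : (⨆ m, ⨆ _ : m ≠ n, gZ m) ≤ ((⨆ m : ℤ, ⨆ _ : m ≠ n,
        Module.End.eigenspace dd (m : ℂ)).restrictScalars ℤ).comap Ψ := by
      refine iSup₂_le fun m hm y hy => ?_
      exact Submodule.mem_iSup_of_mem m
        (Submodule.mem_iSup_of_mem hm (Module.End.mem_eigenspace_iff.2 hy))
    have h4 := Submodule.disjoint_def.1 ind (PP x) (Module.End.mem_eigenspace_iff.2 h1) (h3 h2)
    exact Subtype.ext (PP_inj (h4.trans (map_zero PP).symm))
  · have := closure_top {(hwv _, 0), yL} (fun x => ∃ n, Deg n x)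
      (by rintro x (rfl | rfl); exacts [⟨_, deg_v⟩, ⟨_, deg_y⟩])
      (fun i k x ⟨n, hn⟩ => ⟨_, hn.e i k⟩) (fun i k x ⟨n, hn⟩ => ⟨_, hn.f i k⟩)
      (fun i k x ⟨n, hn⟩ => ⟨_, hn.h i k⟩)
    rw [eq_top_iff]
    rintro x -
    have h1 : AddSubgroup.closure {x : EZ | ∃ n, Deg n x} ≤ (⨆ n, gZ n).toAddSubgroup := by
      rw [AddSubgroup.closure_le]
      rintro y ⟨n, hn⟩
      exact Submodule.mem_iSup_of_mem n hn
    exact h1 (this.ge trivial)

lemma EZ_weight : AddSubgroup.closure {m : EZ | ∃ mu : Fin 2 → ℤ, mu 0 + mu 1 = 3 ∧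
    ∀ i k, hZ i k • m = (Ring.choose (mu i) k : ℤ) • m} = ⊤ := by
  have hc : ∀ j, cartan 0 j + cartan 1 j = 0 := by intro j; fin_cases j <;> simp [cartan]
  have := closure_top {(hwv _, 0), yL}
    (fun x : LL => ∃ mu : Fin 2 → ℤ, mu 0 + mu 1 = 3 ∧ ∀ i, act LL (h i) x = (mu i : ℂ) • x)
    ?_ ?_ ?_ ?_
  · refine eq_top_iff.2 (this.ge.trans (AddSubgroup.closure_mono ?_))
    rintro x ⟨mu, h1, h2⟩
    refine ⟨mu, h1, fun i k => Subtype.ext ?_⟩
    have h3 := binom_apply (h2 i) k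
    rw [← map_binom, ch, Int.cast_smul_eq_zsmul] at h3
    exact h3
  · rintro x (rfl | rfl)
    · exact ⟨wt 3 0, by simp [wt], fun i => Prod.ext ((hw_L _).h i) (by simp)⟩
    · refine ⟨wt 3 2, by simp [wt], fun i => Prod.ext (Pm_inj ?_) ((hw_L _).h i)⟩
      change Pm (h i • yL.1) = Pm (_ • yL.1)
      rw [Pm_smul, map_smul, Pm_yL, LoopRep.rho_h, wtV_y1]
  · rintro j k x ⟨mu, h1, h2⟩
    refine ⟨fun i => mu i + k * cartan i j, by linear_combination h1 + k * hc j, fun i => ?_⟩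
    have h3 : cm (act LL (h i)) (act LL (e j)) = ((cartan i j : ℤ) : ℂ) • act LL (e j) := by
      rw [← map_cm, he_U, map_smul]
    have h4 := wt_dpow h3 (h2 i) k
    rw [← map_dpow] at h4
    push_cast; exact h4
  · rintro j k x ⟨mu, h1, h2⟩
    refine ⟨fun i => mu i + k * -cartan i j, by linear_combination h1 - k * hc j, fun i => ?_⟩
    have h3 : cm (act LL (h i)) (act LL (f j)) = (-((cartan i j : ℤ) : ℂ)) • act LL (f j) := by
      rw [← map_cm, hf_U, map_smul]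
    have h4 := wt_dpow h3 (h2 i) k
    rw [← map_dpow] at h4
    push_cast; exact h4
  · rintro j k x ⟨mu, h1, h2⟩
    refine ⟨mu, h1, fun i => ?_⟩
    have h3 := binom_apply (h2 j) k
    rw [← map_binom] at h3
    change act LL (h i) (act LL (binom (h j) k) x) = _ • act LL (binom (h j) k) x
    rw [h3, map_smul, h2, smul_comm]

lemma EZ_nil (m : EZ) (i : Fin 2) : ∃ n : ℕ, ∀ k, n ≤ k → fZ i k • m = 0 := by
  obtain ⟨n, hn⟩ := (fockRep.prod fockRep).nil_f i (PP m)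
  refine ⟨n, fun k hk => Subtype.ext (PP_inj ?_)⟩
  change PP (dpow (f i) k • (m : LL)) = PP 0
  rw [PP_smul, map_dpow, LoopRep.rho_f, dpow_apply_eq_zero hn hk, map_zero]

lemma EZ_bdd (m : EZ) : ∃ n : ℕ, ∀ w : List (Fin 2 × ℕ), n ≤ (w.map Prod.snd).sum →
    (w.map fun p => eZ p.1 p.2).prod • m = 0 := by
  obtain ⟨j1, h1⟩ := L_Hw _ m.1.1
  obtain ⟨j2, h2⟩ := L_Hw _ m.1.2
  refine ⟨j1 + j2 + 1, fun w hw => Subtype.ext ?_⟩
  have e : ((w.map fun p => eZ p.1 p.2).prod : UZ).1 =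
      (w.map fun p => dpow (e p.1) p.2).prod := by
    clear hw
    induction w with
    | nil => rfl
    | cons p w ih => rw [List.map_cons, List.map_cons, List.prod_cons, List.prod_cons, ← ih]; rfl
  change ((w.map fun p => eZ p.1 p.2).prod : UZ).1 • (m : LL) = 0
  rw [e]
  exact Prod.ext (((hw_L _).prod_e w j1 _ h1).1 (by omega))
    (((hw_L _).prod_e w j2 _ h2).1 (by omega))

lemma coe_eZ_one (i : Fin 2) : (eZ i 1).1 = e i := dpow_one _

lemma exists_psi (a : Tr) : ∃ ψ : VZ (wt 3 0) →ₗ[ℤ] ℤ, ∀ x, (ψ x : ℂ) = ip (ev a) (Pm x) :=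
  exists_int_hom
    (AddMonoidHom.mk' (fun x : VZ (wt 3 0) => ip (ev a) (Pm x)) fun x y => by
      rw [Submodule.coe_add, map_add, ip_add_right])
    fun x => ip_int (ev_mem a) (Pm_mem.2 x.2)

/-- The second generator as an element of the integral extension. -/
def yE : EZ := ⟨yL, Submodule.subset_span (by simp)⟩

/-- The vectors `e_i w / 23` in the lattice. -/
def zV (i : Fin 2) : VZ (wt 3 0) := ⟨evL (zz i), Pm_mem.1 (by rw [Pm_evL]; exact ev_mem _)⟩

lemma e_yE (i : Fin 2) : eZ i 1 • yE = iZ (zV i) := by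
  refine Subtype.ext (Prod.ext (Pm_inj ?_) ?_)
  · change Pm ((eZ i 1).1 • yL.1) = Pm (evL (zz i))
    rw [Pm_smul, coe_eZ_one, Pm_yL, LoopRep.rho_e, e_y1, Pm_evL]
  · change (eZ i 1).1 • hwv _ = 0
    rw [coe_eZ_one]; exact (hw_L _).e i

theorem not_split (F : Type u) [Field F] [CharP F 23] :
    ¬ ∃ s : Weyl F (wt 3 2) →ₗ[UF F] BaseExt F EZ, bmap F pZ ∘ₗ s = LinearMap.id := by
  rintro ⟨s, hs⟩
  have h1 : bmap F pZ (s (weylGen F _) - tm F 1 yE) = 0 := by
    rw [map_sub, ← LinearMap.comp_apply, hs, bmap_tm, sub_eq_zero]; rfl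
  obtain ⟨q, hq⟩ := (bmap_exact F exact_Z pZ_surj _).1 h1
  have h2 : ∀ i, tens (1 : F) (eZ i 1) • q = -tm F 1 (zV i) := by
    intro i
    apply bmap_inj F exact_Z iZ_inj pZ_surj
    have h3 : tens (1 : F) (eZ i 1) • weylGen F (wt 3 2) = 0 := by
      refine (one_smul_tm F 1 _ _).trans ((congrArg _ (Subtype.ext ?_)).trans (tm_zero F 1))
      change (eZ i 1).1 • hwv _ = 0
      rw [coe_eZ_one]; exact (hw_L _).e i
    rw [map_smul, hq, smul_sub, ← map_smul, h3, map_zero, one_smul_tm, e_yE, map_neg, bmap_tm,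
      zero_sub]
  obtain ⟨ψ0, hψ0⟩ := exists_psi Tr.w.left
  obtain ⟨ψ1, hψ1⟩ := exists_psi Tr.w.right
  have h4 : ∀ q : BaseExt F (VZ (wt 3 0)), bfl F ψ0 (tens (1 : F) (eZ 0 1) • q) +
      bfl F ψ1 (tens (1 : F) (eZ 1 1) • q) = 0 := by
    intro q
    induction q using be_ind with
    | h0 => simp
    | hadd x y hx hy => simp only [smul_add, map_add]; linear_combination hx + hy
    | ht a m =>
      obtain ⟨n, hn⟩ := ip_y1_int (Pm_mem.2 m.2)
      have h5 : ∀ i, Pm (eZ i 1 • m : VZ (wt 3 0)) = fockRep.eg i (Pm m) := by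
        intro i
        change Pm ((eZ i 1).1 • (m : L (wt 3 0))) = _
        rw [Pm_smul, coe_eZ_one, LoopRep.rho_e]
      have h6 : ψ0 (eZ 0 1 • m) + ψ1 (eZ 1 1 • m) = 23 * n := by
        rw [ip_w, ← h5, ← h5, ← hψ0, ← hψ1] at hn
        exact_mod_cast hn
      rw [one_smul_tm, one_smul_tm, bfl_tm, bfl_tm, ← add_mul, ← Int.cast_add, h6]
      have : ((23 : ℕ) : F) = 0 := CharP.cast_eq_zero F 23
      push_cast at this ⊢
      rw [this, zero_mul, zero_mul]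
  have h7 : ψ0 (zV 0) + ψ1 (zV 1) = 669112704 := by
    have a0 := hψ0 (zV 0)
    have a1 := hψ1 (zV 1)
    change _ = ip _ (Pm (evL _)) at a0 a1
    rw [Pm_evL, ip_ev] at a0 a1
    rw [Int.cast_injective a0, Int.cast_injective a1]
    exact Tr.chk2
  have h8 := h4 q
  rw [h2, h2, map_neg, map_neg, bfl_tm, bfl_tm, mul_one, mul_one, ← neg_add, ← Int.cast_add, h7,
    neg_eq_zero, CharP.intCast_eq_zero_iff F 23] at h8
  norm_num at h8

theorem main (F : Type u) [Field F] [CharP F 23] :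
    ∃ (E : Type u) (_ : AddCommGroup E) (_ : Module (UF F) E)
      (i : Weyl F (wt 3 0) →ₗ[UF F] E) (π : E →ₗ[UF F] Weyl F (wt 3 2)),
      IsIntegrableOfLevel F 3 E ∧
      (∃ g : ℤ → AddSubgroup E, IsDegreeGrading F g ∧ i (weylGen F (wt 3 0)) ∈ g 0 ∧
        ∃ y ∈ g (-5), π y = weylGen F (wt 3 2)) ∧
      Function.Injective i ∧ Function.Surjective π ∧ Function.Exact i π ∧
      ¬ ∃ s : Weyl F (wt 3 2) →ₗ[UF F] E, π ∘ₗ s = LinearMap.id := by
  refine ⟨BaseExt F EZ, inferInstance, inferInstance, bmap F iZ, bmap F pZ,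
    isInt F 3 EZ_weight EZ_nil EZ_bdd, ⟨fun n => bsub F (gZ n), ?_, ?_, tm F 1 yE, ?_, rfl⟩,
    bmap_inj F exact_Z iZ_inj pZ_surj, bmap_surj F pZ_surj, bmap_exact F exact_Z pZ_surj,
    not_split F⟩
  · exact isGrading F gZ gZ_internal (fun n i k x hx => Deg.e hx i k)
      (fun n i k x hx => Deg.f hx i k) (fun n i k x hx => Deg.h hx i k)
  · exact tm_mem_bsub F 1 deg_v
  · exact tm_mem_bsub F 1 deg_y

end Pool.Agent.Lib.MP_b2f51a_al
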