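import Pool.Agent.Lib.MP_b2f51a_al.Loop

/-! Representations of the enveloping algebra, relations, and the filtration of a highest weight
module by the length of words in the `f_i`. -/

noncomputable section

namespace Pool.Agent.Lib.MP_b2f51a_al

attribute [local instance 100] LieRing.ofAssociativeRing

open CartanMatrix

/-- The free Lie algebra on the Chevalley generators. -/
abbrev FL : Type := FreeLieAlgebra ℂ (Generators (Fin 2))

/-- The Lie algebra. -/
abbrev G : Type := Matrix.ToLieAlgebra ℂ cartan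

/-- The enveloping algebra, unfolded. -/
abbrev U' : Type := UniversalEnvelopingAlgebra ℂ G

/-- The quotient map onto `G`. -/
def mkG : FL →ₗ⁅ℂ⁆ G where
  toFun x := LieSubmodule.Quotient.mk (N := Relations.toIdeal ℂ cartan) x
  map_add' _ _ := rfl
  map_smul' _ _ := rfl
  map_lie' := rfl

lemma mkG_surj : Function.Surjective mkG := Quot.mk_surjective

/-- The map from the free Lie algebra to `U`. -/
def toU : FL →ₗ⁅ℂ⁆ U' := (UniversalEnvelopingAlgebra.ι ℂ).comp mkG

lemma toU_of (x : Generators (Fin 2)) : toU (FreeLieAlgebra.of ℂ x) = gen x := rfl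

lemma toU_rel {x : FL} (hx : x ∈ Relations.toSet ℂ cartan) : toU x = 0 := by
  have : mkG x = 0 :=
    LieSubmodule.Quotient.mk_eq_zero'.2 (LieSubmodule.subset_lieSpan hx)
  simp [toU, this]

lemma ef_U (i j : Fin 2) : cm (e i) (f j) = if i = j then h i else 0 := by
  have := toU_rel (x := Relations.EF ℂ (i, j)) (by simp [Relations.toSet])
  simp only [Relations.EF, Function.uncurry, Function.comp] at this
  split_ifs at this ⊢ with hij
  · subst hij
    rw [map_sub, LieHom.map_lie, sub_eq_zero] at this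
    exact this
  · rw [LieHom.map_lie] at this
    exact this

lemma hf_U (i j : Fin 2) : cm (h i) (f j) = (-((cartan i j : ℤ) : ℂ)) • f j := by
  have := toU_rel (x := Relations.HF ℂ cartan (i, j)) (by simp [Relations.toSet])
  simp only [Relations.HF, Function.uncurry, Function.comp] at this
  rw [map_add, LieHom.map_lie, map_zsmul, add_eq_zero_iff_eq_neg] at this
  rw [neg_smul, Int.cast_smul_eq_zsmul]
  exact this

lemma he_U (i j : Fin 2) : cm (h i) (e j) = ((cartan i j : ℤ) : ℂ) • e j := by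
  have := toU_rel (x := Relations.HE ℂ cartan (i, j)) (by simp [Relations.toSet])
  simp only [Relations.HE, Function.uncurry, Function.comp] at this
  rw [map_sub, LieHom.map_lie, map_zsmul, sub_eq_zero] at this
  rw [Int.cast_smul_eq_zsmul]
  exact this

lemma hh_U (i j : Fin 2) : cm (h i) (h j) = 0 := by
  have := toU_rel (x := Relations.HH ℂ (i, j)) (by simp [Relations.toSet])
  simp only [Relations.HH, Function.uncurry, Function.comp] at this
  rw [LieHom.map_lie] at this
  exact this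

lemma U_ind' (S : Subalgebra ℂ U') (hg : ∀ x, toU (FreeLieAlgebra.of ℂ x) ∈ S)
    (u : U') : u ∈ S := by
  let φ : FL →ₗ⁅ℂ⁆ S := FreeLieAlgebra.lift ℂ fun x => ⟨_, hg x⟩
  have e1 : (S.val : S →ₗ⁅ℂ⁆ U').comp φ = toU := by
    apply FreeLieAlgebra.hom_ext
    intro x
    simp [φ]
  have e2 : ∀ x : G, UniversalEnvelopingAlgebra.ι ℂ x ∈ S := by
    intro x
    obtain ⟨y, rfl⟩ := mkG_surj x
    have : toU y = (φ y : U') := by rw [← e1]; rfl
    change toU y ∈ S
    rw [this]; exact (φ y).2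
  let ψ : G →ₗ⁅ℂ⁆ S :=
    { toFun := fun x => ⟨_, e2 x⟩
      map_add' := fun x y => Subtype.ext (map_add _ x y)
      map_smul' := fun c x => Subtype.ext (map_smul _ c x)
      map_lie' := fun {x y} => Subtype.ext (LieHom.map_lie _ x y) }
  have e3 : S.val.comp (UniversalEnvelopingAlgebra.lift ℂ ψ) = AlgHom.id ℂ U' := by
    apply UniversalEnvelopingAlgebra.hom_ext
    ext x
    simp [ψ]
  have : u = (UniversalEnvelopingAlgebra.lift ℂ ψ u : U') := (AlgHom.congr_fun e3 u).symm
  rw [this]; exact (UniversalEnvelopingAlgebra.lift ℂ ψ u).2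

lemma U_ind (S : Subalgebra ℂ U) (h1 : ∀ i, e i ∈ S) (h2 : ∀ i, f i ∈ S) (h3 : ∀ i, h i ∈ S)
    (u : U) : u ∈ S := by
  refine U_ind' S (fun x => ?_) u
  cases x
  · exact h3 _
  · exact h1 _
  · exact h2 _

variable {M : Type*} [AddCommGroup M] [Module ℂ M]

namespace LoopRep

variable (T : LoopRep M)

/-- Images of the generators. -/
def gv : Generators (Fin 2) → Module.End ℂ M
  | .H i => T.hg i
  | .E i => T.eg i
  | .F i => T.fg i

/-- The representation of the free Lie algebra. -/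
def fl : FL →ₗ⁅ℂ⁆ Module.End ℂ M := FreeLieAlgebra.lift ℂ T.gv

lemma fl_of (x : Generators (Fin 2)) : T.fl (FreeLieAlgebra.of ℂ x) = T.gv x :=
  FreeLieAlgebra.lift_of_apply _ _

lemma fl_lie (x y : FL) : T.fl ⁅x, y⁆ = cm (T.fl x) (T.fl y) := LieHom.map_lie _ _ _

lemma fl_ker : Relations.toIdeal ℂ cartan ≤ T.fl.ker := by
  rw [Relations.toIdeal, LieSubmodule.lieSpan_le]
  intro x hx
  simp only [Relations.toSet, Set.mem_union, Set.mem_range] at hx
  change T.fl x = 0
  rcases hx with ((((⟨⟨i, j⟩, rfl⟩ | ⟨⟨i, j⟩, rfl⟩) | ⟨⟨i, j⟩, rfl⟩) | ⟨⟨i, j⟩, rfl⟩) |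
    ⟨⟨i, j⟩, rfl⟩) | ⟨⟨i, j⟩, rfl⟩
  · simp only [Relations.HH, Function.uncurry, Function.comp, fl_lie, fl_of, gv, hh]
  · simp only [Relations.EF, Function.uncurry, Function.comp]
    split_ifs with hij
    · simp only [map_sub, fl_lie, fl_of, gv, hg, sub_self]
    · simp only [fl_lie, fl_of, gv, T.ef hij]
  · simp only [Relations.HE, Function.uncurry, Function.comp, map_sub, map_zsmul, fl_lie, fl_of,
      gv, he, Int.cast_smul_eq_zsmul, sub_self]
  · simp only [Relations.HF, Function.uncurry, Function.comp, map_add, map_zsmul, fl_lie, fl_of,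
      gv, hf, Int.cast_smul_eq_zsmul, neg_add_cancel]
  · simp only [Relations.adE, Function.uncurry, Function.comp]
    by_cases hij : i = j
    · subst hij; simp
    · have : (-cartan i j).toNat = 2 := by fin_cases i <;> fin_cases j <;> simp_all [cartan]
      simp only [this, sq, Module.End.mul_apply, LieAlgebra.ad_apply, fl_lie, fl_of, gv,
        T.serre_e hij]
  · simp only [Relations.adF, Function.uncurry, Function.comp]
    by_cases hij : i = j
    · subst hij; simp
    · have : (-cartan i j).toNat = 2 := by fin_cases i <;> fin_cases j <;> simp_all [cartan]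
      simp only [this, sq, Module.End.mul_apply, LieAlgebra.ad_apply, fl_lie, fl_of, gv,
        T.serre_f hij]

/-- The representation of `G`. -/
def gl : G →ₗ⁅ℂ⁆ Module.End ℂ M :=
  { (Relations.toIdeal ℂ cartan).toSubmodule.liftQ T.fl.toLinearMap
      (fun x hx => T.fl_ker hx) with
    map_lie' := by
      intro x y
      obtain ⟨x, rfl⟩ := mkG_surj x
      obtain ⟨y, rfl⟩ := mkG_surj y
      exact LieHom.map_lie T.fl x y }

/-- The representation of the enveloping algebra. -/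
def rho : U →ₐ[ℂ] Module.End ℂ M := UniversalEnvelopingAlgebra.lift ℂ T.gl

lemma rho_gen (x : Generators (Fin 2)) : T.rho (gen x) = T.gv x := by
  exact (UniversalEnvelopingAlgebra.lift_ι_apply ℂ T.gl _).trans (T.fl_of x)

lemma rho_e (i : Fin 2) : T.rho (e i) = T.eg i := T.rho_gen _

lemma rho_f (i : Fin 2) : T.rho (f i) = T.fg i := T.rho_gen _

lemma rho_h (i : Fin 2) : T.rho (h i) = T.hg i := T.rho_gen _

end LoopRep

lemma rho_prod {N : Type*} [AddCommGroup N] [Module ℂ N] (S : LoopRep M) (T : LoopRep N) (u : U)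
    (x : M × N) : (S.prod T).rho u x = (S.rho u x.1, T.rho u x.2) := by
  let P : Subalgebra ℂ U :=
    { carrier := {u | ∀ x : M × N, (S.prod T).rho u x = (S.rho u x.1, T.rho u x.2)}
      mul_mem' := fun {a b} ha hb x => by simp [ha _, hb _]
      add_mem' := fun {a b} ha hb x => by simp [ha _, hb _]
      algebraMap_mem' := fun c x => by simp [Module.algebraMap_end_apply, Prod.ext_iff] }
  refine U_ind P ?_ ?_ ?_ u x
  · intro i x; simp only [LoopRep.rho_e]; fin_cases i <;> rfl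
  · intro i x; simp only [LoopRep.rho_f]; fin_cases i <;> rfl
  · intro i x; simp only [LoopRep.rho_h]; fin_cases i <;> rfl

variable (ρ : U →ₐ[ℂ] Module.End ℂ M)

lemma UZ_stab {R : AddSubgroup M} (h1 : ∀ i, DStab R (ρ (e i))) (h2 : ∀ i, DStab R (ρ (f i)))
    (h3 : ∀ i k, Stab R (binom (ρ (h i)) k)) {u : U} (hu : u ∈ kostantForm) : Stab R (ρ u) := by
  induction hu using Subring.closure_induction with
  | mem u hu =>
    obtain ⟨i, k, rfl | rfl | rfl⟩ := hu
    · rw [map_dpow]; exact h1 i k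
    · rw [map_dpow]; exact h2 i k
    · rw [map_binom]; exact h3 i k
  | zero => intro x _; simp
  | one => intro x hx; simpa using hx
  | add a b _ _ ha hb => intro x hx; simpa using R.add_mem (ha x hx) (hb x hx)
  | neg a _ ha => intro x hx; simpa using ha x hx
  | mul a b _ _ ha hb => rw [map_mul]; exact ha.mul hb

/-- The lattice generated by `v`. -/
def latt (v : M) : AddSubgroup M where
  carrier := {x | ∃ u ∈ kostantForm, ρ u v = x}
  zero_mem' := ⟨0, kostantForm.zero_mem, by simp⟩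
  add_mem' := by
    rintro _ _ ⟨a, ha, rfl⟩ ⟨b, hb, rfl⟩; exact ⟨a + b, kostantForm.add_mem ha hb, by simp⟩
  neg_mem' := by rintro _ ⟨a, ha, rfl⟩; exact ⟨-a, kostantForm.neg_mem ha, by simp⟩

lemma self_mem_latt (v : M) : v ∈ latt ρ v := ⟨1, kostantForm.one_mem, by simp⟩

lemma stab_latt (v : M) {u : U} (hu : u ∈ kostantForm) : Stab (latt ρ v) (ρ u) := by
  rintro _ ⟨a, ha, rfl⟩; exact ⟨u * a, kostantForm.mul_mem hu ha, by simp⟩

lemma latt_e (v : M) (i : Fin 2) : DStab (latt ρ v) (ρ (e i)) := fun k => by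
  rw [← map_dpow]; exact stab_latt ρ v (eZ i k).2

lemma latt_f (v : M) (i : Fin 2) : DStab (latt ρ v) (ρ (f i)) := fun k => by
  rw [← map_dpow]; exact stab_latt ρ v (fZ i k).2

lemma latt_h (v : M) (i : Fin 2) (k : ℕ) : Stab (latt ρ v) (binom (ρ (h i)) k) := by
  rw [← map_binom]; exact stab_latt ρ v (hZ i k).2

lemma latt_good (T : LoopRep M) (v : M) : T.Good (latt T.rho v) := fun i =>
  ⟨T.rho_e i ▸ latt_e _ v i, T.rho_f i ▸ latt_f _ v i⟩

/-- Highest weight vector. -/
structure IsHW (lam : Fin 2 → ℤ) (v : M) : Prop where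
  e : ∀ i, ρ (e i) v = 0
  h : ∀ i, ρ (h i) v = (lam i : ℂ) • v

/-- The span of the words of length at most `j` in the `f_i` applied to `v`. -/
def Hw (v : M) : ℕ → Submodule ℂ M
  | 0 => Submodule.span ℂ {v}
  | j + 1 => Hw v j ⊔ ⨆ i, (Hw v j).map (ρ (f i))

lemma Hw_mono (v : M) : Monotone (Hw ρ v) := monotone_nat_of_le_succ fun _ => le_sup_left

lemma Hw_f {v x : M} {j : ℕ} (hx : x ∈ Hw ρ v j) (i : Fin 2) : ρ (f i) x ∈ Hw ρ v (j + 1) :=
  Submodule.mem_sup_right (Submodule.mem_iSup_of_mem i ⟨x, hx, rfl⟩)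

lemma Hw_ind {v : M} {j : ℕ} {N : Type*} [AddCommGroup N] [Module ℂ N] {X : M →ₗ[ℂ] N}
    {P : Submodule ℂ N} (h1 : ∀ x ∈ Hw ρ v j, X x ∈ P)
    (h2 : ∀ i, ∀ x ∈ Hw ρ v j, X (ρ (f i) x) ∈ P) : ∀ x ∈ Hw ρ v (j + 1), X x ∈ P := by
  have : Hw ρ v (j + 1) ≤ P.comap X :=
    sup_le h1 (iSup_le fun i => by rintro _ ⟨x, hx, rfl⟩; exact h2 i x hx)
  exact fun x hx => this hx

lemma rho_h_f (i j : Fin 2) (x : M) :
    ρ (h i) (ρ (f j) x) = ρ (f j) (ρ (h i) x) - ((cartan i j : ℤ) : ℂ) • ρ (f j) x := by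
  have := LinearMap.congr_fun (congrArg ρ (hf_U i j)) x
  simp only [cm, map_sub, map_mul, map_smul, LinearMap.sub_apply, Module.End.mul_apply,
    LinearMap.smul_apply] at this
  rw [sub_eq_iff_eq_add.1 this]; module

lemma rho_e_f (i j : Fin 2) (x : M) :
    ρ (e i) (ρ (f j) x) = ρ (f j) (ρ (e i) x) + if i = j then ρ (h i) x else 0 := by
  have := LinearMap.congr_fun (congrArg ρ (ef_U i j)) x
  simp only [cm, map_sub, map_mul, LinearMap.sub_apply, Module.End.mul_apply] at this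
  rw [sub_eq_iff_eq_add.1 this]
  split_ifs <;> simp [add_comm]

variable {ρ} {lam : Fin 2 → ℤ} {v : M}

lemma IsHW.Hw_h (hv : IsHW ρ lam v) (i : Fin 2) (j : ℕ) :
    ∀ x ∈ Hw ρ v j, ρ (MP_b2f51a_al.h i) x ∈ Hw ρ v j := by
  induction j with
  | zero =>
    intro x hx
    obtain ⟨c, rfl⟩ := Submodule.mem_span_singleton.1 hx
    rw [map_smul, hv.h]
    exact Submodule.smul_mem _ _ (Submodule.smul_mem _ _ (Submodule.mem_span_singleton_self v))
  | succ j ih =>
    refine Hw_ind ρ (fun x hx => Hw_mono ρ v (Nat.le_succ j) (ih x hx)) fun k x hx => ?_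
    rw [rho_h_f]
    exact Submodule.sub_mem _ (Hw_f ρ (ih x hx) k) (Submodule.smul_mem _ _ (Hw_f ρ hx k))

variable (ρ v) in
/-- Operators lowering the filtration. -/
def Low (X : Module.End ℂ M) : Prop :=
  (∀ x ∈ Hw ρ v 0, X x = 0) ∧ ∀ j, ∀ x ∈ Hw ρ v (j + 1), X x ∈ Hw ρ v j

lemma IsHW.low_e (hv : IsHW ρ lam v) (i : Fin 2) : Low ρ v (ρ (MP_b2f51a_al.e i)) := by
  have h0 : ∀ x ∈ Hw ρ v 0, ρ (MP_b2f51a_al.e i) x = 0 := by
    intro x hx
    obtain ⟨c, rfl⟩ := Submodule.mem_span_singleton.1 hx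
    rw [map_smul, hv.e, smul_zero]
  refine ⟨h0, fun j => ?_⟩
  induction j with
  | zero =>
    refine Hw_ind ρ (fun x hx => by rw [h0 x hx]; exact zero_mem _) fun k x hx => ?_
    rw [rho_e_f, h0 x hx, map_zero, zero_add]
    split_ifs
    · exact hv.Hw_h i _ x hx
    · exact zero_mem _
  | succ j ih =>
    refine Hw_ind ρ (fun x hx => Hw_mono ρ v (Nat.le_succ j) (ih x hx)) fun k x hx => ?_
    rw [rho_e_f]
    refine Submodule.add_mem _ (Hw_f ρ (ih x hx) k) ?_
    split_ifs
    · exact hv.Hw_h i _ x hx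
    · exact zero_mem _

lemma Low.stab {X : Module.End ℂ M} (hX : Low ρ v X) (j : ℕ) :
    ∀ x ∈ Hw ρ v j, X x ∈ Hw ρ v j := by
  intro x hx
  cases j with
  | zero => rw [hX.1 x hx]; exact zero_mem _
  | succ j => exact Hw_mono ρ v (Nat.le_succ j) (hX.2 j x hx)

lemma Low.mul {X Y : Module.End ℂ M} (hX : Low ρ v X) (hY : Low ρ v Y) : Low ρ v (X * Y) :=
  ⟨fun x hx => by rw [Module.End.mul_apply, hY.1 x hx, map_zero],
    fun j x hx => hX.stab j _ (hY.2 j x hx)⟩

lemma Low.cm {X Y : Module.End ℂ M} (hX : Low ρ v X) (hY : Low ρ v Y) : Low ρ v (cm X Y) :=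
  ⟨fun x hx => by
      rw [MP_b2f51a_al.cm, LinearMap.sub_apply, (hX.mul hY).1 x hx, (hY.mul hX).1 x hx, sub_self],
    fun j x hx => Submodule.sub_mem _ ((hX.mul hY).2 j x hx) ((hY.mul hX).2 j x hx)⟩

lemma Low.smul {X : Module.End ℂ M} (hX : Low ρ v X) (c : ℂ) : Low ρ v (c • X) :=
  ⟨fun x hx => by rw [LinearMap.smul_apply, hX.1 x hx, smul_zero],
    fun j x hx => Submodule.smul_mem _ _ (hX.2 j x hx)⟩

lemma Low.pow {X : Module.End ℂ M} (hX : Low ρ v X) (k : ℕ) : ∀ j, ∀ x ∈ Hw ρ v j,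
    (j < k → (X ^ k) x = 0) ∧ (X ^ k) x ∈ Hw ρ v (j - k) := by
  induction k with
  | zero => intro j x hx; simpa using hx
  | succ k ih =>
    intro j x hx
    rw [pow_succ, Module.End.mul_apply]
    cases j with
    | zero => rw [hX.1 x hx, map_zero]; exact ⟨fun _ => rfl, zero_mem _⟩
    | succ j =>
      have := ih j _ (hX.2 j x hx)
      exact ⟨fun h => this.1 (by omega), by simpa using this.2⟩

lemma IsHW.prod_e (hv : IsHW ρ lam v) (w : List (Fin 2 × ℕ)) : ∀ j, ∀ x ∈ Hw ρ v j,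
    (j < (w.map Prod.snd).sum → ρ (w.map fun p => dpow (MP_b2f51a_al.e p.1) p.2).prod x = 0) ∧
      ρ (w.map fun p => dpow (MP_b2f51a_al.e p.1) p.2).prod x ∈
        Hw ρ v (j - (w.map Prod.snd).sum) := by
  induction w with
  | nil => intro j x hx; simpa using hx
  | cons p w ih =>
    intro j x hx
    obtain ⟨h1, h2⟩ := ih j x hx
    obtain ⟨h3, h4⟩ := (hv.low_e p.1).pow p.2 _ _ h2
    simp only [List.map_cons, List.sum_cons, List.prod_cons, map_mul, Module.End.mul_apply,
      map_dpow]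
    refine ⟨fun hj => ?_, ?_⟩
    · by_cases hc : j < (w.map Prod.snd).sum
      · rw [h1 hc, map_zero]
      · rw [dpow, LinearMap.smul_apply, h3 (by omega), smul_zero]
    · rw [dpow, LinearMap.smul_apply, add_comm, ← Nat.sub_sub]
      exact Submodule.smul_mem _ _ h4

lemma IsHW.exists_Hw (hv : IsHW ρ lam v) (u : U) : ∃ j, ρ u v ∈ Hw ρ v j := by
  let P : Subalgebra ℂ U :=
    { carrier := {u | ∀ j, ∀ x ∈ Hw ρ v j, ∃ j', ρ u x ∈ Hw ρ v j'}
      mul_mem' := fun {a b} ha hb j x hx => by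
        obtain ⟨j', h'⟩ := hb j x hx
        simpa using ha j' _ h'
      add_mem' := fun {a b} ha hb j x hx => by
        obtain ⟨j1, h1⟩ := ha j x hx
        obtain ⟨j2, h2⟩ := hb j x hx
        exact ⟨j1 + j2, by
          simpa using add_mem (Hw_mono ρ v (by omega) h1) (Hw_mono ρ v (by omega) h2)⟩
      algebraMap_mem' := fun c j x hx => ⟨j, by
        simpa [Module.algebraMap_end_apply] using Submodule.smul_mem _ c hx⟩ }
  exact U_ind P (fun i j x hx => ⟨j, (hv.low_e i).stab j x hx⟩)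
    (fun i j x hx => ⟨j + 1, Hw_f ρ hx i⟩) (fun i j x hx => ⟨j, hv.Hw_h i j x hx⟩) u 0 v
    (Submodule.mem_span_singleton_self v)

lemma low_J {T : LoopRep M} (hv : IsHW T.rho lam v) (n : ℕ) : Low T.rho v (T.J true n) := by
  have h0 : Low T.rho v (T.J true 0) := by
    have := hv.low_e 1; rwa [LoopRep.rho_e] at this
  have h1 : Low T.rho v (T.J false 1) := by
    have := hv.low_e 0; rwa [LoopRep.rho_e] at this
  induction n with
  | zero => exact h0
  | succ n ih =>
    have := (ih.cm (h0.cm h1)).smul (-1 / 2)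
    rw [T.cubic_t, smul_smul] at this
    simpa using this

end Pool.Agent.Lib.MP_b2f51a_al
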