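import Pool.Agent.Lib.MP_b2f51a_al.Vac

/-! Integral combinations of words in the `f_i`, stored as binary trees, and the vector that is
singular modulo 23. -/

namespace Pool.Agent.Lib.MP_b2f51a_al

/-- `node c l r` stands for `c v + f_0 l + f_1 r`. -/
inductive Tr where
  | nil : Tr
  | node : ℤ → Tr → Tr → Tr
  deriving DecidableEq

namespace Tr

/-- Node constructor that prunes empty nodes. -/
def mk : ℤ → Tr → Tr → Tr
  | c, nil, nil => if c = 0 then nil else node c nil nil
  | c, l, r => node c l r

/-- Sum. -/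
def add : Tr → Tr → Tr
  | nil, t => t
  | node c l r, nil => node c l r
  | node c l r, node c' l' r' => mk (c + c') (add l l') (add r r')

/-- Multiple. -/
def smul (a : ℤ) : Tr → Tr
  | nil => nil
  | node c l r => node (a * c) (smul a l) (smul a r)

/-- Action of `h + s`, where `h` has eigenvalue `m` on `v` and `[h, f_0] = -a f_0`,
`[h, f_1] = a f_1`. -/
def hs (m a : ℤ) : ℤ → Tr → Tr
  | _, nil => nil
  | s, node c l r => mk ((m + s) * c) (hs m a (s - a) l) (hs m a (s + a) r)

/-- Action of `D + s`, where `D` counts the letters `f_0`. -/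
def hd : ℤ → Tr → Tr
  | _, nil => nil
  | s, node c l r => mk (s * c) (hd (s + 1) l) (hd s r)

/-- Action of `e_0`. -/
def e0 (m : ℤ) : Tr → Tr
  | nil => nil
  | node _ l r => add (mk 0 (e0 m l) (e0 m r)) (hs m 2 0 l)

/-- Action of `e_1`. -/
def e1 (m : ℤ) : Tr → Tr
  | nil => nil
  | node _ l r => add (mk 0 (e1 m l) (e1 m r)) (hs m (-2) 0 r)

/-- Coefficient of the empty word. -/
def root : Tr → ℤ
  | nil => 0
  | node c _ _ => c

/-- The contravariant form. -/
def pair (m0 m1 : ℤ) : Tr → Tr → ℤ
  | nil, _ => 0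
  | node c l r, t => c * root t + pair m0 m1 l (e0 m0 t) + pair m0 m1 r (e1 m1 t)

/-- Depth. -/
def depth : Tr → ℕ
  | nil => 0
  | node _ l r => max (depth l) (depth r) + 1

/-- Left subtree. -/
def left : Tr → Tr
  | nil => nil
  | node _ l _ => l

/-- Right subtree. -/
def right : Tr → Tr
  | nil => nil
  | node _ _ r => r

/-- The vector of weight `3 ω_0 - 5 α_0 - 4 α_1` that is singular modulo 23. -/
def w : Tr :=
    (node 0 (node 0 (node 0 nil (node 0 (node 0 nil (node 0 (node 0 nil (node 0 nil (node 0
    (node 9 nil nil) nil))) nil)) (node 0 (node 0 (node 0 nil (node 0 nil (node 0 (node 3 nil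
    nil) nil))) nil) (node 0 (node 0 nil (node 0 (node 0 (node 24 nil nil) nil) nil)) nil))))
    (node 0 (node 0 nil (node 0 (node 0 (node 0 nil (node 0 nil (node 0 (node (-15) nil nil)
    nil))) (node 0 (node 0 nil (node 0 (node 3 nil nil) nil)) nil)) (node 0 (node 0 (node 0 nil
    (node 0 (node (-12) nil nil) nil)) nil) nil))) (node 0 (node 0 (node 0 nil (node 0 nil (node
    0 (node 0 (node (-12) nil nil) nil) nil))) nil) (node 0 (node 0 (node 0 (node 0 nil (node 0
    (node 27 nil nil) nil)) nil) nil) nil)))) (node 0 (node 0 (node 0 (node 0 nil (node 0 (node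
    0 nil (node 0 nil (node 0 (node 33 nil nil) nil))) nil)) (node 0 (node 0 (node 0 nil (node 0
    nil (node 0 (node 15 nil nil) nil))) (node 0 nil (node 0 (node 0 (node 21 nil nil) nil)
    nil))) nil)) (node 0 (node 0 (node 0 nil (node 0 (node 0 nil (node 0 (node 12 nil nil) nil))
    nil)) (node 0 (node 0 nil (node 0 (node 0 (node 3 nil nil) nil) nil)) nil)) nil)) (node 0
    (node 0 (node 0 (node 0 nil (node 0 nil (node 0 (node 0 (node 12 nil nil) nil) nil))) nil)
    nil) nil)))

/-- `e_0 w / 23`. -/
def z0 : Tr :=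
    (node 0 (node 0 (node 0 nil (node 0 nil (node 0 (node 0 nil (node 0 nil (node 0 (node 81 nil
    nil) nil))) nil))) (node 0 (node 0 nil (node 0 (node 0 nil (node 0 nil (node 0 (node 18 nil
    nil) nil))) (node 0 (node 0 nil (node 0 (node (-63) nil nil) nil)) nil))) (node 0 (node 0
    (node 0 nil (node 0 nil (node 0 (node (-3) nil nil) nil))) (node 0 (node 0 nil (node 0 (node
    42 nil nil) nil)) nil)) nil))) (node 0 (node 0 (node 0 nil (node 0 (node 0 nil (node 0 nil
    (node 0 (node (-5) nil nil) nil))) (node 0 (node 0 nil (node 0 (node 20 nil nil) nil))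
    nil))) (node 0 (node 0 (node 0 nil (node 0 nil (node 0 (node 9 nil nil) nil))) (node 0 (node
    0 nil (node 0 (node 3 nil nil) nil)) (node 0 (node 0 (node (-8) nil nil) nil) nil))) (node 0
    (node 0 nil (node 0 (node 0 (node 11 nil nil) nil) nil)) nil))) nil))

/-- `e_1 w / 23`. -/
def z1 : Tr :=
    (node 0 (node 0 (node 0 (node 0 nil (node 0 (node 0 nil (node 0 nil (node 0 (node (-16) nil
    nil) nil))) (node 0 (node 0 nil (node 0 (node 58 nil nil) nil)) nil))) (node 0 (node 0 (node
    0 nil (node 0 nil (node 0 (node (-6) nil nil) nil))) (node 0 (node 0 nil (node 0 (node (-54)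
    nil nil) nil)) (node 0 (node 0 (node (-36) nil nil) nil) nil))) (node 0 (node 0 nil (node 0
    (node 0 (node 18 nil nil) nil) nil)) nil))) (node 0 (node 0 (node 0 nil (node 0 (node 0 nil
    (node 0 (node 30 nil nil) nil)) (node 0 (node 0 (node 24 nil nil) nil) nil))) (node 0 (node
    0 (node 0 nil (node 0 (node 24 nil nil) nil)) nil) nil)) nil)) nil)

lemma chk0 : pair 3 0 (add (e0 3 w) (smul (-23) z0)) (add (e0 3 w) (smul (-23) z0)) = 0 := by
  decide +kernel

lemma chk1 : pair 3 0 (add (e1 0 w) (smul (-23) z1)) (add (e1 0 w) (smul (-23) z1)) = 0 := by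
  decide +kernel

lemma chk2 : pair 3 0 (left w) z0 + pair 3 0 (right w) z1 = 669112704 := by decide +kernel

lemma chk3 : hs 3 2 0 w = smul 1 w := by decide +kernel

lemma chk4 : hs 0 (-2) 0 w = smul 2 w := by decide +kernel

lemma chk5 : depth w = 10 := by decide +kernel

lemma chk6 : w = node 0 (left w) (right w) := by decide +kernel

lemma chk7 : hd 0 w = smul 5 w := by decide +kernel

noncomputable section

variable {M : Type*} [AddCommGroup M] [Module ℂ M] (ρ : U →ₐ[ℂ] Module.End ℂ M) (v : M)

/-- The vector encoded by a tree. -/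
def eval : Tr → M
  | nil => 0
  | node c l r => (c : ℂ) • v + ρ (f 0) (eval l) + ρ (f 1) (eval r)

lemma eval_mk (c : ℤ) (l r : Tr) : eval ρ v (mk c l r) = eval ρ v (node c l r) := by
  cases l <;> cases r <;> simp only [mk]
  split_ifs with hc <;> simp [eval, *]

lemma eval_add (s t : Tr) : eval ρ v (add s t) = eval ρ v s + eval ρ v t := by
  induction s generalizing t with
  | nil => simp [add, eval]
  | node c l r ihl ihr =>
    cases t with
    | nil => simp [add, eval]
    | node c' l' r' =>
      simp only [add, eval_mk, eval, ihl, ihr, map_add]; push_cast; module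

lemma eval_smul (a : ℤ) (t : Tr) : eval ρ v (smul a t) = (a : ℂ) • eval ρ v t := by
  induction t with
  | nil => simp [smul, eval]
  | node c l r ihl ihr => simp only [smul, eval, ihl, ihr, map_smul]; push_cast; module

lemma eval_mem_latt (t : Tr) : eval ρ v t ∈ latt ρ v := by
  induction t with
  | nil => exact zero_mem _
  | node c l r ihl ihr =>
    refine add_mem (add_mem (int_smul_mem (self_mem_latt ρ v) c) ?_) ?_
    · simpa using latt_f ρ v 0 1 _ ihl
    · simpa using latt_f ρ v 1 1 _ ihr

lemma eval_mem_Hw (t : Tr) : eval ρ v t ∈ Hw ρ v (depth t) := by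
  induction t with
  | nil => exact zero_mem _
  | node c l r ihl ihr =>
    refine add_mem (add_mem (Submodule.smul_mem _ _ ?_) ?_) ?_
    · exact Hw_mono ρ v (Nat.zero_le _) (Submodule.mem_span_singleton_self v)
    · exact Hw_f ρ (Hw_mono ρ v (le_max_left _ _) ihl) 0
    · exact Hw_f ρ (Hw_mono ρ v (le_max_right _ _) ihr) 1

variable {ρ v} {lam : Fin 2 → ℤ}

lemma eval_hs (hv : IsHW ρ lam v) (i : Fin 2) (s : ℤ) (t : Tr) :
    eval ρ v (hs (lam i) (cartan i 0) s t) = ρ (h i) (eval ρ v t) + (s : ℂ) • eval ρ v t := by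
  have hc : cartan i 1 = -cartan i 0 := by fin_cases i <;> simp [cartan]
  induction t generalizing s with
  | nil => simp [hs, eval]
  | node c l r ihl ihr =>
    simp only [hs, eval_mk, eval, ihl, ihr, map_add, map_smul, rho_h_f, hv.h, hc]
    push_cast; module

lemma eval_e0 (hv : IsHW ρ lam v) (t : Tr) :
    eval ρ v (e0 (lam 0) t) = ρ (e 0) (eval ρ v t) := by
  induction t with
  | nil => simp [e0, eval]
  | node c l r ihl ihr =>
    have := eval_hs hv 0 0 l
    simp only [cartan, Matrix.of_apply, Matrix.cons_val', Matrix.cons_val_zero] at this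
    simp only [e0, eval_add, eval_mk, eval, ihl, ihr, this, map_add, map_smul, rho_e_f, hv.e]
    simp; abel

lemma eval_e1 (hv : IsHW ρ lam v) (t : Tr) :
    eval ρ v (e1 (lam 1) t) = ρ (e 1) (eval ρ v t) := by
  induction t with
  | nil => simp [e1, eval]
  | node c l r ihl ihr =>
    have := eval_hs hv 1 0 r
    simp only [cartan, Matrix.of_apply, Matrix.cons_val', Matrix.cons_val_zero,
      Matrix.cons_val_one, Matrix.cons_val_fin_one] at this
    simp only [e1, eval_add, eval_mk, eval, ihl, ihr, this, map_add, map_smul, rho_e_f, hv.e]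
    simp; abel

lemma ip_eval {v : Fk} (hv : IsHW fockRep.rho lam v) (h1 : ip v v = 1) (s t : Tr) :
    ip (eval fockRep.rho v s) (eval fockRep.rho v t) = (pair (lam 0) (lam 1) s t : ℤ) := by
  induction s generalizing t with
  | nil => simp [eval, pair]
  | node c l r ihl ihr =>
    have h2 : ip v (eval fockRep.rho v t) = (root t : ℤ) := by
      cases t with
      | nil => simp [eval, root]
      | node c' l' r' =>
        simp only [eval, root, ip_add_right, ip_smul_right, h1, ← adj_rho _ _ _, hv.e,
          ip_zero_left]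
        simp
    simp only [eval, pair, ip_add_left, ip_smul_left, h2, (adj_rho _).symm _ _,
      ← eval_e0 hv, ← eval_e1 hv, ihl, ihr]
    simp

end

end Tr

end Pool.Agent.Lib.MP_b2f51a_al
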