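import Pool.Agent.Lib.MP_b2f51a_al.Indep
import Pool.Agent.Lib.MP_b2f51a_al.Rep

/-! The two highest weight vectors in the Fock space. -/

noncomputable section

namespace Pool.Agent.Lib.MP_b2f51a_al

open Finset

lemma JF_bv_eq_zero {s : Bool} {n : ℤ} {D : Finset Ix}
    (h : ∀ r m, occ D ⟨!s, r, m⟩ → occ D ⟨s, r, m - n⟩) : JF s n (bv D) = 0 := by
  rw [JF, lsum_apply_of (locFin_At s n) _ ∅, sum_empty]
  intro p hp
  rw [At_bv, if_neg (fun hc => hc.2 (h _ _ hc.1))] at hp
  exact absurd rfl hp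

lemma occ_empty (j : Ix) : occ ∅ j ↔ j.m < 0 := by simp [occ]

lemma JF_vac (s : Bool) {n : ℤ} (hn : 0 ≤ n) : JF s n (bv ∅) = 0 :=
  JF_bv_eq_zero fun r m h => by rw [occ_empty] at h ⊢; simp only at h ⊢; omega

lemma hg_one : fockRep.hg 1 = Dg (chg true) := by
  obtain ⟨c, hc⟩ := scalar_of_cm (cm (JF true 0) (JF false 0) - Dg (chg true))
    (by
      rintro ⟨s, r, m⟩
      cases s <;> simp [cm_sub_left, cm_cm_left, cm_JF_psi, cm_Dg_psi, chg])
    (by
      rintro ⟨s, r, m⟩
      cases s <;> simp [cm_sub_left, cm_cm_left, cm_JF_psis, cm_Dg_psis, chg])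
  have h1 := LinearMap.congr_fun hc (bv ∅)
  simp only [cm, LinearMap.sub_apply, Module.End.mul_apply, JF_vac _ le_rfl, map_zero, Dg_vac,
    sub_self, LinearMap.smul_apply, Module.End.one_apply] at h1
  have h2 : c = 0 := (smul_eq_zero.1 h1.symm).resolve_right ((fb Ix).ne_zero _)
  rw [h2, zero_smul, sub_eq_zero] at hc
  exact hc

lemma psi_psis_vac (j : Ix) (hj : j.m < 0) : psi j (psis j (bv ∅)) = bv ∅ := by
  have h1 : psi j (bv ∅) = 0 := by rw [psi_bv, if_pos ((occ_empty j).2 hj)]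
  have := LinearMap.congr_fun (psi_psis j j) (bv ∅)
  simpa [h1] using this

lemma level_vac : JF false 1 (JF true (-1) (bv ∅)) = (3 : ℂ) • bv ∅ := by
  have h1 : JF true (-1) (bv ∅) = ∑ r : Fin 3, At true r 0 (-1) (bv ∅) := by
    rw [JF, lsum_apply_of (locFin_At true (-1)) _ (univ.image fun r : Fin 3 => (r, (-1 : ℤ))),
      sum_image (by intro a _ b _ h; simpa using h)]
    · simp
    · rintro ⟨r, m⟩ hp
      rw [At_bv] at hp
      have : m = -1 := by
        by_contra hc
        apply hp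
        rw [if_neg]
        simp only [occ_empty]; omega
      simp [this]
  have h2 : ∀ r : Fin 3, JF false 1 (At true r 0 (-1) (bv ∅)) = bv ∅ := by
    intro r
    have e1 : cm (JF false 1) (At true r 0 (-1)) =
        psi ⟨false, r, -1⟩ * psis ⟨false, r, -1⟩ - psi ⟨true, r, 0⟩ * psis ⟨true, r, 0⟩ := by
      rw [At, cm_mul_right, cm_JF_psi, cm_JF_psis]; simp [sub_eq_add_neg]
    have e2 := LinearMap.congr_fun e1 (bv ∅)
    have e3 : psis ⟨true, r, 0⟩ (bv ∅) = 0 := by
      rw [psis_bv, if_neg (by simp [occ_empty])]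
    simpa [cm, JF_vac false (show (0 : ℤ) ≤ 1 by norm_num), e3,
      psi_psis_vac ⟨false, r, -1⟩ (by simp)] using e2
  rw [h1, map_sum]
  simp only [h2, sum_const, card_univ, Fintype.card_fin]
  rw [← Nat.cast_smul_eq_nsmul ℂ]; norm_num

lemma hg_zero : fockRep.hg 0 = (3 : ℂ) • (1 : Module.End ℂ Fk) - Dg (chg true) := by
  obtain ⟨c, hc⟩ := scalar_of_cm (cm (JF false 1) (JF true (-1)) + Dg (chg true))
    (by
      rintro ⟨s, r, m⟩
      cases s <;> simp [cm_add_left, cm_cm_left, cm_JF_psi, cm_Dg_psi, chg])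
    (by
      rintro ⟨s, r, m⟩
      cases s <;> simp [cm_add_left, cm_cm_left, cm_JF_psis, cm_Dg_psis, chg])
  have h1 := LinearMap.congr_fun hc (bv ∅)
  simp only [cm, LinearMap.add_apply, LinearMap.sub_apply, Module.End.mul_apply,
    JF_vac false (show (0 : ℤ) ≤ 1 by norm_num), map_zero, Dg_vac, level_vac, sub_zero, add_zero,
    LinearMap.smul_apply, Module.End.one_apply] at h1
  have h2 : (3 : ℂ) = c := smul_left_injective ℂ ((fb Ix).ne_zero _) h1
  rw [← h2, ← eq_sub_iff_add_eq] at hc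
  exact hc

lemma wtV_bv (D : Finset Ix) :
    fockRep.WtV ![3 - swt (chg true) D, swt (chg true) D] (bv D) := by
  intro i
  fin_cases i
  · simp [hg_zero, Dg_bv, sub_smul]
  · simp [hg_one, Dg_bv]

lemma wtV_vac : fockRep.WtV (wt 3 0) (bv ∅) := by
  have := wtV_bv ∅
  simpa [swt, wt] using this

lemma wtV_nu : fockRep.WtV (wt 3 2) (bv Dnu) := by
  have := wtV_bv Dnu
  have e : swt (chg true) Dnu = 2 := by
    rw [swt, Dnu, sum_pair (by simp)]; simp [chg]
  rw [e] at this
  simpa [wt] using this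

lemma hw_vac : IsHW fockRep.rho (wt 3 0) (bv ∅) where
  e i := by
    rw [LoopRep.rho_e]
    fin_cases i
    · exact JF_vac false (by norm_num)
    · exact JF_vac true le_rfl
  h i := by rw [LoopRep.rho_h]; exact wtV_vac i

lemma hw_nu : IsHW fockRep.rho (wt 3 2) (bv Dnu) where
  e i := by
    rw [LoopRep.rho_e]
    fin_cases i
    · refine JF_bv_eq_zero (s := false) fun r m h => ?_
      rw [Bool.not_false, occ_Dnu_true] at h
      rw [occ_Dnu_false]; omega
    · refine JF_bv_eq_zero (s := true) fun r m h => ?_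
      rw [Bool.not_true, occ_Dnu_false] at h
      rw [occ_Dnu_true]; omega
  h i := by rw [LoopRep.rho_h]; exact wtV_nu i

lemma ip_bv_self (D : Finset Ix) : ip (bv D) (bv D) = 1 := by
  rw [ip_bv_left, bv_apply, if_pos rfl]

lemma adj_rho (i : Fin 2) : Adj (fockRep.rho (e i)) (fockRep.rho (f i)) := by
  rw [LoopRep.rho_e, LoopRep.rho_f]; exact adj_eg i

end Pool.Agent.Lib.MP_b2f51a_al
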